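import Pool.Agent.Lib.MP_6ff0c5_lc.Net.Rooms
import Pool.Agent.Lib.MP_6ff0c5_lc.Net.Bound
import Pool.Agent.Lib.MP_6ff0c5_lc.ETR.Comp
import Pool.Agent.Lib.MP_6ff0c5_lc.Net.Def
import Pool.Agent.Lib.MP_6ff0c5_lc.Net.Lay

section

/-!
MP_6ff0c5_lc, part B, completeness: states `F + t² A₂ + t³ A₃ + t⁴ A₄` with `t → 0`.
-/

set_option autoImplicit false

namespace Pool.Agent.Lib.MP_6ff0c5_lc.N

open Filter Topology

/-- the state `F + t² A₂ + t³ A₃ + t⁴ A₄` -/
noncomputable def comb (F A2 A3 A4 : ℤ → ℤ → ℝ × ℝ) (t : ℝ) : ℤ → ℤ → ℝ × ℝ :=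
  fun x y => F x y + t ^ 2 • A2 x y + t ^ 3 • A3 x y + t ^ 4 • A4 x y

/-- The constraint `c` holds for all small `t`, by its leading order. -/
inductive Good (F A2 A3 A4 : ℤ → ℤ → ℝ × ℝ) (c : Con) : Prop
  | o0 (h : c.Holds F)
  | o2 (h0 : ∀ r ∈ c.rooms, F r.1 r.2 = 0) (h2 : 0 < c.slack A2)
  | o3 (h0 : ∀ r ∈ c.rooms, F r.1 r.2 = 0) (h2 : c.slack A2 = 0) (h3 : 0 < c.slack A3)
  | o4 (h0 : ∀ r ∈ c.rooms, F r.1 r.2 = 0) (h2 : c.slack A2 = 0) (h3 : c.slack A3 = 0)
      (h4 : c.Q A2 < 8664 * c.slack A4)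

/-! ### Linearity, congruence, casts -/

theorem slack_add (v w : ℤ → ℤ → ℝ × ℝ) (c : Con) : c.slack (fun x y => v x y + w x y) = c.slack v + c.slack w := by
  rcases c with ⟨x, y⟩ | ⟨x, y⟩ | ⟨x, y⟩ | ⟨x, y⟩ | ⟨x, y⟩ | ⟨x, y⟩ <;>
    simp only [Con.slack, a3, Prod.fst_add, Prod.snd_add] <;> ring

theorem slack_smul (p : ℝ) (v : ℤ → ℤ → ℝ × ℝ) (c : Con) : c.slack (fun x y => p • v x y) = p * c.slack v := by
  rcases c with ⟨x, y⟩ | ⟨x, y⟩ | ⟨x, y⟩ | ⟨x, y⟩ | ⟨x, y⟩ | ⟨x, y⟩ <;>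
    simp only [Con.slack, a3, Prod.smul_fst, Prod.smul_snd, smul_eq_mul] <;> ring

theorem Q_smul (p : ℝ) (v : ℤ → ℤ → ℝ × ℝ) (c : Con) : c.Q (fun x y => p • v x y) = p ^ 2 * c.Q v := by
  rcases c with ⟨x, y⟩ | ⟨x, y⟩ | ⟨x, y⟩ | ⟨x, y⟩ | ⟨x, y⟩ | ⟨x, y⟩ <;>
    simp only [Con.Q, a3, e1, e2, e3, f1, f3, Prod.smul_fst, Prod.smul_snd, smul_eq_mul] <;> ring

/-- the second order term of a sum, with the polar form -/
theorem Q_add (v w : ℤ → ℤ → ℝ × ℝ) (c : Con) : c.Q (fun x y => v x y + w x y) = c.Q v + c.Q w + c.pol v w := by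
  unfold Con.pol
  ring

theorem pol_smul (p q : ℝ) (v w : ℤ → ℤ → ℝ × ℝ) (c : Con) :
    c.pol (fun x y => p • v x y) (fun x y => q • w x y) = p * q * c.pol v w := by
  unfold Con.pol
  rcases c with ⟨x, y⟩ | ⟨x, y⟩ | ⟨x, y⟩ | ⟨x, y⟩ | ⟨x, y⟩ | ⟨x, y⟩ <;>
    simp only [Con.Q, a3, e1, e2, e3, f1, f3, Prod.smul_fst, Prod.smul_snd, smul_eq_mul,
      Prod.fst_add, Prod.snd_add] <;> ring

theorem pol_add_left (v v' w : ℤ → ℤ → ℝ × ℝ) (c : Con) :
    c.pol (fun x y => v x y + v' x y) w = c.pol v w + c.pol v' w := by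
  unfold Con.pol
  rcases c with ⟨x, y⟩ | ⟨x, y⟩ | ⟨x, y⟩ | ⟨x, y⟩ | ⟨x, y⟩ | ⟨x, y⟩ <;>
    simp only [Con.Q, a3, e1, e2, e3, f1, f3, Prod.fst_add, Prod.snd_add] <;> ring

theorem slack_congr {v w : ℤ → ℤ → ℝ × ℝ} {c : Con} (h : ∀ r ∈ c.rooms, v r.1 r.2 = w r.1 r.2) : c.slack v = c.slack w := by
  rcases c with ⟨x, y⟩ | ⟨x, y⟩ | ⟨x, y⟩ | ⟨x, y⟩ | ⟨x, y⟩ | ⟨x, y⟩ <;> simp [Con.rooms] at h <;>
    simp [Con.slack, h]

theorem Q_congr {v w : ℤ → ℤ → ℝ × ℝ} {c : Con} (h : ∀ r ∈ c.rooms, v r.1 r.2 = w r.1 r.2) : c.Q v = c.Q w := by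
  rcases c with ⟨x, y⟩ | ⟨x, y⟩ | ⟨x, y⟩ | ⟨x, y⟩ | ⟨x, y⟩ | ⟨x, y⟩ <;> simp [Con.rooms] at h <;>
    simp [Con.Q, h]

theorem holds_congr {v w : ℤ → ℤ → ℝ × ℝ} {c : Con} (h : ∀ r ∈ c.rooms, v r.1 r.2 = w r.1 r.2) (hc : c.Holds v) :
    c.Holds w := by
  unfold Con.Holds at hc ⊢
  rw [← Q_congr h, ← slack_congr h]
  exact hc

theorem good_congr {F A2 A3 A4 F' A2' A3' A4' : ℤ → ℤ → ℝ × ℝ} {c : Con} (h : ∀ r ∈ c.rooms, F r.1 r.2 = F' r.1 r.2)
    (h2 : ∀ r ∈ c.rooms, A2 r.1 r.2 = A2' r.1 r.2) (h3 : ∀ r ∈ c.rooms, A3 r.1 r.2 = A3' r.1 r.2)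
    (h4 : ∀ r ∈ c.rooms, A4 r.1 r.2 = A4' r.1 r.2) (hc : Good F A2 A3 A4 c) : Good F' A2' A3' A4' c := by
  rcases hc with h' | ⟨h0, h2'⟩ | ⟨h0, h2', h3'⟩ | ⟨h0, h2', h3', h4'⟩
  · exact Good.o0 (holds_congr h h')
  · exact Good.o2 (fun r hr => by rw [← h r hr]; exact h0 r hr) (by rw [← slack_congr h2]; exact h2')
  · exact Good.o3 (fun r hr => by rw [← h r hr]; exact h0 r hr) (by rw [← slack_congr h2]; exact h2')
      (by rw [← slack_congr h3]; exact h3')
  · exact Good.o4 (fun r hr => by rw [← h r hr]; exact h0 r hr) (by rw [← slack_congr h2]; exact h2')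
      (by rw [← slack_congr h3]; exact h3') (by rw [← slack_congr h4, ← Q_congr h2]; exact h4')

/-- the cast of an integer state -/
def castSt (t : ℤ → ℤ → ℤ × ℤ) : ℤ → ℤ → ℝ × ℝ := fun x y => (((t x y).1 : ℝ), ((t x y).2 : ℝ))

theorem slack_cast (t : ℤ → ℤ → ℤ × ℤ) (c : Con) : c.slack (castSt t) = ((c.slack t : ℤ) : ℝ) := by
  rcases c with ⟨x, y⟩ | ⟨x, y⟩ | ⟨x, y⟩ | ⟨x, y⟩ | ⟨x, y⟩ | ⟨x, y⟩ <;>
    simp only [Con.slack, a3, castSt] <;> push_cast <;> ring

theorem Q_cast (t : ℤ → ℤ → ℤ × ℤ) (c : Con) : c.Q (castSt t) = ((c.Q t : ℤ) : ℝ) := by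
  rcases c with ⟨x, y⟩ | ⟨x, y⟩ | ⟨x, y⟩ | ⟨x, y⟩ | ⟨x, y⟩ | ⟨x, y⟩ <;>
    simp only [Con.Q, a3, e1, e2, e3, f1, f3, castSt] <;> push_cast <;> ring

theorem pol_cast (s t : ℤ → ℤ → ℤ × ℤ) (c : Con) : c.pol (castSt s) (castSt t) = ((c.pol s t : ℤ) : ℝ) := by
  unfold Con.pol
  rcases c with ⟨x, y⟩ | ⟨x, y⟩ | ⟨x, y⟩ | ⟨x, y⟩ | ⟨x, y⟩ | ⟨x, y⟩ <;>
    simp only [Con.Q, a3, e1, e2, e3, f1, f3, castSt, Prod.fst_add, Prod.snd_add] <;>
    push_cast <;> ring

/-- a bound for the values of a table -/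
theorem castSt_le {l : List (ℤ × ℤ × ℤ × ℤ)} {m : ℤ} (hm : 0 ≤ m)
    (h : (l.all fun e => decide (|e.2.2.1| ≤ m ∧ |e.2.2.2| ≤ m)) = true) (x y : ℤ) :
    |(castSt (look4 l) x y).1| ≤ m ∧ |(castSt (look4 l) x y).2| ≤ m := by
  have hm' : (0 : ℝ) ≤ m := by exact_mod_cast hm
  induction l with
  | nil =>
    simp only [castSt, look4, Int.cast_zero, abs_zero]
    exact ⟨hm', hm'⟩
  | cons e l ih =>
    rw [List.all_cons, Bool.and_eq_true] at h
    obtain ⟨h1, h2⟩ := h
    by_cases he : e.1 = x ∧ e.2.1 = y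
    · have h3 := of_decide_eq_true h1
      simp only [castSt, look4, if_pos he]
      exact ⟨by exact_mod_cast h3.1, by exact_mod_cast h3.2⟩
    · have h4 := ih h2
      simp only [castSt, look4, if_neg he] at h4 ⊢
      exact h4

/-- a table vanishes outside its rooms -/
theorem look4_eq_zero {l : List (ℤ × ℤ × ℤ × ℤ)} {x y : ℤ} (h : ∀ e ∈ l, ¬ (e.1 = x ∧ e.2.1 = y)) : look4 l x y = (0, 0) := by
  induction l with
  | nil => rfl
  | cons e l ih =>
    rw [look4, if_neg (h e List.mem_cons_self)]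
    exact ih fun e' he' => h e' (List.mem_cons_of_mem _ he')

/-- translation -/
theorem good_shift {F A2 A3 A4 : ℤ → ℤ → ℝ × ℝ} {L J : ℤ} {c : Con}
    (h : Good (loc F L J) (loc A2 L J) (loc A3 L J) (loc A4 L J) c) : Good F A2 A3 A4 (c.shift (9 * L) (9 * J)) := by
  have hr : ∀ r ∈ (c.shift (9 * L) (9 * J)).rooms, ∃ r' ∈ c.rooms, r = (9 * L + r'.1, 9 * J + r'.2) := by
    intro r hr
    rcases c with ⟨x, y⟩ | ⟨x, y⟩ | ⟨x, y⟩ | ⟨x, y⟩ | ⟨x, y⟩ | ⟨x, y⟩ <;>
      simp only [Con.shift, Con.rooms, List.mem_cons, List.not_mem_nil, or_false] at hr ⊢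
    · rcases hr with rfl | rfl
      · exact ⟨(x + 1, y), Or.inl rfl, by simp only [add_assoc]⟩
      · exact ⟨(x, y), Or.inr rfl, rfl⟩
    · rcases hr with rfl | rfl
      · exact ⟨(x, y - 1), Or.inl rfl, by simp only [add_sub_assoc]⟩
      · exact ⟨(x, y), Or.inr rfl, rfl⟩
    · rcases hr with rfl | rfl
      · exact ⟨(x, y), Or.inl rfl, rfl⟩
      · exact ⟨(x + 1, y + 1), Or.inr rfl, by simp only [add_assoc]⟩
    · exact ⟨(x, y), rfl, hr⟩
    · exact ⟨(x, y), rfl, hr⟩
    · exact ⟨(x, y), rfl, hr⟩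
  have hz : (∀ r ∈ c.rooms, loc F L J r.1 r.2 = 0) →
      ∀ r ∈ (c.shift (9 * L) (9 * J)).rooms, F r.1 r.2 = 0 := by
    intro h0 r hr'
    obtain ⟨r', h1, rfl⟩ := hr r hr'
    exact h0 r' h1
  rcases h with h' | ⟨h0, h2'⟩ | ⟨h0, h2', h3'⟩ | ⟨h0, h2', h3', h4'⟩
  · refine Good.o0 ?_
    unfold Con.Holds at h' ⊢
    rw [Q_shift, slack_shift]
    exact h'
  · exact Good.o2 (hz h0) (by rw [slack_shift]; exact h2')
  · exact Good.o3 (hz h0) (by rw [slack_shift]; exact h2') (by rw [slack_shift]; exact h3')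
  · exact Good.o4 (hz h0) (by rw [slack_shift]; exact h2') (by rw [slack_shift]; exact h3')
      (by rw [slack_shift, Q_shift]; exact h4')

/-! ### The principle -/

/-- Proof. `8664 slack - Q` of `comb F A2 A3 A4 t` is a polynomial in `t`; in case `o0` its value at `t = 0` is positive, in the
other cases its terms below the order `2`, `3`, `4` vanish and the coefficient of this order is positive
(`Q (comb 0 A2 A3 A4 t) = t⁴ Q A2 + O(t⁵)`). -/
theorem good_ev {F A2 A3 A4 : ℤ → ℤ → ℝ × ℝ} {c : Con} (h : Good F A2 A3 A4 c) :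
    ∀ᶠ t in 𝓝[>] (0 : ℝ), c.Holds (comb F A2 A3 A4 t) := by
  have hcQ : ∀ B0 B2 B3 B4 : ℤ → ℤ → ℝ × ℝ, Continuous fun t : ℝ =>
      c.Q (fun x y => B0 x y + t ^ 2 • B2 x y + t ^ 3 • B3 x y + t ^ 4 • B4 x y) := by
    intro B0 B2 B3 B4
    rcases c with ⟨x, y⟩ | ⟨x, y⟩ | ⟨x, y⟩ | ⟨x, y⟩ | ⟨x, y⟩ | ⟨x, y⟩ <;>
      simp only [Con.Q, a3, e1, e2, e3, f1, f3, Prod.smul_fst, Prod.smul_snd, smul_eq_mul,
        Prod.fst_add, Prod.snd_add] <;> fun_prop
  have hcR : Continuous fun t : ℝ => c.Q (fun x y => A2 x y + (t • A3 x y + t ^ 2 • A4 x y)) := by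
    rcases c with ⟨x, y⟩ | ⟨x, y⟩ | ⟨x, y⟩ | ⟨x, y⟩ | ⟨x, y⟩ | ⟨x, y⟩ <;>
      simp only [Con.Q, a3, e1, e2, e3, f1, f3, Prod.smul_fst, Prod.smul_snd, smul_eq_mul,
        Prod.fst_add, Prod.snd_add] <;> fun_prop
  obtain ⟨R, hR⟩ : ∃ R : ℝ → ℝ, R = fun t =>
      c.Q (fun x y => A2 x y + (t • A3 x y + t ^ 2 • A4 x y)) := ⟨_, rfl⟩
  rw [← hR] at hcR
  have hR0 : R 0 = c.Q A2 := by
    rw [hR]
    simp
  have hsl : ∀ t : ℝ, c.slack (comb F A2 A3 A4 t) =
      c.slack F + t ^ 2 * c.slack A2 + t ^ 3 * c.slack A3 + t ^ 4 * c.slack A4 := by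
    intro t
    unfold comb
    rw [slack_add, slack_add, slack_add, slack_smul, slack_smul, slack_smul]
  have hpos : ∀ g : ℝ → ℝ, Continuous g → 0 < g 0 → ∀ᶠ t in 𝓝[>] (0 : ℝ), 0 < g t := fun g hg h0 =>
    nhdsWithin_le_nhds (hg.continuousAt.eventually (lt_mem_nhds h0))
  -- if `F` vanishes on the rooms
  have hzero : (∀ r ∈ c.rooms, F r.1 r.2 = 0) → ∀ t : ℝ,
      8664 * c.slack (comb F A2 A3 A4 t) - c.Q (comb F A2 A3 A4 t) =
      8664 * (t ^ 2 * c.slack A2 + t ^ 3 * c.slack A3 + t ^ 4 * c.slack A4) - t ^ 4 * R t := by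
    intro h0 t
    have e1 : c.slack F = 0 := by
      rw [slack_congr (w := fun _ _ => 0) h0]
      rcases c with ⟨x, y⟩ | ⟨x, y⟩ | ⟨x, y⟩ | ⟨x, y⟩ | ⟨x, y⟩ | ⟨x, y⟩ <;>
        simp [Con.slack, a3]
    have e2 : c.Q (comb F A2 A3 A4 t) =
        c.Q (fun x y => t ^ 2 • (A2 x y + (t • A3 x y + t ^ 2 • A4 x y))) := by
      refine Q_congr fun r hr => ?_
      unfold comb
      rw [h0 r hr, zero_add, smul_add, smul_add, smul_smul, smul_smul, ← add_assoc]
      congr 2
      congr 1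
      ring
    rw [hsl, e1, e2, Q_smul, hR]
    ring
  rcases h with h' | ⟨h0, h2⟩ | ⟨h0, h2, h3⟩ | ⟨h0, h2, h3, h4⟩
  · have h1 := hpos (fun t => 8664 * (c.slack F + t ^ 2 * c.slack A2 + t ^ 3 * c.slack A3 +
      t ^ 4 * c.slack A4) - c.Q (fun x y => F x y + t ^ 2 • A2 x y + t ^ 3 • A3 x y +
        t ^ 4 • A4 x y)) (Continuous.sub (by fun_prop) (hcQ F A2 A3 A4)) (by
      unfold Con.Holds at h'
      simp only [ne_eq, OfNat.ofNat_ne_zero, not_false_eq_true, zero_pow, zero_mul, add_zero,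
        zero_smul]
      linarith)
    filter_upwards [h1] with t ht
    unfold Con.Holds
    rw [hsl]
    unfold comb
    linarith
  · have h1 := hpos (fun t => 8664 * (c.slack A2 + t * c.slack A3 + t ^ 2 * c.slack A4) -
      t ^ 2 * R t) (by fun_prop) (by
        simp only [ne_eq, OfNat.ofNat_ne_zero, not_false_eq_true, zero_pow, zero_mul, add_zero,
          sub_zero]
        linarith)
    filter_upwards [h1, self_mem_nhdsWithin] with t ht ht0
    have ht0' : (0 : ℝ) < t := ht0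
    have h5 := mul_pos (pow_pos ht0' 2) ht
    have h6 := hzero h0 t
    unfold Con.Holds
    linarith
  · have h1 := hpos (fun t => 8664 * (c.slack A3 + t * c.slack A4) - t * R t) (by fun_prop) (by
        simp only [zero_mul, add_zero, sub_zero]
        linarith)
    filter_upwards [h1, self_mem_nhdsWithin] with t ht ht0
    have ht0' : (0 : ℝ) < t := ht0
    have h5 := mul_pos (pow_pos ht0' 3) ht
    have h6 := hzero h0 t
    rw [h2] at h6
    unfold Con.Holds
    linarith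
  · have h1 := hpos (fun t => 8664 * c.slack A4 - R t) (by fun_prop) (by
        simp only [hR0]
        linarith)
    filter_upwards [h1, self_mem_nhdsWithin] with t ht ht0
    have ht0' : (0 : ℝ) < t := ht0
    have h5 := mul_pos (pow_pos ht0' 4) ht
    have h6 := hzero h0 t
    rw [h2, h3] at h6
    unfold Con.Holds
    linarith

end Pool.Agent.Lib.MP_6ff0c5_lc.N
end

section

/-!
MP_6ff0c5_lc: the system of a formula is solvable if and only if the formula is satisfiable.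
-/

set_option autoImplicit false

namespace Pool.Agent.Lib.MP_6ff0c5_lc

open Pool.Agent.Lib.MP_6ff0c5_lc.LQ
open N487b59b3 (bitEncode)

/-! ### Soundness -/

/-- the constraints of a node hold -/
def LocOk (X : ℕ → ℝ) (r : Rec) : Prop :=
  (∀ f ∈ linsR r, Form.eval X f = 0) ∧ ∀ q ∈ mulsR r, X q.1 * X q.2.1 = X q.2.2

/-- the occurrences of variables have the right values -/
def OccOk (X : ℕ → ℝ) (x : ℕ → ℝ) (r : Rec) : Prop := ∀ i, r.1 = 2 → r.2.1 = bitEncode i → X (12 * r.2.2.1) = x i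

theorem Term.sound (X x : ℕ → ℝ) (t : Term) : ∀ p, (∀ r ∈ t.recs p, LocOk X r ∧ OccOk X x r) →
    X (12 * p) = t.val x := by
  induction t with
  | zero =>
    intro p h
    have h1 := (h _ List.mem_cons_self).1.1
    simp only [linsR, if_true, List.forall_mem_cons, Form.eval, lsum, List.map_cons, List.map_nil, List.sum_cons,
      List.sum_nil] at h1
    push_cast at h1
    unfold Term.val
    linarith [h1.1]
  | one =>
    intro p h
    have h1 := (h _ List.mem_cons_self).1.1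
    simp only [linsR, one_ne_zero, if_false, if_true, List.forall_mem_cons, Form.eval, lsum, List.map_cons,
      List.map_nil, List.sum_cons, List.sum_nil] at h1
    push_cast at h1
    unfold Term.val
    linarith [h1.1]
  | var i =>
    intro p h
    exact (h _ List.mem_cons_self).2 i rfl rfl
  | add a b iha ihb =>
    intro p h
    unfold Term.recs at h
    rw [List.forall_mem_cons, List.forall_mem_append] at h
    obtain ⟨h0, hb, ha⟩ := h
    have h1 := h0.1.1
    simp only [linsR] at h1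
    norm_num [addL, Form.eval, lsum] at h1
    have e1 := iha _ ha
    have e2 := ihb _ hb
    unfold Term.val
    rw [← e1, ← e2]
    linarith
  | mul a b iha ihb =>
    intro p h
    unfold Term.recs at h
    rw [List.forall_mem_cons, List.forall_mem_append] at h
    obtain ⟨h0, hb, ha⟩ := h
    have h1 := h0.1.2
    simp only [mulsR] at h1
    norm_num [mulM] at h1
    have e1 := iha _ ha
    have e2 := ihb _ hb
    unfold Term.val
    rw [← e1, ← e2]
    exact h1.symm

open Classical in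
theorem Fml.sound (X x : ℕ → ℝ) (t : Fml) : ∀ p, (∀ r ∈ t.recs p, LocOk X r ∧ OccOk X x r) →
    X (12 * p) = if t.Holds x then 1 else 0 := by
  induction t with
  | eq a b =>
    intro p h
    unfold Fml.recs at h
    rw [List.forall_mem_cons, List.forall_mem_append] at h
    obtain ⟨h0, hb, ha⟩ := h
    have ha := a.sound X x _ ha
    have hb := b.sound X x _ hb
    obtain ⟨h1, h2⟩ := h0.1
    have k1 : linsR (5, [], p, p + 1 + b.size, p + 1) = eqL p (p + 1 + b.size) (p + 1) := rfl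
    have k2 : mulsR (5, [], p, p + 1 + b.size, p + 1) = eqM p := rfl
    rw [k1] at h1
    rw [k2] at h2
    unfold eqL at h1
    unfold eqM at h2
    simp only [List.forall_mem_cons, Form.eval, lsum, List.map_cons, List.map_nil, List.sum_cons, List.sum_nil] at h1 h2
    push_cast at h1
    obtain ⟨e1, e2, e3, -⟩ := h1
    obtain ⟨m1, m2, -⟩ := h2
    rw [ha, hb] at e1
    have e2' : X (12 * p + 2) = 0 := by linarith
    have e1' : X (12 * p + 1) = a.val x - b.val x := by linarith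
    have e3' : X (12 * p + 4) = 1 - X (12 * p) := by linarith
    rw [e2', e1'] at m1
    rw [e1', e3'] at m2
    simp only [Fml.Holds]
    split_ifs with h
    · rw [h, sub_self, zero_mul] at m2
      linarith
    · have : a.val x - b.val x ≠ 0 := sub_ne_zero.2 h
      exact (mul_eq_zero.1 m1).resolve_right this
  | lt a b =>
    intro p h
    unfold Fml.recs at h
    rw [List.forall_mem_cons, List.forall_mem_append] at h
    obtain ⟨h0, hb, ha⟩ := h
    have ha := a.sound X x _ ha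
    have hb := b.sound X x _ hb
    obtain ⟨h1, h2⟩ := h0.1
    have k1 : linsR (6, [], p, p + 1 + b.size, p + 1) = ltL p (p + 1 + b.size) (p + 1) := rfl
    have k2 : mulsR (6, [], p, p + 1 + b.size, p + 1) = ltM p := rfl
    rw [k1] at h1
    rw [k2] at h2
    unfold ltL at h1
    unfold ltM at h2
    simp only [List.forall_mem_cons, Form.eval, lsum, List.map_cons, List.map_nil, List.sum_cons, List.sum_nil] at h1 h2
    push_cast at h1
    obtain ⟨e1, e2, e3, e4, e5, -⟩ := h1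
    obtain ⟨m1, m2, m3, m4, m5, m6, -⟩ := h2
    rw [ha, hb] at e1
    have e1' : X (12 * p + 1) = b.val x - a.val x := by linarith
    have e2' : X (12 * p + 6) = 0 := by linarith
    have e3' : X (12 * p + 5) = X (12 * p + 4) - 1 := by linarith
    have e4' : X (12 * p + 9) = X (12 * p + 1) + X (12 * p + 8) := by linarith
    have e5' : X (12 * p + 10) = 1 - X (12 * p) := by linarith
    rw [e3', e2', ← m3, ← m2, e1'] at m4
    rw [e4', e5', e2', ← m5, e1'] at m6
    have hb01 : X (12 * p) = 0 ∨ X (12 * p) = 1 := by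
      have : X (12 * p) * (X (12 * p) - 1) = 0 := by linear_combination m1
      rcases mul_eq_zero.1 this with h | h
      · exact Or.inl h
      · exact Or.inr (by linarith)
    simp only [Fml.Holds]
    split_ifs with h
    · rcases hb01 with h0 | h0
      · rw [h0, sub_zero, mul_one] at m6
        nlinarith [mul_self_nonneg (X (12 * p + 7))]
      · exact h0
    · rcases hb01 with h0 | h0
      · exact h0
      · rw [h0, mul_one] at m4
        push Not at h
        nlinarith [mul_self_nonneg (X (12 * p + 2)), mul_nonneg (sub_nonneg.2 h) (mul_self_nonneg (X (12 * p + 2)))]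
  | not q ih =>
    intro p h
    unfold Fml.recs at h
    rw [List.forall_mem_cons] at h
    obtain ⟨h0, hq⟩ := h
    have hq := ih _ hq
    have h3 := h0.1.1
    have k1 : linsR (7, [], p, p + 1, 0) = notL p (p + 1) := rfl
    rw [k1] at h3
    unfold notL at h3
    simp only [List.forall_mem_cons, Form.eval, lsum, List.map_cons, List.map_nil, List.sum_cons, List.sum_nil] at h3
    push_cast at h3
    have h4 := h3.1
    rw [hq] at h4
    simp only [Fml.Holds]
    by_cases h : q.Holds x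
    · rw [if_pos h] at h4
      rw [if_neg (not_not.2 h)]
      linarith
    · rw [if_neg h] at h4
      rw [if_pos h]
      linarith
  | and a b iha ihb =>
    intro p h
    unfold Fml.recs at h
    rw [List.forall_mem_cons, List.forall_mem_append] at h
    obtain ⟨h0, hb, ha⟩ := h
    have ha := iha _ ha
    have hb := ihb _ hb
    have h3 := h0.1.2
    have k2 : mulsR (8, [], p, p + 1 + b.size, p + 1) = mulM p (p + 1 + b.size) (p + 1) := rfl
    rw [k2] at h3
    unfold mulM at h3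
    simp only [List.forall_mem_cons] at h3
    have h4 := h3.1
    rw [ha, hb] at h4
    rw [← h4]
    simp only [Fml.Holds]
    by_cases h5 : a.Holds x <;> by_cases h6 : b.Holds x <;> simp [h5, h6]
  | or a b iha ihb =>
    intro p h
    unfold Fml.recs at h
    rw [List.forall_mem_cons, List.forall_mem_append] at h
    obtain ⟨h0, hb, ha⟩ := h
    have ha := iha _ ha
    have hb := ihb _ hb
    obtain ⟨h1, h2⟩ := h0.1
    have k1 : linsR (9, [], p, p + 1 + b.size, p + 1) = orL p (p + 1 + b.size) (p + 1) := rfl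
    have k2 : mulsR (9, [], p, p + 1 + b.size, p + 1) = orM p (p + 1 + b.size) (p + 1) := rfl
    rw [k1] at h1
    rw [k2] at h2
    unfold orL at h1
    unfold orM at h2
    simp only [List.forall_mem_cons, Form.eval, lsum, List.map_cons, List.map_nil, List.sum_cons, List.sum_nil] at h1 h2
    push_cast at h1
    have e1 := h1.1
    have e2 := h2.1
    rw [ha, hb] at e1 e2
    rw [← e2] at e1
    simp only [Fml.Holds]
    by_cases h5 : a.Holds x <;> by_cases h6 : b.Holds x <;> simp [h5, h6] at e1 ⊢ <;> linarith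

theorem Fml.sys_sound (φ : Fml) (h : ∃ X, φ.sys.Sat X) : φ.Sat := by
  classical
  obtain ⟨X, h1, h2⟩ := h
  unfold Fml.sys sysR at h1 h2
  simp only [List.forall_mem_cons, List.forall_mem_append] at h1 h2
  obtain ⟨h0, h1, h3⟩ := h1
  obtain ⟨R, hR⟩ : ∃ R, R = φ.recs 0 := ⟨_, rfl⟩
  rw [← hR] at h1 h2 h3
  -- the assignment
  obtain ⟨x, hx⟩ : ∃ x : ℕ → ℝ, x = fun i => if h : ∃ o ∈ R.flatMap occR, o.1 = bitEncode i then
    X (12 * h.choose.2) else 0 := ⟨_, rfl⟩
  have hocc : ∀ r ∈ R, OccOk X x r := by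
    intro r hr i hk hw
    have hmem : (r.2.1, r.2.2.1) ∈ R.flatMap occR := by
      rw [List.mem_flatMap]
      refine ⟨r, hr, ?_⟩
      unfold occR
      rw [if_pos hk]
      simp
    have hex : ∃ o ∈ R.flatMap occR, o.1 = bitEncode i := ⟨_, hmem, hw⟩
    rw [hx]
    simp only
    rw [dif_pos hex]
    have hc := hex.choose_spec
    have := h3 (0, [(1, 12 * r.2.2.1), (-1, 12 * hex.choose.2)]) (by
      unfold occL
      rw [List.mem_flatMap]
      refine ⟨_, hmem, ?_⟩
      rw [List.mem_flatMap]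
      refine ⟨hex.choose, hc.1, ?_⟩
      rw [if_pos (hw.trans hc.2.symm)]
      simp)
    simp only [Form.eval, lsum, List.map_cons, List.map_nil, List.sum_cons, List.sum_nil] at this
    push_cast at this
    linarith
  refine ⟨x, ?_⟩
  have h4 := φ.sound X x 0 (fun r hr => by
    rw [← hR] at hr
    refine ⟨⟨fun f hf => h1 f ?_, fun q hq => h2 q ?_⟩, hocc r hr⟩
    · rw [List.mem_flatMap]; exact ⟨r, hr, hf⟩
    · rw [List.mem_flatMap]; exact ⟨r, hr, hq⟩)
  simp only [Form.eval, lsum, List.map_cons, List.map_nil, List.sum_cons, List.sum_nil] at h0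
  push_cast at h0
  by_contra hn
  rw [if_neg hn, mul_zero] at h4
  linarith

/-! ### Completeness -/

/-- the values of the variables of the nodes of a term -/
noncomputable def Term.vals (x : ℕ → ℝ) : Term → List (ℕ → ℝ)
  | .zero => [fun _ => 0]
  | .one => [fun _ => 1]
  | .var i => [fun _ => x i]
  | .add a b => (fun _ => a.val x + b.val x) :: (b.vals x ++ a.vals x)
  | .mul a b => (fun _ => a.val x * b.val x) :: (b.vals x ++ a.vals x)

open Classical in
/-- the truth value -/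
noncomputable def Fml.tv (x : ℕ → ℝ) (φ : Fml) : ℝ := if φ.Holds x then 1 else 0

noncomputable def eqB (d b : ℝ) (j : ℕ) : ℝ :=
  match j with
  | 0 => b
  | 1 => d
  | 2 => 0
  | 3 => if d = 0 then 0 else 1 / d
  | 4 => 1 - b
  | _ => 0

noncomputable def ltB (d b : ℝ) (j : ℕ) : ℝ :=
  match j with
  | 0 => b
  | 1 => d
  | 2 => 1 / √d
  | 3 => (1 / √d) * (1 / √d)
  | 4 => d * ((1 / √d) * (1 / √d))
  | 5 => d * ((1 / √d) * (1 / √d)) - 1
  | 6 => 0
  | 7 => √(-d)
  | 8 => √(-d) * √(-d)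
  | 9 => d + √(-d) * √(-d)
  | 10 => 1 - b
  | _ => 0

noncomputable def orB (a b c : ℝ) (j : ℕ) : ℝ :=
  match j with
  | 0 => c
  | _ => a * b

noncomputable def Fml.vals (x : ℕ → ℝ) : Fml → List (ℕ → ℝ)
  | .eq a b => eqB (a.val x - b.val x) ((Fml.eq a b).tv x) :: (b.vals x ++ a.vals x)
  | .lt a b => ltB (b.val x - a.val x) ((Fml.lt a b).tv x) :: (b.vals x ++ a.vals x)
  | .not q => (fun _ => (Fml.not q).tv x) :: q.vals x
  | .and a b => (fun _ => (Fml.and a b).tv x) :: (b.vals x ++ a.vals x)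
  | .or a b => orB (a.tv x) (b.tv x) ((Fml.or a b).tv x) :: (b.vals x ++ a.vals x)

theorem Term.vals_length (x : ℕ → ℝ) (t : Term) : (t.vals x).length = t.size := by
  induction t with
  | zero => rfl
  | one => rfl
  | var i => rfl
  | add a b iha ihb => simp only [Term.vals, Term.size, List.length_cons, List.length_append, iha, ihb]; omega
  | mul a b iha ihb => simp only [Term.vals, Term.size, List.length_cons, List.length_append, iha, ihb]; omega

theorem Fml.vals_length (x : ℕ → ℝ) (t : Fml) : (t.vals x).length = t.size := by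
  induction t with
  | eq a b => simp only [Fml.vals, Fml.size, List.length_cons, List.length_append, Term.vals_length]; omega
  | lt a b => simp only [Fml.vals, Fml.size, List.length_cons, List.length_append, Term.vals_length]; omega
  | not q ih => simp only [Fml.vals, Fml.size, List.length_cons, ih]; omega
  | and a b iha ihb => simp only [Fml.vals, Fml.size, List.length_cons, List.length_append, iha, ihb]; omega
  | or a b iha ihb => simp only [Fml.vals, Fml.size, List.length_cons, List.length_append, iha, ihb]; omega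

/-- the values `V` are placed at position `p` -/
def At (X : ℕ → ℝ) (p : ℕ) (V : List (ℕ → ℝ)) : Prop :=
  ∀ q < V.length, ∀ j < 12, X (12 * (p + q) + j) = V.getD q (fun _ => 0) j

theorem At.cons {X : ℕ → ℝ} {p : ℕ} {v : ℕ → ℝ} {V : List (ℕ → ℝ)} (h : At X p (v :: V)) :
    (∀ j < 12, X (12 * p + j) = v j) ∧ At X (p + 1) V := by
  constructor
  · intro j hj
    have := h 0 (by simp) j hj
    simpa using this
  · intro q hq j hj
    have := h (q + 1) (by simpa using hq) j hj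
    rw [List.getD_cons_succ] at this
    rw [← this]
    congr 1
    ring

theorem At.append {X : ℕ → ℝ} {p : ℕ} {V W : List (ℕ → ℝ)} (h : At X p (V ++ W)) :
    At X p V ∧ At X (p + V.length) W := by
  constructor
  · intro q hq j hj
    have := h q (by rw [List.length_append]; omega) j hj
    rw [this, List.getD_append _ _ _ _ hq]
  · intro q hq j hj
    have := h (V.length + q) (by rw [List.length_append]; omega) j hj
    rw [List.getD_append_right _ _ _ _ (by omega)] at this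
    rw [Nat.add_sub_cancel_left] at this
    rw [← this]
    congr 1
    ring

theorem At.root {X : ℕ → ℝ} {p : ℕ} {v : ℕ → ℝ} {V : List (ℕ → ℝ)} (h : At X p (v :: V)) : X (12 * p) = v 0 := by
  have := (At.cons h).1 0 (by norm_num)
  simpa using this

theorem Term.at_root {X x : ℕ → ℝ} {t : Term} {p : ℕ} (h : At X p (t.vals x)) : X (12 * p) = t.val x := by
  cases t <;> exact At.root h

theorem Fml.at_root {X x : ℕ → ℝ} {t : Fml} {p : ℕ} (h : At X p (t.vals x)) : X (12 * p) = t.tv x := by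
  cases t <;> exact At.root h

theorem occOk_of_ne {X x : ℕ → ℝ} {k p a b : ℕ} {w : List Bool} (h : k ≠ 2) : OccOk X x (k, w, p, a, b) :=
  fun _ hk _ => absurd hk h

theorem Term.complete {X x : ℕ → ℝ} (t : Term) : ∀ p, At X p (t.vals x) →
    ∀ r ∈ t.recs p, LocOk X r ∧ OccOk X x r := by
  induction t with
  | zero =>
    intro p h
    have h0 := Term.at_root h
    unfold Term.val at h0
    unfold Term.recs
    rw [List.forall_mem_singleton]
    refine ⟨⟨?_, ?_⟩, occOk_of_ne (by norm_num)⟩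
    · have k1 : linsR (0, [], p, 0, 0) = [(0, [(1, 12 * p)])] := rfl
      rw [k1]
      simp only [List.forall_mem_cons, Form.eval, lsum, List.map_cons, List.map_nil, List.sum_cons,
        List.sum_nil, h0]
      simp
    · have k2 : mulsR (0, [], p, 0, 0) = [] := rfl
      rw [k2]
      simp
  | one =>
    intro p h
    have h0 := Term.at_root h
    unfold Term.val at h0
    unfold Term.recs
    rw [List.forall_mem_singleton]
    refine ⟨⟨?_, ?_⟩, occOk_of_ne (by norm_num)⟩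
    · have k1 : linsR (1, [], p, 0, 0) = [(-1, [(1, 12 * p)])] := rfl
      rw [k1]
      simp only [List.forall_mem_cons, Form.eval, lsum, List.map_cons, List.map_nil, List.sum_cons,
        List.sum_nil, h0]
      simp
    · have k2 : mulsR (1, [], p, 0, 0) = [] := rfl
      rw [k2]
      simp
  | var i =>
    intro p h
    have h0 := Term.at_root h
    unfold Term.val at h0
    unfold Term.recs
    rw [List.forall_mem_singleton]
    refine ⟨⟨?_, ?_⟩, ?_⟩
    · have k1 : linsR (2, bitEncode i, p, 0, 0) = [] := rfl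
      rw [k1]
      simp
    · have k2 : mulsR (2, bitEncode i, p, 0, 0) = [] := rfl
      rw [k2]
      simp
    · intro j _ hj
      have : i = j := N487b59b3.bitEncode_injective hj
      rw [← this]
      exact h0
  | add a b iha ihb =>
    intro p h
    have h0 := Term.at_root h
    unfold Term.vals at h
    obtain ⟨-, h⟩ := h.cons
    obtain ⟨hb, ha⟩ := h.append
    rw [Term.vals_length] at ha
    have ha0 := Term.at_root ha
    have hb0 := Term.at_root hb
    unfold Term.recs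
    rw [List.forall_mem_cons, List.forall_mem_append]
    refine ⟨⟨⟨?_, ?_⟩, occOk_of_ne (by norm_num)⟩, ihb _ hb, iha _ ha⟩
    · have k1 : linsR (3, [], p, p + 1 + b.size, p + 1) = addL p (p + 1 + b.size) (p + 1) := rfl
      rw [k1]
      simp only [addL, List.forall_mem_cons, Form.eval, lsum, List.map_cons, List.map_nil, List.sum_cons,
        List.sum_nil, h0, ha0, hb0, Term.val]
      simp
    · have k2 : mulsR (3, [], p, p + 1 + b.size, p + 1) = [] := rfl
      rw [k2]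
      simp
  | mul a b iha ihb =>
    intro p h
    have h0 := Term.at_root h
    unfold Term.vals at h
    obtain ⟨-, h⟩ := h.cons
    obtain ⟨hb, ha⟩ := h.append
    rw [Term.vals_length] at ha
    have ha0 := Term.at_root ha
    have hb0 := Term.at_root hb
    unfold Term.recs
    rw [List.forall_mem_cons, List.forall_mem_append]
    refine ⟨⟨⟨?_, ?_⟩, occOk_of_ne (by norm_num)⟩, ihb _ hb, iha _ ha⟩
    · have k1 : linsR (4, [], p, p + 1 + b.size, p + 1) = [] := rfl
      rw [k1]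
      simp
    · have k2 : mulsR (4, [], p, p + 1 + b.size, p + 1) = mulM p (p + 1 + b.size) (p + 1) := rfl
      rw [k2]
      simp only [mulM, List.forall_mem_cons, h0, ha0, hb0, Term.val]
      simp

theorem Fml.complete {X x : ℕ → ℝ} (t : Fml) : ∀ p, At X p (t.vals x) →
    ∀ r ∈ t.recs p, LocOk X r ∧ OccOk X x r := by
  induction t with
  | eq a b =>
    intro p h
    have h0 := Fml.at_root h
    unfold Fml.vals at h
    obtain ⟨hv, h⟩ := h.cons
    obtain ⟨hb, ha⟩ := h.append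
    rw [Term.vals_length] at ha
    have ha0 := Term.at_root ha
    have hb0 := Term.at_root hb
    have v1 := hv 1 (by norm_num)
    have v2 := hv 2 (by norm_num)
    have v3 := hv 3 (by norm_num)
    have v4 := hv 4 (by norm_num)
    simp only [eqB] at v1 v2 v3 v4
    have htv : (Fml.eq a b).tv x = if a.val x - b.val x = 0 then 1 else 0 := by
      unfold Fml.tv
      simp only [Fml.Holds]
      by_cases h : a.val x = b.val x
      · rw [if_pos h, if_pos (sub_eq_zero.2 h)]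
      · rw [if_neg h, if_neg (sub_ne_zero.2 h)]
    unfold Fml.recs
    rw [List.forall_mem_cons, List.forall_mem_append]
    refine ⟨⟨⟨?_, ?_⟩, occOk_of_ne (by norm_num)⟩, b.complete _ hb, a.complete _ ha⟩
    · have k1 : linsR (5, [], p, p + 1 + b.size, p + 1) = eqL p (p + 1 + b.size) (p + 1) := rfl
      rw [k1]
      simp only [eqL, List.forall_mem_cons, Form.eval, lsum, List.map_cons, List.map_nil, List.sum_cons,
        List.sum_nil, h0, ha0, hb0, v1, v2, v4]
      simp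
      ring
    · have k2 : mulsR (5, [], p, p + 1 + b.size, p + 1) = eqM p := rfl
      rw [k2]
      simp only [eqM, List.forall_mem_cons, h0, v1, v2, v3, v4]
      rw [htv]
      by_cases h : a.val x - b.val x = 0
      · simp [h]
      · simp [h]
  | lt a b =>
    intro p h
    have h0 := Fml.at_root h
    unfold Fml.vals at h
    obtain ⟨hv, h⟩ := h.cons
    obtain ⟨hb, ha⟩ := h.append
    rw [Term.vals_length] at ha
    have ha0 := Term.at_root ha
    have hb0 := Term.at_root hb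
    have v1 := hv 1 (by norm_num)
    have v2 := hv 2 (by norm_num)
    have v3 := hv 3 (by norm_num)
    have v4 := hv 4 (by norm_num)
    have v5 := hv 5 (by norm_num)
    have v6 := hv 6 (by norm_num)
    have v7 := hv 7 (by norm_num)
    have v8 := hv 8 (by norm_num)
    have v9 := hv 9 (by norm_num)
    have v10 := hv 10 (by norm_num)
    simp only [ltB] at v1 v2 v3 v4 v5 v6 v7 v8 v9 v10
    have htv : (Fml.lt a b).tv x = if 0 < b.val x - a.val x then 1 else 0 := by
      unfold Fml.tv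
      simp only [Fml.Holds]
      by_cases h : a.val x < b.val x
      · rw [if_pos h, if_pos (sub_pos.2 h)]
      · rw [if_neg h, if_neg (fun h' => h (sub_pos.1 h'))]
    unfold Fml.recs
    rw [List.forall_mem_cons, List.forall_mem_append]
    refine ⟨⟨⟨?_, ?_⟩, occOk_of_ne (by norm_num)⟩, b.complete _ hb, a.complete _ ha⟩
    · have k1 : linsR (6, [], p, p + 1 + b.size, p + 1) = ltL p (p + 1 + b.size) (p + 1) := rfl
      rw [k1]
      simp only [ltL, List.forall_mem_cons, Form.eval, lsum, List.map_cons, List.map_nil, List.sum_cons,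
        List.sum_nil, h0, ha0, hb0, v1, v4, v5, v6, v8, v9, v10]
      simp
      ring
    · have k2 : mulsR (6, [], p, p + 1 + b.size, p + 1) = ltM p := rfl
      rw [k2]
      simp only [ltM, List.forall_mem_cons, h0, v1, v2, v3, v4, v5, v6, v7, v8, v9, v10]
      rw [htv]
      generalize b.val x - a.val x = d
      by_cases h : 0 < d
      · have h1 : d * (1 / √d * (1 / √d)) = 1 := by
          have h2 : √d * √d = d := Real.mul_self_sqrt h.le
          have h3 : √d ≠ 0 := (Real.sqrt_pos.2 h).ne'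
          field_simp
          nlinarith
        rw [if_pos h]
        refine ⟨by norm_num, trivial, trivial, by rw [h1]; norm_num, trivial, by norm_num, by simp⟩
      · have h1 : d + √(-d) * √(-d) = 0 := by
          rw [Real.mul_self_sqrt (by linarith)]
          ring
        rw [if_neg h]
        refine ⟨by norm_num, trivial, trivial, by norm_num, trivial, by rw [h1]; norm_num, by simp⟩
  | not q ih =>
    intro p h
    have h0 := Fml.at_root h
    unfold Fml.vals at h
    obtain ⟨-, h⟩ := h.cons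
    have hq := Fml.at_root h
    have htv : (Fml.not q).tv x = 1 - q.tv x := by
      unfold Fml.tv
      simp only [Fml.Holds]
      by_cases h : q.Holds x <;> simp [h]
    unfold Fml.recs
    rw [List.forall_mem_cons]
    refine ⟨⟨⟨?_, ?_⟩, occOk_of_ne (by norm_num)⟩, ih _ h⟩
    · have k1 : linsR (7, [], p, p + 1, 0) = notL p (p + 1) := rfl
      rw [k1]
      simp only [notL, List.forall_mem_cons, Form.eval, lsum, List.map_cons, List.map_nil, List.sum_cons,
          List.sum_nil, h0, hq, htv]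
      simp
    · have k2 : mulsR (7, [], p, p + 1, 0) = [] := rfl
      rw [k2]
      simp
  | and a b iha ihb =>
    intro p h
    have h0 := Fml.at_root h
    unfold Fml.vals at h
    obtain ⟨-, h⟩ := h.cons
    obtain ⟨hb, ha⟩ := h.append
    rw [Fml.vals_length] at ha
    have ha0 := Fml.at_root ha
    have hb0 := Fml.at_root hb
    have htv : (Fml.and a b).tv x = a.tv x * b.tv x := by
      unfold Fml.tv
      simp only [Fml.Holds]
      by_cases h : a.Holds x <;> by_cases h' : b.Holds x <;> simp [h, h']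
    unfold Fml.recs
    rw [List.forall_mem_cons, List.forall_mem_append]
    refine ⟨⟨⟨?_, ?_⟩, occOk_of_ne (by norm_num)⟩, ihb _ hb, iha _ ha⟩
    · have k1 : linsR (8, [], p, p + 1 + b.size, p + 1) = [] := rfl
      rw [k1]
      simp
    · have k2 : mulsR (8, [], p, p + 1 + b.size, p + 1) = mulM p (p + 1 + b.size) (p + 1) := rfl
      rw [k2]
      simp only [mulM, List.forall_mem_cons, h0, ha0, hb0, htv]
      simp
  | or a b iha ihb =>
    intro p h
    have h0 := Fml.at_root h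
    unfold Fml.vals at h
    obtain ⟨hv, h⟩ := h.cons
    obtain ⟨hb, ha⟩ := h.append
    rw [Fml.vals_length] at ha
    have ha0 := Fml.at_root ha
    have hb0 := Fml.at_root hb
    have v1 := hv 1 (by norm_num)
    simp only [orB] at v1
    have htv : (Fml.or a b).tv x = a.tv x + b.tv x - a.tv x * b.tv x := by
      unfold Fml.tv
      simp only [Fml.Holds]
      by_cases h : a.Holds x <;> by_cases h' : b.Holds x <;> simp [h, h']
    unfold Fml.recs
    rw [List.forall_mem_cons, List.forall_mem_append]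
    refine ⟨⟨⟨?_, ?_⟩, occOk_of_ne (by norm_num)⟩, ihb _ hb, iha _ ha⟩
    · have k1 : linsR (9, [], p, p + 1 + b.size, p + 1) = orL p (p + 1 + b.size) (p + 1) := rfl
      rw [k1]
      simp only [orL, List.forall_mem_cons, Form.eval, lsum, List.map_cons, List.map_nil, List.sum_cons,
        List.sum_nil, h0, ha0, hb0, v1, htv]
      simp
      ring
    · have k2 : mulsR (9, [], p, p + 1 + b.size, p + 1) = orM p (p + 1 + b.size) (p + 1) := rfl
      rw [k2]
      simp only [orM, List.forall_mem_cons, ha0, hb0, v1]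
      simp

/-- the labels of the variables of a term are codes of numbers -/
theorem Term.labels (t : Term) : ∀ p, ∀ r ∈ t.recs p, r.1 = 2 → ∃ i : ℕ, r.2.1 = bitEncode i := by
  induction t with
  | zero => intro p r hr h; simp [Term.recs] at hr; rw [hr] at h; simp at h
  | one => intro p r hr h; simp [Term.recs] at hr; rw [hr] at h; simp at h
  | var i => intro p r hr h; simp [Term.recs] at hr; exact ⟨i, by rw [hr]⟩
  | add a b iha ihb =>
    intro p r hr h
    unfold Term.recs at hr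
    rcases List.mem_cons.1 hr with rfl | hr
    · simp at h
    · rcases List.mem_append.1 hr with hr | hr
      · exact ihb _ r hr h
      · exact iha _ r hr h
  | mul a b iha ihb =>
    intro p r hr h
    unfold Term.recs at hr
    rcases List.mem_cons.1 hr with rfl | hr
    · simp at h
    · rcases List.mem_append.1 hr with hr | hr
      · exact ihb _ r hr h
      · exact iha _ r hr h

theorem Fml.labels (t : Fml) : ∀ p, ∀ r ∈ t.recs p, r.1 = 2 → ∃ i : ℕ, r.2.1 = bitEncode i := by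
  induction t with
  | eq a b =>
    intro p r hr h
    unfold Fml.recs at hr
    rcases List.mem_cons.1 hr with rfl | hr
    · simp at h
    · rcases List.mem_append.1 hr with hr | hr
      · exact b.labels _ r hr h
      · exact a.labels _ r hr h
  | lt a b =>
    intro p r hr h
    unfold Fml.recs at hr
    rcases List.mem_cons.1 hr with rfl | hr
    · simp at h
    · rcases List.mem_append.1 hr with hr | hr
      · exact b.labels _ r hr h
      · exact a.labels _ r hr h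
  | not q ih =>
    intro p r hr h
    unfold Fml.recs at hr
    rcases List.mem_cons.1 hr with rfl | hr
    · simp at h
    · exact ih _ r hr h
  | and a b iha ihb =>
    intro p r hr h
    unfold Fml.recs at hr
    rcases List.mem_cons.1 hr with rfl | hr
    · simp at h
    · rcases List.mem_append.1 hr with hr | hr
      · exact ihb _ r hr h
      · exact iha _ r hr h
  | or a b iha ihb =>
    intro p r hr h
    unfold Fml.recs at hr
    rcases List.mem_cons.1 hr with rfl | hr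
    · simp at h
    · rcases List.mem_append.1 hr with hr | hr
      · exact ihb _ r hr h
      · exact iha _ r hr h

theorem Fml.sys_complete (φ : Fml) (h : φ.Sat) : ∃ X, φ.sys.Sat X := by
  obtain ⟨x, hx⟩ := h
  obtain ⟨X, hX⟩ : ∃ X : ℕ → ℝ, X = fun i => (φ.vals x).getD (i / 12) (fun _ => 0) (i % 12) := ⟨_, rfl⟩
  have hat : At X 0 (φ.vals x) := by
    intro q hq j hj
    rw [hX]
    simp only
    have e1 : (12 * (0 + q) + j) / 12 = q := by omega
    have e2 : (12 * (0 + q) + j) % 12 = j := by omega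
    rw [e1, e2]
  have hall := φ.complete 0 hat
  have h0 := Fml.at_root hat
  have htv : φ.tv x = 1 := by unfold Fml.tv; rw [if_pos hx]
  rw [htv, mul_zero] at h0
  have hocc : ∀ o ∈ (φ.recs 0).flatMap occR, ∃ i : ℕ, o.1 = bitEncode i ∧ X (12 * o.2) = x i := by
    intro o ho
    rw [List.mem_flatMap] at ho
    obtain ⟨r, hr, ho⟩ := ho
    unfold occR at ho
    split_ifs at ho with hk
    · simp only [List.mem_cons, List.not_mem_nil, or_false] at ho
      obtain ⟨i, hi⟩ := φ.labels 0 r hr hk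
      refine ⟨i, by rw [ho]; exact hi, ?_⟩
      rw [ho]
      exact (hall r hr).2 i hk hi
    · exact absurd ho List.not_mem_nil
  refine ⟨X, ?_, ?_⟩
  · unfold Fml.sys sysR
    simp only [List.forall_mem_cons, List.forall_mem_append]
    refine ⟨?_, ?_, ?_⟩
    · simp only [Form.eval, lsum, List.map_cons, List.map_nil, List.sum_cons, List.sum_nil, h0]
      simp
    · intro f hf
      rw [List.mem_flatMap] at hf
      obtain ⟨r, hr, hf⟩ := hf
      exact (hall r hr).1.1 f hf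
    · intro f hf
      unfold occL at hf
      rw [List.mem_flatMap] at hf
      obtain ⟨o, ho, hf⟩ := hf
      rw [List.mem_flatMap] at hf
      obtain ⟨o', ho', hf⟩ := hf
      split_ifs at hf with he
      · simp only [List.mem_cons, List.not_mem_nil, or_false] at hf
        subst hf
        obtain ⟨i, hi, hxi⟩ := hocc o ho
        obtain ⟨i', hi', hxi'⟩ := hocc o' ho'
        have hii : i = i' := by
          apply N487b59b3.bitEncode_injective
          rw [← hi, ← hi', he]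
        simp only [Form.eval, lsum, List.map_cons, List.map_nil, List.sum_cons, List.sum_nil, hxi, hxi', hii]
        simp
      · exact absurd hf List.not_mem_nil
  · intro q hq
    unfold Fml.sys sysR at hq
    simp only [List.mem_flatMap] at hq
    obtain ⟨r, hr, hq⟩ := hq
    exact (hall r hr).1.2 q hq

/-- The reduction from formulas to LQ instances. -/
def Fml.lq (φ : Fml) : Inst × ℕ := redA φ.sys

theorem Fml.lq_wf (φ : Fml) : φ.lq.1.WF := redA_wf φ.sys_wf

theorem Fml.lq_complete (φ : Fml) (h : φ.Sat) : ∃ z, φ.lq.1.Sol (-(1 / 2 ^ (2 ^ φ.lq.2))) z :=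
  redA_complete φ.sys_wf (φ.sys_complete h)

theorem Fml.lq_sound (φ : Fml) (h : ∃ z, φ.lq.1.Sol (1 / 2 ^ (2 ^ φ.lq.2)) z) : φ.Sat :=
  φ.sys_sound (redA_sound φ.sys_wf h)

end Pool.Agent.Lib.MP_6ff0c5_lc
end

section

section

/-!
Elimination of the rooms `B`, second direction: a small solution of the reduced system extends to the full system.
-/

set_option autoImplicit false

namespace Pool.Agent.Lib.MP_6ff0c5_lc.N

private theorem el2_small1 {A : ℝ} (hA : 0 < A) (B : ℝ) : ∃ r : ℝ, 0 < r ∧ ∀ ρ : ℝ, 0 < ρ → ρ ≤ r →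
    0 < A + ρ * B := by
  refine ⟨A / (2 * (|B| + 1)), by positivity, fun ρ h1 h2 => ?_⟩
  have hB : 0 < 2 * (|B| + 1) := by positivity
  rw [le_div_iff₀ hB] at h2
  have h3 : -(ρ * |B|) ≤ ρ * B := by
    rw [← mul_neg]
    exact mul_le_mul_of_nonneg_left (neg_abs_le B) h1.le
  have h4 : 0 ≤ ρ * |B| := by positivity
  nlinarith

private theorem el2_small {h A1 A2 A3 : ℝ} (hh : 0 < h) (h1 : 0 < A1) (h2 : 0 < A2) (h3 : 0 < A3)
    (B1 B2 B3 : ℝ) : ∃ ρ : ℝ, 0 < ρ ∧ ρ ≤ h ∧ 0 < A1 + ρ * B1 ∧ 0 < A2 + ρ * B2 ∧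
      0 < A3 + ρ * B3 := by
  obtain ⟨r1, k1, l1⟩ := el2_small1 h1 B1
  obtain ⟨r2, k2, l2⟩ := el2_small1 h2 B2
  obtain ⟨r3, k3, l3⟩ := el2_small1 h3 B3
  have hr : 0 < min (min h r1) (min r2 r3) := lt_min (lt_min hh k1) (lt_min k2 k3)
  have e1 : min (min h r1) (min r2 r3) ≤ h := (min_le_left _ _).trans (min_le_left _ _)
  have e2 : min (min h r1) (min r2 r3) ≤ r1 := (min_le_left _ _).trans (min_le_right _ _)
  have e3 : min (min h r1) (min r2 r3) ≤ r2 := (min_le_right _ _).trans (min_le_left _ _)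
  have e4 : min (min h r1) (min r2 r3) ≤ r3 := (min_le_right _ _).trans (min_le_right _ _)
  exact ⟨_, hr, e1, l1 _ hr e2, l2 _ hr e3, l3 _ hr e4⟩

/-- the lower bound of a port, present or not -/
private theorem el2_low {h x y s t : ℝ} (h0 : 0 < h) (hy : |y| ≤ 2 * h) (ht : 2 / 3 ≤ t) (P : Prop)
    (hx : P → |x| ≤ 2 * h ∧ 2 / 3 ≤ s ∧ 0 < y * s + x * t) :
    ∃ L : ℝ, |L| ≤ 4 * h ∧ 0 < y - L * t ∧ (P → 2 / 3 ≤ s ∧ x + L * s = 0) := by
  have ht0 : 0 < t := by linarith
  by_cases hP : P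
  · obtain ⟨h1, h2, h3⟩ := hx hP
    have hs0 : 0 < s := by linarith
    refine ⟨-x / s, ?_, ?_, fun _ => ⟨h2, ?_⟩⟩
    · rw [abs_div, abs_neg, abs_of_pos hs0, div_le_iff₀ hs0]
      nlinarith
    · have e : y - -x / s * t = (y * s + x * t) / s := by
        field_simp
        ring
      rw [e]
      exact div_pos h3 hs0
    · field_simp
      ring
  · refine ⟨y / t - h, ?_, ?_, fun hP' => absurd hP' hP⟩
    · have h1 : |y / t| ≤ 3 * h := by
        rw [abs_div, abs_of_pos ht0, div_le_iff₀ ht0]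
        nlinarith
      have h2 : |y / t - h| ≤ |y / t| + |h| := abs_sub _ _
      rw [abs_of_pos h0] at h2
      linarith
    · have e : y - (y / t - h) * t = h * t := by
        field_simp
        ring
      rw [e]
      positivity

/-- choice of the parameter between the lower bounds and the upper bound -/
private theorem el2_tau {h x1 x3 y s1 s3 t : ℝ} (h0 : 0 < h) (hy : |y| ≤ 2 * h) (ht : 2 / 3 ≤ t)
    (P1 P3 : Prop) (hx1 : P1 → |x1| ≤ 2 * h ∧ 2 / 3 ≤ s1 ∧ 0 < y * s1 + x1 * t)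
    (hx3 : P3 → |x3| ≤ 2 * h ∧ 2 / 3 ≤ s3 ∧ 0 < y * s3 + x3 * t) :
    ∃ τ : ℝ, |τ| ≤ 4 * h ∧ 0 < y - τ * t ∧ (P1 → 0 < x1 + τ * s1) ∧ (P3 → 0 < x3 + τ * s3) := by
  have ht0 : 0 < t := by linarith
  obtain ⟨L1, a1, b1, c1⟩ := el2_low h0 hy ht P1 hx1
  obtain ⟨L3, a3, b3, c3⟩ := el2_low h0 hy ht P3 hx3
  have hU : |y / t| ≤ 3 * h := by
    rw [abs_div, abs_of_pos ht0, div_le_iff₀ ht0]
    nlinarith
  have hU1 : L1 < y / t := by
    rw [lt_div_iff₀ ht0]
    linarith
  have hU3 : L3 < y / t := by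
    rw [lt_div_iff₀ ht0]
    linarith
  have hM : max L1 L3 < y / t := max_lt hU1 hU3
  have hM1 : L1 ≤ max L1 L3 := le_max_left _ _
  have hM3 : L3 ≤ max L1 L3 := le_max_right _ _
  refine ⟨(max L1 L3 + y / t) / 2, ?_, ?_, ?_, ?_⟩
  · rw [abs_le] at a1 a3 hU ⊢
    constructor
    · linarith
    · linarith
  · have h1 : (max L1 L3 + y / t) / 2 < y / t := by linarith
    rw [lt_div_iff₀ ht0] at h1
    linarith
  · intro hP
    obtain ⟨h1, h2⟩ := c1 hP
    have h3 : L1 < (max L1 L3 + y / t) / 2 := by linarith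
    have h4 := mul_lt_mul_of_pos_right h3 (by linarith : (0 : ℝ) < s1)
    linarith
  · intro hP
    obtain ⟨h1, h2⟩ := c3 hP
    have h3 : L3 < (max L1 L3 + y / t) / 2 := by linarith
    have h4 := mul_lt_mul_of_pos_right h3 (by linarith : (0 : ℝ) < s3)
    linarith

private theorem el2_lin {h p q : ℝ} {a : ℝ × ℝ} (hh : h ≤ 1 / 1000)
    (ha : |a.1| ≤ h ∧ |a.2| ≤ h) (hp : |p| ≤ 10) (hq : |q| ≤ 10) : |p * a.1 + q * a.2| ≤ 1 / 50 := by
  have h1 : |p * a.1| ≤ 10 * (1 / 1000) := by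
    rw [abs_mul]
    exact mul_le_mul hp (ha.1.trans hh) (abs_nonneg _) (by norm_num)
  have h2 : |q * a.2| ≤ 10 * (1 / 1000) := by
    rw [abs_mul]
    exact mul_le_mul hq (ha.2.trans hh) (abs_nonneg _) (by norm_num)
  calc |p * a.1 + q * a.2| ≤ |p * a.1| + |q * a.2| := abs_add_le _ _
    _ ≤ 10 * (1 / 1000) + 10 * (1 / 1000) := add_le_add h1 h2
    _ = 1 / 50 := by norm_num

private theorem el2_a3 {h : ℝ} {a : ℝ × ℝ} (ha : |a.1| ≤ h ∧ |a.2| ≤ h) : |a3 a| ≤ 2 * h := by
  unfold a3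
  rw [abs_neg]
  have := abs_add_le a.1 a.2
  linarith [ha.1, ha.2]

/-- the hub -/
private theorem el2_hub {h : ℝ} (h0 : 0 < h) (hh : h ≤ 1 / 1000) {a a' a'' : ℝ × ℝ}
    (ha : |a.1| ≤ h ∧ |a.2| ≤ h) (P1 P3 : Prop)
    (h1 : P1 → (|a'.1| ≤ h ∧ |a'.2| ≤ h) ∧ a'.1 * e2 a - a.2 * e1 a' < 8664 * (a.2 + a'.1))
    (h3 : P3 → (|a''.1| ≤ h ∧ |a''.2| ≤ h) ∧
      a3 a'' * e2 a - a.2 * e3 a'' < 8664 * (a.2 + a3 a'')) :
    ∃ u : ℝ × ℝ, (|u.1| ≤ 100 * h ∧ |u.2| ≤ 100 * h) ∧ 0 < u.1 - u3 u ∧ 0 < D2 a u ∧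
      (P1 → 0 < D1 a' u) ∧ (P3 → 0 < D3 a'' u) := by
  have hl2 : |(2574 / 8664) * a.1 + (-30888 / 8664) * a.2| ≤ 1 / 50 :=
    el2_lin hh ha (by norm_num [abs_le]) (by norm_num [abs_le])
  rw [abs_le] at hl2
  obtain ⟨τ, hτ, hτ2, hτ1, hτ3⟩ := el2_tau (h := h) (x1 := a'.1) (x3 := a3 a'') (y := a.2)
    (s1 := 1 + e1 a' / 8664) (s3 := 1 + e3 a'' / 8664) (t := 1 - e2 a / 8664) h0
    (ha.2.trans (by linarith)) (by unfold e2; linarith) P1 P3
    (fun hP => by
      obtain ⟨k1, k2⟩ := h1 hP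
      have hl1 : |(1805 / 8664) * a'.1 + (-21660 / 8664) * a'.2| ≤ 1 / 50 :=
        el2_lin hh k1 (by norm_num [abs_le]) (by norm_num [abs_le])
      rw [abs_le] at hl1
      exact ⟨k1.1.trans (by linarith), by unfold e1; linarith, by linarith⟩)
    (fun hP => by
      obtain ⟨k1, k2⟩ := h3 hP
      have hl3 : |(-495 / 8664) * a''.1 + (5940 / 8664) * a''.2| ≤ 1 / 50 :=
        el2_lin hh k1 (by norm_num [abs_le]) (by norm_num [abs_le])
      rw [abs_le] at hl3
      exact ⟨el2_a3 k1, by unfold e3; linarith, by linarith⟩)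
  classical
  obtain ⟨ρ, hρ, hρh, r2, r1, r3⟩ := el2_small (h := h) h0 hτ2
    (A2 := if P1 then a'.1 + τ * (1 + e1 a' / 8664) else 1)
    (A3 := if P3 then a3 a'' + τ * (1 + e3 a'' / 8664) else 1)
    (by split_ifs with hP; exacts [hτ1 hP, one_pos]) (by split_ifs with hP; exacts [hτ3 hP, one_pos])
    (13 * (1287 / 361) * a.2) (-13 * (1 - 5 / 2 * a'.2)) (-(12 + 13 * (495 / 722) * a''.2))
  refine ⟨(-τ + 13 * ρ, τ), ⟨?_, ?_⟩, ?_, ?_, ?_, ?_⟩
  · show |-τ + 13 * ρ| ≤ 100 * h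
    rw [abs_le] at hτ ⊢
    constructor
    · linarith
    · linarith
  · show |τ| ≤ 100 * h
    linarith
  · show 0 < -τ + 13 * ρ - (12 * (-τ + 13 * ρ) - τ) / 13
    linarith
  · unfold D2
    unfold e2 at r2
    show 0 < a.2 - τ + 429 / 1444 * a.1 * τ + 1287 / 361 * a.2 * (-τ + 13 * ρ)
    linarith
  · intro hP
    rw [if_pos hP] at r1
    unfold D1
    unfold e1 at r1
    show 0 < a'.1 - (-τ + 13 * ρ) + 5 / 24 * a'.1 * τ + 5 / 2 * a'.2 * (-τ + 13 * ρ)
    linarith
  · intro hP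
    rw [if_pos hP] at r3
    unfold D3 u3
    unfold e3 at r3
    show 0 < a3 a'' - (12 * (-τ + 13 * ρ) - τ) / 13 - 165 / 2888 * a''.1 * τ -
      495 / 722 * a''.2 * (-τ + 13 * ρ)
    linarith

/-- the cup -/
private theorem el2_cup {h : ℝ} (h0 : 0 < h) (hh : h ≤ 1 / 1000) {a' a'' : ℝ × ℝ}
    (h1 : |a'.1| ≤ h ∧ |a'.2| ≤ h) (h3 : |a''.1| ≤ h ∧ |a''.2| ≤ h)
    (hc : a3 a'' * f1 a' - a'.1 * f3 a'' < 8664 * (a'.1 + a3 a'')) :
    ∃ u : ℝ × ℝ, (|u.1| ≤ 100 * h ∧ |u.2| ≤ 100 * h) ∧ 0 < u.1 + u3 u ∧ 0 < D1 a' u ∧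
      0 < D3 a'' u := by
  have hm1 : |(45125 / 8664) * a'.1 + (21660 / 8664) * a'.2| ≤ 1 / 50 :=
    el2_lin hh h1 (by norm_num [abs_le]) (by norm_num [abs_le])
  have hm3 : |(-12375 / 8664) * a''.1 + (-5940 / 8664) * a''.2| ≤ 1 / 50 :=
    el2_lin hh h3 (by norm_num [abs_le]) (by norm_num [abs_le])
  rw [abs_le] at hm1 hm3
  have k3 := el2_a3 h3
  obtain ⟨s, hs⟩ : ∃ s, s = 1 + f3 a'' / 8664 := ⟨_, rfl⟩
  obtain ⟨t, ht⟩ : ∃ t, t = 1 - f1 a' / 8664 := ⟨_, rfl⟩
  have hs1 : 2 / 3 ≤ s := by rw [hs]; unfold f3; linarith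
  have ht1 : 2 / 3 ≤ t := by rw [ht]; unfold f1; linarith
  have hs0 : 0 < s := by linarith
  have ht0 : 0 < t := by linarith
  have hst : 0 < a'.1 * s + a3 a'' * t := by rw [hs, ht]; linarith
  have hL : |-(a3 a'') / s| ≤ 3 * h := by
    rw [abs_div, abs_neg, abs_of_pos hs0, div_le_iff₀ hs0]
    nlinarith
  have hU : |a'.1 / t| ≤ 3 * h := by
    rw [abs_div, abs_of_pos ht0, div_le_iff₀ ht0]
    nlinarith [h1.1]
  have hLU : -(a3 a'') / s < a'.1 / t := by
    rw [div_lt_div_iff₀ hs0 ht0]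
    linarith
  obtain ⟨w, hw⟩ : ∃ w, w = (-(a3 a'') / s + a'.1 / t) / 2 := ⟨_, rfl⟩
  have hw1 : -(a3 a'') / s < w := by rw [hw]; linarith
  have hw2 : w < a'.1 / t := by rw [hw]; linarith
  have hw3 : |w| ≤ 3 * h := by
    rw [abs_le] at hL hU ⊢
    constructor
    · linarith
    · linarith
  rw [div_lt_iff₀ hs0] at hw1
  rw [lt_div_iff₀ ht0] at hw2
  have p1 : 0 < a'.1 - w * t := by linarith
  have p3 : 0 < a3 a'' + w * s := by linarith
  obtain ⟨ρ, hρ, hρh, r1, r3, -⟩ := el2_small (h := h) h0 p1 p3 one_pos (-(65 / 24) * a'.1)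
    (-(1 - 2145 / 2888 * a''.1)) 0
  refine ⟨(w, 25 * w - 13 * ρ), ⟨?_, ?_⟩, ?_, ?_, ?_⟩
  · show |w| ≤ 100 * h
    linarith
  · show |25 * w - 13 * ρ| ≤ 100 * h
    rw [abs_le] at hw3 ⊢
    constructor
    · linarith
    · linarith
  · show 0 < w + (12 * w - (25 * w - 13 * ρ)) / 13
    linarith
  · unfold D1
    rw [ht] at r1
    unfold f1 at r1
    show 0 < a'.1 - w + 5 / 24 * a'.1 * (25 * w - 13 * ρ) + 5 / 2 * a'.2 * w
    linarith
  · unfold D3 u3
    rw [hs] at r3
    unfold f3 at r3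
    show 0 < a3 a'' - (12 * w - (25 * w - 13 * ρ)) / 13 - 165 / 2888 * a''.1 * (25 * w - 13 * ρ) -
      495 / 722 * a''.2 * w
    linarith

/-- pins at the ports 1 and 3 -/
private theorem el2_pin13 {h : ℝ} (h0 : 0 < h) {a' a'' : ℝ × ℝ} (P1 P3 : Prop)
    (h1 : P1 → 0 < a'.1) (h3 : P3 → 0 < a3 a'') :
    ∃ u : ℝ × ℝ, (|u.1| ≤ 100 * h ∧ |u.2| ≤ 100 * h) ∧ (0 < u.1 - u3 u ∧ 0 < 2 * u3 u - u.1) ∧
      (P1 → 0 < D1 a' u) ∧ (P3 → 0 < D3 a'' u) := by
  classical
  obtain ⟨ρ, hρ, hρh, r1, r3, -⟩ := el2_small (h := h) h0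
    (A1 := if P1 then a'.1 else 1) (A2 := if P3 then a3 a'' else 1)
    (by split_ifs with hP; exacts [h1 hP, one_pos]) (by split_ifs with hP; exacts [h3 hP, one_pos])
    one_pos (-3 + 5 / 24 * a'.1 * 10 + 5 / 2 * a'.2 * 3)
    (-2 - 165 / 2888 * a''.1 * 10 - 495 / 722 * a''.2 * 3) 0
  refine ⟨(3 * ρ, 10 * ρ), ⟨?_, ?_⟩, ⟨?_, ?_⟩, ?_, ?_⟩
  · show |3 * ρ| ≤ 100 * h
    rw [abs_of_pos (by positivity)]
    linarith
  · show |10 * ρ| ≤ 100 * h
    rw [abs_of_pos (by positivity)]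
    linarith
  · show 0 < 3 * ρ - (12 * (3 * ρ) - 10 * ρ) / 13
    linarith
  · show 0 < 2 * ((12 * (3 * ρ) - 10 * ρ) / 13) - 3 * ρ
    linarith
  · intro hP
    rw [if_pos hP] at r1
    show 0 < a'.1 - 3 * ρ + 5 / 24 * a'.1 * (10 * ρ) + 5 / 2 * a'.2 * (3 * ρ)
    linarith
  · intro hP
    rw [if_pos hP] at r3
    show 0 < a3 a'' - (12 * (3 * ρ) - 10 * ρ) / 13 - 165 / 2888 * a''.1 * (10 * ρ) -
      495 / 722 * a''.2 * (3 * ρ)
    linarith

/-- pin at the port 2 -/
private theorem el2_pin2 {h : ℝ} (h0 : 0 < h) {a : ℝ × ℝ} (h2 : 0 < a.2) :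
    ∃ u : ℝ × ℝ, (|u.1| ≤ 100 * h ∧ |u.2| ≤ 100 * h) ∧ (0 < u.1 - u3 u ∧ u.1 < 0) ∧
      0 < D2 a u := by
  obtain ⟨ρ, hρ, hρh, r2, -, -⟩ := el2_small (h := h) h0 h2 one_pos one_pos
    (-14 + 429 / 1444 * a.1 * 14 - 1287 / 361 * a.2) 0 0
  refine ⟨(-ρ, 14 * ρ), ⟨?_, ?_⟩, ⟨?_, ?_⟩, ?_⟩
  · show |-ρ| ≤ 100 * h
    rw [abs_neg, abs_of_pos hρ]
    linarith
  · show |14 * ρ| ≤ 100 * h
    rw [abs_of_pos (by positivity)]
    linarith
  · show 0 < -ρ - (12 * (-ρ) - 14 * ρ) / 13
    linarith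
  · show -ρ < 0
    linarith
  · show 0 < a.2 - 14 * ρ + 429 / 1444 * a.1 * (14 * ρ) + 1287 / 361 * a.2 * (-ρ)
    linarith

private theorem el2_room {N : Net} {h : ℝ} {a : ℤ → ℤ → ℝ × ℝ} (h0 : 0 < h) (hh : h ≤ 1 / 1000)
    (hr : N.Red a) (ha : ∀ x y, N.act x y = true → |(a x y).1| ≤ h ∧ |(a x y).2| ≤ h) (x y : ℤ) :
    ∃ u : ℝ × ℝ, (N.bt x y ≠ .free → |u.1| ≤ 100 * h ∧ |u.2| ≤ 100 * h) ∧ Tight (N.bt x y) u ∧
      (N.act x y = true → 0 < D1 (a x y) u) ∧ (N.act (x + 1) y = true → 0 < D2 (a (x + 1) y) u) ∧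
      (N.act (x + 1) (y + 1) = true → 0 < D3 (a (x + 1) (y + 1)) u) := by
  by_cases h2 : N.act (x + 1) y = true
  · by_cases h13 : N.act x y = true ∨ N.act (x + 1) (y + 1) = true
    · have hbt : N.bt x y = .hub := by
        unfold Net.bt
        rw [if_pos h2, if_pos (by rw [Bool.or_eq_true]; exact h13)]
      obtain ⟨u, hu, ht, hd2, hd1, hd3⟩ := el2_hub h0 hh (a' := a x y) (a'' := a (x + 1) (y + 1))
        (ha _ _ h2) (N.act x y = true) (N.act (x + 1) (y + 1) = true)
        (fun hP => ⟨ha _ _ hP, by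
          have := hr (.h1 x y) (by simp [Con.In, hP, h2])
          exact this⟩)
        (fun hP => ⟨ha _ _ hP, by
          have h5 : a3 (a (x + 1) (y + 1)) * e2 (a (x + 1) (y + 1 - 1)) -
              (a (x + 1) (y + 1 - 1)).2 * e3 (a (x + 1) (y + 1)) <
              8664 * ((a (x + 1) (y + 1 - 1)).2 + a3 (a (x + 1) (y + 1))) :=
            hr (.h3 (x + 1) (y + 1)) (by simp [Con.In, hP, h2])
          rw [add_sub_cancel_right] at h5
          exact h5⟩)
      refine ⟨u, fun _ => hu, ?_, hd1, fun _ => hd2, hd3⟩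
      rw [hbt]
      exact ht
    · push Not at h13
      have hbt : N.bt x y = .pin2 := by
        unfold Net.bt
        rw [if_pos h2, if_neg (by rw [Bool.or_eq_true]; tauto)]
      obtain ⟨u, hu, ht, hd2⟩ := el2_pin2 (a := a (x + 1) y) h0 (by
        have := hr (.p2 (x + 1) y) (by simp [Con.In, h2, h13.1, h13.2])
        unfold Con.Holds Con.Q Con.slack at this
        linarith)
      refine ⟨u, fun _ => hu, ?_, fun h => absurd h h13.1, fun _ => hd2, fun h => absurd h h13.2⟩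
      rw [hbt]
      exact ht
  · by_cases hc : (N.act x y = true ∧ N.act (x + 1) (y + 1) = true) ∧ N.cup x y = true
    · have hbt : N.bt x y = .cup := by
        unfold Net.bt
        rw [if_neg h2, if_pos (by rw [Bool.and_eq_true, Bool.and_eq_true]; exact hc)]
      obtain ⟨u, hu, ht, hd1, hd3⟩ := el2_cup h0 hh (ha _ _ hc.1.1) (ha _ _ hc.1.2) (by
        have := hr (.cp x y) (by simp [Con.In, h2, hc.1.1, hc.1.2, hc.2])
        exact this)
      refine ⟨u, fun _ => hu, ?_, fun _ => hd1, fun h => absurd h h2, fun _ => hd3⟩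
      rw [hbt]
      exact ht
    · by_cases h13 : N.act x y = true ∨ N.act (x + 1) (y + 1) = true
      · have hbt : N.bt x y = .pin13 := by
          unfold Net.bt
          rw [if_neg h2, if_neg (by rw [Bool.and_eq_true, Bool.and_eq_true]; exact hc),
            if_pos (by rw [Bool.or_eq_true]; exact h13)]
        obtain ⟨u, hu, ht, hd1, hd3⟩ := el2_pin13 h0 (a' := a x y) (a'' := a (x + 1) (y + 1))
          (N.act x y = true) (N.act (x + 1) (y + 1) = true)
          (fun hP => by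
            have := hr (.p1 x y) (by
              simp only [Con.In, hP, h2, Bool.true_and]
              by_contra hne
              apply hc
              simp at hne
              exact ⟨⟨hP, hne.2⟩, hne.1⟩)
            unfold Con.Holds Con.Q Con.slack at this
            linarith)
          (fun hP => by
            have := hr (.p3 (x + 1) (y + 1)) (by
              simp only [Con.In, hP, add_sub_cancel_right, h2, Bool.true_and]
              by_contra hne
              apply hc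
              simp at hne
              exact ⟨⟨hne.2, hP⟩, hne.1⟩)
            unfold Con.Holds Con.Q Con.slack at this
            linarith)
        refine ⟨u, fun _ => hu, ?_, hd1, fun h => absurd h h2, hd3⟩
        rw [hbt]
        exact ht
      · have hbt : N.bt x y = .free := by
          unfold Net.bt
          rw [if_neg h2, if_neg (by rw [Bool.and_eq_true, Bool.and_eq_true]; exact hc),
            if_neg (by rw [Bool.or_eq_true]; exact h13)]
        push Not at h13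
        refine ⟨0, fun h => absurd hbt h, ?_, fun h => absurd h h13.1, fun h => absurd h h2,
          fun h => absurd h h13.2⟩
        rw [hbt]
        trivial

/-- A small solution of the reduced system extends to a solution of the full system.

Proof. The rooms `B` are independent of each other. (Formulas and notation as in `Elim1.lean`.)
* Hub: with `ρ → 0` the conditions are `a₂ - τ (1 - ℓ₂) > 0` and `a'_k + τ (1 + ℓ_k) > 0` for the active ports `k ∈ {1, 3}`, i.e.
`-a'_k / (1 + ℓ_k) < τ < a₂ / (1 - ℓ₂)`; the reduced constraints say exactly that this is possible; take `τ` strictly in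
between and `ρ > 0` small, `u = (-τ + 13 ρ, τ)`; `|τ| ≤ 3 h`.
* Cup: `-a'₃ / (1 + m₃) < t < a₁ / (1 - m₁)`, `u = (t, 25 t - 13 ρ)`.
* `pin13`: `u = (3 ρ, 10 ρ)` (so `u3 u = 2 ρ`), `ρ > 0` small. * `pin2`: `u = (-ρ, 14 ρ)` (so `u3 u = -2 ρ`). * `free`: `u = 0`. -/
theorem sol_of_red {N : Net} {h : ℝ} {a : ℤ → ℤ → ℝ × ℝ} (h0 : 0 < h) (hh : h ≤ 1 / 1000) (hr : N.Red a)
    (ha : ∀ x y, N.act x y = true → |(a x y).1| ≤ h ∧ |(a x y).2| ≤ h) : ∃ b, N.Sol (100 * h) a b := by
  choose b hb1 hb2 hb3 hb4 hb5 using el2_room h0 hh hr ha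
  refine ⟨b, ?_, hb1, hb2, hb3, ?_, ?_⟩
  · intro x y hxy
    have := ha x y hxy
    constructor
    · linarith [this.1]
    · linarith [this.2]
  · intro x y hxy
    have := hb4 (x - 1) y
    rw [sub_add_cancel] at this
    exact this hxy
  · intro x y hxy
    have := hb5 (x - 1) (y - 1)
    rw [sub_add_cancel, sub_add_cancel] at this
    exact this hxy

end Pool.Agent.Lib.MP_6ff0c5_lc.N
end

section

/-!
MP_6ff0c5_lc, part B, completeness: states of the chain and of the comparator.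
-/

set_option autoImplicit false

namespace Pool.Agent.Lib.MP_6ff0c5_lc.N

open Filter Topology

/-- the output of a block of the chain with parameter `t` (the room `(10, 17)` has the value `(e / 43, e)`) -/
noncomputable def eOf (t : ℝ) : ℝ := 1408250 / 745104 * t ^ 4

/-- the state of the first block -/
noncomputable def stF (t : ℝ) : ℤ → ℤ → ℝ × ℝ :=
  fun x y => t ^ 2 • castSt tzF x y + (t ^ 4 / 745104) • castSt twF x y

/-- the state of the other blocks, `e` is the output of the block below -/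
noncomputable def stE (e t : ℝ) : ℤ → ℤ → ℝ × ℝ :=
  fun x y => (e / 400) • castSt tfE x y + t ^ 2 • castSt tzF x y + (t ^ 4 / 745104) • castSt twF x y

/-- the state of the comparator -/
noncomputable def stU (e : ℝ) : ℤ → ℤ → ℝ × ℝ := fun x y => (e / 400) • castSt tfU x y

private theorem cs_all {l : List Con} {P : Con → ℝ → Prop} {F : Filter ℝ}
    (h : ∀ c ∈ l, ∀ᶠ t in F, P c t) : ∀ᶠ t in F, ∀ c ∈ l, P c t := by
  induction l with
  | nil => simp
  | cons a l ih =>
    have h1 := h a List.mem_cons_self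
    have h2 := ih (fun c hc => h c (List.mem_cons_of_mem _ hc))
    filter_upwards [h1, h2] with t k1 k2 c hc
    rcases List.mem_cons.1 hc with rfl | hc
    · exact k1
    · exact k2 c hc

private theorem cs_zero (c : Con) : c.slack (fun _ _ => (0 : ℝ × ℝ)) = 0 := by
  rcases c with ⟨x, y⟩ | ⟨x, y⟩ | ⟨x, y⟩ | ⟨x, y⟩ | ⟨x, y⟩ | ⟨x, y⟩ <;> simp [Con.slack, a3]

private theorem cs_good {c : Con} (hc : c ∈ cF) (F : ℤ → ℤ → ℝ × ℝ)
    (h0 : ∀ r ∈ c.rooms, F r.1 r.2 = 0) :
    Good F (castSt tzF) (fun _ _ => 0) (fun x y => (1 / 745104 : ℝ) • castSt twF x y) c := by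
  have h1 : c.slack tzF = 0 := by simpa using List.all_eq_true.1 tzF_slack c hc
  have h2 : c.slack twF = 86 * c.Q tzF + 32750 := by simpa using List.all_eq_true.1 twF_slack c hc
  refine Good.o4 h0 ?_ (cs_zero c) ?_
  · rw [slack_cast, h1]
    simp
  · rw [slack_smul, Q_cast, slack_cast, h2]
    push_cast
    linarith

private theorem cs_comb (F : ℤ → ℤ → ℝ × ℝ) (t : ℝ) :
    comb F (castSt tzF) (fun _ _ => 0) (fun x y => (1 / 745104 : ℝ) • castSt twF x y) t =
      fun x y => F x y + t ^ 2 • castSt tzF x y + (t ^ 4 / 745104) • castSt twF x y := by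
  funext x y
  unfold comb
  rw [smul_zero, add_zero, smul_smul]
  congr 2
  ring

private theorem cs_frozen {l : List (ℤ × ℤ × ℤ × ℤ)}
    (bd : (l.all fun e => decide (|e.2.2.1| ≤ 199 ∧ |e.2.2.2| ≤ 199)) = true) {c : Con}
    (hc : 1 ≤ c.slack (look4 l)) {e : ℝ} (he : 0 < e) (he' : e ≤ 1 / 10 ^ 6) :
    c.Holds (fun x y => (e / 400) • castSt (look4 l) x y) := by
  unfold Con.Holds
  rw [Q_smul, slack_smul]
  have h1 : (1 : ℝ) ≤ c.slack (castSt (look4 l)) := by
    rw [slack_cast]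
    exact_mod_cast hc
  have h2 := Q_bound (a := castSt (look4 l)) (M := 199) (by norm_num) (c := c) (fun r _ => by
    have := castSt_le (m := 199) (by norm_num) bd r.1 r.2
    simpa using this)
  have h3 := (abs_le.1 h2).2
  have hp : 0 < e / 400 := by positivity
  have h4 : (e / 400) * (151885 * 199 ^ 2) < 8664 := by
    have h5 : e / 400 ≤ 1 / (400 * 10 ^ 6) := by linarith
    calc (e / 400) * (151885 * 199 ^ 2) ≤ 1 / (400 * 10 ^ 6) * (151885 * 199 ^ 2) := by gcongr
      _ < 8664 := by norm_num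
  calc (e / 400) ^ 2 * c.Q (castSt (look4 l)) ≤ (e / 400) ^ 2 * (151885 * 199 ^ 2) := by gcongr
    _ = (e / 400) * ((e / 400) * (151885 * 199 ^ 2)) := by ring
    _ < (e / 400) * 8664 := by gcongr
    _ = 8664 * (e / 400 * 1) := by ring
    _ ≤ 8664 * (e / 400 * c.slack (castSt (look4 l))) := by gcongr

theorem stF_out (t : ℝ) : stF t 10 17 = (eOf t / 43, eOf t) := by
  obtain ⟨-, h1, h2⟩ := tzF_val
  obtain ⟨h3, h4⟩ := twF_val
  unfold stF castSt eOf
  rw [h1, h2, h3, h4]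
  ext
  · simp only [Prod.fst_add, Prod.smul_fst, smul_eq_mul]
    push_cast
    ring
  · simp only [Prod.snd_add, Prod.smul_snd, smul_eq_mul]
    push_cast
    ring

theorem stE_out (e t : ℝ) : stE e t 10 17 = (eOf t / 43, eOf t) := by
  obtain ⟨-, h1, h2⟩ := tfE_val
  have h := stF_out t
  have h3 : stE e t 10 17 = (e / 400) • castSt tfE 10 17 + stF t 10 17 := by
    unfold stE stF
    rw [add_assoc]
  have h4 : castSt tfE 10 17 = 0 := by
    unfold castSt
    rw [h1, h2]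
    simp
  rw [h3, h4, h, smul_zero, zero_add]

theorem eOf_pos {t : ℝ} (ht : 0 < t) : 0 < eOf t := by
  unfold eOf
  positivity

/-- `Good` of type `o4` with `F = 0`, `A2 = tzF`, `A3 = 0`, `A4 = twF / 745104` (`745104 = 86 * 8664`, `tzF_slack`, `twF_slack`). -/
theorem F_ev : ∀ᶠ t in 𝓝[>] (0 : ℝ), ∀ c ∈ cF, c.Holds (stF t) := by
  apply cs_all
  intro c hc
  filter_upwards [good_ev (cs_good hc (fun _ _ => 0) (fun _ _ => rfl))] with t ht
  rw [cs_comb] at ht
  have h : stF t = fun x y => (0 : ℝ × ℝ) + t ^ 2 • castSt tzF x y +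
      (t ^ 4 / 745104) • castSt twF x y := by
    funext x y
    unfold stF
    rw [zero_add]
  rw [h]
  exact ht

/-- `c ∈ rE0`: as before (`tfE_zero`, `rE0_sub`). Otherwise `1 ≤ c.slack tfE` (`tfE_slack`), `|c.Q tfE| ≤ 151885 * 199²`
(`Q_bound`, `tfE_bd`), so the constraint holds for the state `(e / 400) tfE`: type `o0`. -/
theorem E_ev {e : ℝ} (he : 0 < e) (he' : e ≤ 1 / 10 ^ 6) : ∀ᶠ t in 𝓝[>] (0 : ℝ), ∀ c ∈ cE, c.Holds (stE e t) := by
  apply cs_all
  intro c hc
  have h1 : c ∈ rE0 ∨ 1 ≤ c.slack tfE := by simpa using List.all_eq_true.1 tfE_slack c hc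
  have hg : Good (fun x y => (e / 400) • castSt tfE x y) (castSt tzF) (fun _ _ => 0)
      (fun x y => (1 / 745104 : ℝ) • castSt twF x y) c := by
    rcases h1 with h1 | h1
    · have h2 : c ∈ cF := by simpa using List.all_eq_true.1 rE0_sub c h1
      apply cs_good h2
      intro r hr
      have h3 := of_decide_eq_true (List.all_eq_true.1 tfE_zero c h1)
      have h4 := h3 r hr
      show (e / 400) • castSt tfE r.1 r.2 = 0
      unfold castSt
      rw [h4]
      simp
    · exact Good.o0 (cs_frozen tfE_bd h1 he he')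
  filter_upwards [good_ev hg] with t ht
  rw [cs_comb] at ht
  exact ht

private theorem cs_wire {e : ℝ} (he : 0 < e) (he' : e ≤ 1 / 10 ^ 6) {v : ℤ → ℤ → ℝ × ℝ} {x : ℤ}
    (h1 : v x (-1) = (e / 43, e)) (h2 : v x 0 = (e / 400, 199 * (e / 400))) :
    (Con.h3 x 0).Holds v := by
  unfold Con.Holds Con.Q Con.slack
  have e0 : (0 : ℤ) - 1 = -1 := by norm_num
  simp only [e0, h1, h2, a3, e2, e3]
  nlinarith [mul_pos he he]

private theorem cs_tfE : tfE 10 0 = (1, 199) := by decide +kernel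
private theorem cs_tzF : tzF 10 0 = (0, 0) := by decide +kernel
private theorem cs_twF : twF 10 0 = (0, 0) := by decide +kernel
private theorem cs_tfU : tfU 19 0 = (1, 199) := by decide +kernel

/-- the wire from the block below: slack `e / 2` -/
theorem E_wire {e t : ℝ} (he : 0 < e) (he' : e ≤ 1 / 10 ^ 6) {v : ℤ → ℤ → ℝ × ℝ} (h1 : v 10 (-1) = (e / 43, e))
    (h2 : v 10 0 = stE e t 10 0) : (Con.h3 10 0).Holds v := by
  apply cs_wire he he' h1
  rw [h2]
  unfold stE castSt
  rw [cs_tfE, cs_tzF, cs_twF]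
  ext
  · simp
  · simp only [Prod.snd_add, Prod.smul_snd, smul_eq_mul]
    push_cast
    ring

theorem U_holds {e : ℝ} (he : 0 < e) (he' : e ≤ 1 / 10 ^ 6) {c : Con} (hc : c ∈ cUr) : c.Holds (stU e) := by
  have h1 : 1 ≤ c.slack tfU := by simpa using List.all_eq_true.1 tfU_slack c hc
  exact cs_frozen tfU_bd h1 he he'

theorem U_wire {e : ℝ} (he : 0 < e) (he' : e ≤ 1 / 10 ^ 6) {v : ℤ → ℤ → ℝ × ℝ} (h1 : v 19 (-1) = (e / 43, e))
    (h2 : v 19 0 = stU e 19 0) : (Con.h3 19 0).Holds v := by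
  apply cs_wire he he' h1
  rw [h2]
  unfold stU castSt
  rw [cs_tfU]
  ext
  · simp
  · simp only [Prod.smul_snd, smul_eq_mul]
    push_cast
    ring

/-- **U-block**: the comparator is frozen, the source of the unit has the slack `1` in third order. -/
theorem U_good {e : ℝ} (he : 0 < e) (he' : e ≤ 1 / 10 ^ 6) (A4 : ℤ → ℤ → ℝ × ℝ) {c : Con} (hc : c ∈ cU) :
    Good (stU e) (castSt tzU) (castSt tdU) A4 c := by
  have h1 : c ∈ cUu ∨ c ∈ cUr := by simpa using List.all_eq_true.1 cU_split c hc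
  rcases h1 with h1 | h1
  · refine Good.o3 ?_ ?_ ?_
    · intro r hr
      have h3 := of_decide_eq_true (List.all_eq_true.1 tfU_zero c h1)
      have h4 := h3 r hr
      show (e / 400) • castSt tfU r.1 r.2 = 0
      unfold castSt
      rw [h4]
      simp
    · have h2 : c.slack tzU = 0 := by simpa using List.all_eq_true.1 tzU_slack c h1
      rw [slack_cast, h2]
      simp
    · have h2 : c.slack tdU = 1 := by simpa using List.all_eq_true.1 tdU_slack c h1
      rw [slack_cast, h2]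
      simp
  · exact Good.o0 (U_holds he he' h1)

/-- the states of the chain with `K` blocks -/
noncomputable def chSt (K : ℕ) (t : ℕ → ℝ) (k : ℕ) : ℤ → ℤ → ℝ × ℝ := if k < K then stE (eOf (t (k + 1))) (t k) else stF (t k)

private theorem cs_abs3 {a b c A B C x y z : ℝ} (ha : |a| ≤ A) (hb : |b| ≤ B) (hc : |c| ≤ C)
    (hx : 0 ≤ x) (hy : 0 ≤ y) (hz : 0 ≤ z) : |x * a + y * b + z * c| ≤ x * A + y * B + z * C := by
  calc |x * a + y * b + z * c| ≤ |x * a + y * b| + |z * c| := abs_add_le _ _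
    _ ≤ |x * a| + |y * b| + |z * c| := by
        have := abs_add_le (x * a) (y * b)
        linarith
    _ = x * |a| + y * |b| + z * |c| := by
        rw [abs_mul, abs_mul, abs_mul, abs_of_nonneg hx, abs_of_nonneg hy, abs_of_nonneg hz]
    _ ≤ _ := by gcongr

private theorem cs_size {e t τ : ℝ} (he : 0 ≤ e) (he' : e ≤ 2 * τ ^ 4) (ht : 0 < t) (ht' : t ≤ τ)
    (hτ : τ ≤ 1 / 1000) (x y : ℤ) :
    |(stE e t x y).1| ≤ τ ∧ |(stE e t x y).2| ≤ τ := by
  have a1 := castSt_le (m := 199) (by norm_num) tfE_bd x y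
  have a2 := castSt_le (m := 1) (by norm_num) tzF_bd x y
  have a3 := castSt_le (m := 5234448) (by norm_num) twF_bd x y
  push_cast at a1 a2 a3
  have hτ0 : 0 < τ := by linarith
  have b1 : t ^ 2 ≤ τ ^ 2 := by gcongr
  have b2 : t ^ 4 ≤ τ ^ 4 := by gcongr
  have b3 : τ ^ 2 ≤ 1 / 1000 * τ := by nlinarith
  have b4 : τ ^ 4 ≤ 1 / 1000 * τ := by
    calc τ ^ 4 = τ ^ 2 * τ ^ 2 := by ring
      _ ≤ (1 / 1000 * τ) * (1 / 1000 * τ) := by gcongr
      _ = (1 / 1000000) * τ ^ 2 := by ring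
      _ ≤ (1 / 1000000) * (1 / 1000 * τ) := by gcongr
      _ ≤ 1 / 1000 * τ := by nlinarith
  have hb : e / 400 * 199 + t ^ 2 * 1 + t ^ 4 / 745104 * 5234448 ≤ τ := by
    have c1 : e / 400 * 199 ≤ τ ^ 4 := by nlinarith [pow_pos hτ0 4]
    have c2 : t ^ 4 / 745104 * 5234448 ≤ 8 * τ ^ 4 := by nlinarith [pow_pos hτ0 4]
    nlinarith
  constructor
  · have h := cs_abs3 a1.1 a2.1 a3.1 (by positivity : 0 ≤ e / 400) (by positivity : 0 ≤ t ^ 2)
      (by positivity : 0 ≤ t ^ 4 / 745104)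
    exact h.trans hb
  · have h := cs_abs3 a1.2 a2.2 a3.2 (by positivity : 0 ≤ e / 400) (by positivity : 0 ≤ t ^ 2)
      (by positivity : 0 ≤ t ^ 4 / 745104)
    exact h.trans hb

/-- **Parameters of the chain**, chosen for `k = K, K - 1, …, 1`. -/
theorem chain_exists {K : ℕ} (hK : 1 ≤ K) {h : ℝ} (hh : 0 < h) : ∃ t : ℕ → ℝ, (∀ k, 0 < t k) ∧ (∀ k, eOf (t k) ≤ 1 / 10 ^ 6) ∧
    (∀ c ∈ cF, c.Holds (stF (t K))) ∧ (∀ k, 1 ≤ k → k < K → ∀ c ∈ cE, c.Holds (stE (eOf (t (k + 1))) (t k))) ∧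
    (∀ k, 1 ≤ k → ∀ x y, |(chSt K t k x y).1| ≤ h ∧ |(chSt K t k x y).2| ≤ h) ∧
    ∀ x y, |(stU (eOf (t 1)) x y).1| ≤ h ∧ |(stU (eOf (t 1)) x y).2| ≤ h := by
  obtain ⟨τ, hτ0, hτ1, hτh⟩ : ∃ τ : ℝ, 0 < τ ∧ τ ≤ 1 / 1000 ∧ τ ≤ h :=
    ⟨min (1 / 1000) h, lt_min (by norm_num) hh, min_le_left _ _, min_le_right _ _⟩
  have hmem : ∀ᶠ u in 𝓝[>] (0 : ℝ), 0 < u ∧ u ≤ τ := by
    filter_upwards [Ioc_mem_nhdsGT hτ0] with u hu
    exact ⟨hu.1, hu.2⟩
  have he4 : ∀ u : ℝ, 0 < u → u ≤ τ → eOf u ≤ 2 * τ ^ 4 := by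
    intro u hu hu'
    unfold eOf
    have h1 : u ^ 4 ≤ τ ^ 4 := by gcongr
    have h2 : 0 < τ ^ 4 := by positivity
    nlinarith
  have he6 : ∀ u : ℝ, 0 < u → u ≤ τ → eOf u ≤ 1 / 10 ^ 6 := by
    intro u hu hu'
    refine (he4 u hu hu').trans ?_
    calc 2 * τ ^ 4 ≤ 2 * (1 / 1000) ^ 4 := by gcongr
      _ ≤ 1 / 10 ^ 6 := by norm_num
  obtain ⟨s0, hs0, hs0'⟩ := (F_ev.and hmem).exists
  have hstep : ∀ u : {u : ℝ // 0 < u ∧ u ≤ τ}, ∃ u' : {u : ℝ // 0 < u ∧ u ≤ τ},
      ∀ c ∈ cE, c.Holds (stE (eOf u.1) u'.1) := by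
    intro u
    obtain ⟨u', h1, h2⟩ :=
      ((E_ev (eOf_pos u.2.1) (he6 u.1 u.2.1 u.2.2)).and hmem).exists
    exact ⟨⟨u', h2⟩, h1⟩
  choose f hf using hstep
  set s : ℕ → {u : ℝ // 0 < u ∧ u ≤ τ} := fun n => f^[n] ⟨s0, hs0'⟩ with hs
  have hsucc : ∀ n, s (n + 1) = f (s n) := by
    intro n
    simp only [hs]
    rw [Function.iterate_succ_apply']
  have hz : ∀ (k : ℕ) (x y : ℤ), |(stF (s k).1 x y).1| ≤ τ ∧ |(stF (s k).1 x y).2| ≤ τ := by
    intro k x y
    have h1 := cs_size (e := 0) le_rfl (by positivity) (s k).2.1 (s k).2.2 hτ1 x y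
    have h2 : stE 0 (s k).1 x y = stF (s k).1 x y := by
      unfold stE stF
      rw [zero_div, zero_smul, zero_add]
    rw [h2] at h1
    exact h1
  refine ⟨fun k => (s (K - k)).1, fun k => (s (K - k)).2.1,
    fun k => he6 _ (s (K - k)).2.1 (s (K - k)).2.2, ?_, ?_, ?_, ?_⟩
  · intro c hc
    have h1 : (s (K - K)).1 = s0 := by
      simp only [hs, Nat.sub_self, Function.iterate_zero, id_eq]
    show c.Holds (stF (s (K - K)).1)
    rw [h1]
    exact hs0 c hc
  · intro k _ hk2 c hc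
    have h1 : K - k = (K - (k + 1)) + 1 := by omega
    show c.Holds (stE (eOf (s (K - (k + 1))).1) (s (K - k)).1)
    rw [h1, hsucc]
    exact hf _ c hc
  · intro k _ x y
    unfold chSt
    split_ifs with hk
    · have h1 := cs_size (eOf_pos (s (K - (k + 1))).2.1).le
        (he4 _ (s (K - (k + 1))).2.1 (s (K - (k + 1))).2.2) (s (K - k)).2.1 (s (K - k)).2.2 hτ1 x y
      exact ⟨h1.1.trans hτh, h1.2.trans hτh⟩
    · have h1 := hz (K - k) x y
      exact ⟨h1.1.trans hτh, h1.2.trans hτh⟩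
  · intro x y
    have a1 := castSt_le (m := 199) (by norm_num) tfU_bd x y
    push_cast at a1
    have he := he4 _ (s (K - 1)).2.1 (s (K - 1)).2.2
    have he0 := eOf_pos (s (K - 1)).2.1
    have h4 : τ ^ 4 ≤ τ := by
      calc τ ^ 4 = τ ^ 3 * τ := by ring
        _ ≤ 1 * τ := by
            gcongr
            exact pow_le_one₀ hτ0.le (by linarith)
        _ = τ := one_mul τ
    have hb : eOf (s (K - 1)).1 / 400 * 199 ≤ h := by linarith
    constructor
    · show |eOf (s (K - 1)).1 / 400 * (castSt tfU x y).1| ≤ h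
      rw [abs_mul, abs_of_pos (by positivity)]
      refine le_trans ?_ hb
      gcongr
      exact a1.1
    · show |eOf (s (K - 1)).1 / 400 * (castSt tfU x y).2| ≤ h
      rw [abs_mul, abs_of_pos (by positivity)]
      refine le_trans ?_ hb
      gcongr
      exact a1.2

end Pool.Agent.Lib.MP_6ff0c5_lc.N
end

section

/-!
MP_6ff0c5_lc, part B, completeness: a state of the network from the states of the blocks.
-/

set_option autoImplicit false

namespace Pool.Agent.Lib.MP_6ff0c5_lc.N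

/-- Local states of the blocks: tiles `(l, j)` of the crossbar, gates, sources `S`, the block `U`, blocks of the chain (`k` is
at the tile row `-2k`). -/
structure Sts where
  cr : ℕ → ℕ → ℤ → ℤ → ℝ × ℝ
  ga : ℕ → ℤ → ℤ → ℝ × ℝ
  so : ℕ → ℤ → ℤ → ℝ × ℝ
  un : ℤ → ℤ → ℝ × ℝ
  ch : ℕ → ℤ → ℤ → ℝ × ℝ

/-- the global state -/
noncomputable def glue (P : Lay) (s : Sts) : ℤ → ℤ → ℝ × ℝ := fun X Y =>
  if 0 ≤ Y then
    if X < 9 * P.ns then s.cr (X / 9).toNat (Y / 9).toNat (X % 9) (Y % 9)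
    else if Y < 18 then s.un (X - 9 * P.ns) Y
    else if Y < 9 * (2 + 6 * P.G.length) then s.ga ((Y - 18) / 54).toNat (X - 9 * P.ns) ((Y - 18) % 54)
    else s.so ((Y - 9 * (2 + 6 * P.G.length)) / 18).toNat (X - 9 * P.ns) ((Y - 9 * (2 + 6 * P.G.length)) % 18)
  else s.ch ((-Y + 17) / 18).toNat (X - 9 * (P.ns + 1)) (Y % 18)

variable {P : Lay} (s : Sts) {x y : ℤ}

theorem glue_cr {l j : ℕ} (hl : l < P.ns) (hx : 0 ≤ x) (hx' : x < 9) (hy : 0 ≤ y) (hy' : y < 9) :
    loc (glue P s) l j x y = s.cr l j x y := by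
  unfold loc glue
  rw [if_pos (by omega), if_pos (by omega)]
  have h1 : ((9 * (l : ℤ) + x) / 9).toNat = l := by omega
  have h2 : ((9 * (j : ℤ) + y) / 9).toNat = j := by omega
  have h3 : (9 * (l : ℤ) + x) % 9 = x := by omega
  have h4 : (9 * (j : ℤ) + y) % 9 = y := by omega
  rw [h1, h2, h3, h4]

theorem glue_un (hx : 0 ≤ x) (hy : 0 ≤ y) (hy' : y < 18) : loc (glue P s) P.ns 0 x y = s.un x y := by
  unfold loc glue
  rw [if_pos (by omega), if_neg (by omega), if_pos (by omega)]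
  have h1 : 9 * (P.ns : ℤ) + x - 9 * P.ns = x := by omega
  have h2 : 9 * (0 : ℤ) + y = y := by omega
  rw [h1, h2]

theorem glue_ga {g : ℕ} (hg : g < P.G.length) (hx : 0 ≤ x) (hy : 0 ≤ y) (hy' : y < 54) :
    loc (glue P s) P.ns (2 + 6 * g) x y = s.ga g x y := by
  unfold loc glue
  rw [if_pos (by omega), if_neg (by omega), if_neg (by omega), if_pos (by omega)]
  have h1 : 9 * (P.ns : ℤ) + x - 9 * P.ns = x := by omega
  have h2 : ((9 * (2 + 6 * (g : ℤ)) + y - 18) / 54).toNat = g := by omega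
  have h3 : (9 * (2 + 6 * (g : ℤ)) + y - 18) % 54 = y := by omega
  rw [h1, h2, h3]

theorem glue_so {v : ℕ} (hx : 0 ≤ x) (hy : 0 ≤ y) (hy' : y < 18) :
    loc (glue P s) P.ns (2 + 6 * P.G.length + 2 * v) x y = s.so v x y := by
  unfold loc glue
  rw [if_pos (by omega), if_neg (by omega), if_neg (by omega), if_neg (by omega)]
  have h1 : 9 * (P.ns : ℤ) + x - 9 * P.ns = x := by omega
  have h2 : ((9 * (2 + 6 * (P.G.length : ℤ) + 2 * (v : ℤ)) + y -
      9 * (2 + 6 * (P.G.length : ℤ))) / 18).toNat = v := by omega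
  have h3 : (9 * (2 + 6 * (P.G.length : ℤ) + 2 * (v : ℤ)) + y -
      9 * (2 + 6 * (P.G.length : ℤ))) % 18 = y := by omega
  rw [h1, h2, h3]

theorem glue_ch {k : ℕ} (hk : 1 ≤ k) (hy : 0 ≤ y) (hy' : y < 18) :
    loc (glue P s) (P.ns + 1) (-(2 * k : ℤ)) x y = s.ch k x y := by
  unfold loc glue
  rw [if_neg (by omega)]
  have h1 : 9 * ((P.ns : ℤ) + 1) + x - 9 * ((P.ns : ℤ) + 1) = x := by omega
  have h2 : ((-(9 * -(2 * (k : ℤ)) + y) + 17) / 18).toNat = k := by omega
  have h3 : (9 * -(2 * (k : ℤ)) + y) % 18 = y := by omega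
  rw [h1, h2, h3]

/-- the room below a block of the chain is in the block with the next number -/
theorem glue_ch_below {k : ℕ} (hk : 1 ≤ k) : loc (glue P s) (P.ns + 1) (-(2 * k : ℤ)) x (-1) = s.ch (k + 1) x 17 := by
  unfold loc glue
  rw [if_neg (by omega)]
  have h1 : 9 * ((P.ns : ℤ) + 1) + x - 9 * ((P.ns : ℤ) + 1) = x := by omega
  have h2 : ((-(9 * -(2 * (k : ℤ)) + (-1)) + 17) / 18).toNat = k + 1 := by omega
  have h3 : (9 * -(2 * (k : ℤ)) + (-1)) % 18 = 17 := by omega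
  rw [h1, h2, h3]

/-- the room below the block `U` -/
theorem glue_un_below : loc (glue P s) P.ns 0 x (-1) = s.ch 1 (x - 9) 17 := by
  unfold loc glue
  rw [if_neg (by omega)]
  have h1 : 9 * (P.ns : ℤ) + x - 9 * ((P.ns : ℤ) + 1) = x - 9 := by omega
  have h2 : ((-(9 * (0 : ℤ) + (-1)) + 17) / 18).toNat = 1 := by omega
  have h3 : (9 * (0 : ℤ) + (-1)) % 18 = 17 := by omega
  rw [h1, h2, h3]

end Pool.Agent.Lib.MP_6ff0c5_lc.N
end
end
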