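import Pool.Agent.Lib.MP_6ff0c5_lc.C.Pos
import Pool.Agent.Lib.MP_6ff0c5_lc.Net.Cmp.Glue
import Pool.Agent.Lib.MP_6ff0c5_lc.LQ.Def
import Pool.Agent.Lib.MP_6ff0c5_lc.Net.Cover
import Pool.Agent.Lib.MP_6ff0c5_lc.K.Comp

section

/-!
MP_6ff0c5_lc, part C: the incoming and the outgoing wall of a vertex of the patch.
-/

set_option autoImplicit false

namespace Pool.Agent.Lib.MP_6ff0c5_lc.C

section

variable {n1 n2 : ℕ}

theorem pres_wu {w : ℕ} {i j : ℤ} (h : WP n1 n2 w i j) : Pres n1 n2 (wu w i j) := by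
  obtain ⟨hw, h1, h2, h3, h4, h5, h6, h7, h8⟩ := h
  interval_cases w <;> simp [wu, wallTab, sh, Pres] at h5 h6 h7 h8 ⊢ <;> omega

theorem pres_wv {w : ℕ} {i j : ℤ} (h : WP n1 n2 w i j) : Pres n1 n2 (wv w i j) := by
  obtain ⟨hw, h1, h2, h3, h4, h5, h6, h7, h8⟩ := h
  interval_cases w <;> simp [wv, wallTab, sh, Pres] at h5 h6 h7 h8 ⊢ <;> omega

/-- the incoming wall of a vertex -/
def inw (n1 n2 : ℕ) (x : Vx) : ℕ × ℤ × ℤ :=
  let i := x.2.1
  let j := x.2.2
  if x.1 = 0 then (11, i, j)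
  else if x.1 = 1 then (2, i, j)
  else if x.1 = 2 then (if i = 1 then (13, i, j) else (6, i - 1, j))
  else if x.1 = 3 then (if i = n1 + 1 then (17, i - 1, j) else (0, i, j))
  else if x.1 = 4 then (if j = 1 then (15, i, j) else (7, i, j - 1))
  else if x.1 = 5 then (if j = n2 + 1 then (19, i, j - 1) else (1, i, j))
  else if x.1 = 6 then (3, i, j)
  else if x.1 = 7 then (4, i, j)
  else if x.1 = 8 then (8, i, j)
  else if x.1 = 9 then (9, i, j)
  else if x.1 = 10 then (10, i, j)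
  else if x.1 = 11 then (5, i, j)
  else if x.1 = 12 then (if i = n1 + 1 then (16, i - 1, j) else (18, i, j - 1))
  else (if i = 0 then (12, i + 1, j) else (14, i, j + 1))

/-- the outgoing wall of a vertex -/
def outw (n1 n2 : ℕ) (x : Vx) : ℕ × ℤ × ℤ :=
  let i := x.2.1
  let j := x.2.2
  if x.1 = 0 then (0, i, j)
  else if x.1 = 1 then (3, i, j)
  else if x.1 = 2 then (if i = n1 + 1 then (16, i - 1, j) else (1, i, j))
  else if x.1 = 3 then (if i = 1 then (12, i, j) else (7, i - 1, j))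
  else if x.1 = 4 then (if j = n2 + 1 then (18, i, j - 1) else (2, i, j))
  else if x.1 = 5 then (if j = 1 then (14, i, j) else (8, i, j - 1))
  else if x.1 = 6 then (4, i, j)
  else if x.1 = 7 then (5, i, j)
  else if x.1 = 8 then (9, i, j)
  else if x.1 = 9 then (10, i, j)
  else if x.1 = 10 then (11, i, j)
  else if x.1 = 11 then (6, i, j)
  else if x.1 = 12 then (if i = n1 + 1 then (17, i - 1, j) else (19, i, j - 1))
  else (if i = 0 then (13, i + 1, j) else (15, i, j + 1))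

theorem pres_lt {x : Vx} (h : Pres n1 n2 x) : x.1 < 14 := by
  unfold Pres at h
  split_ifs at h <;> omega

theorem wp_inw {x : Vx} (h1 : 1 ≤ n1) (h2 : 1 ≤ n2) (h : Pres n1 n2 x) :
    WP n1 n2 (inw n1 n2 x).1 (inw n1 n2 x).2.1 (inw n1 n2 x).2.2 ∧
      wv (inw n1 n2 x).1 (inw n1 n2 x).2.1 (inw n1 n2 x).2.2 = x := by
  have hk := pres_lt h
  obtain ⟨k, i, j⟩ := x
  simp only at hk
  interval_cases k <;> simp [Pres] at h <;> simp [inw, WP, wv, wallTab, sh] <;> (try split_ifs) <;>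
    (try simp) <;> omega

theorem wp_outw {x : Vx} (h1 : 1 ≤ n1) (h2 : 1 ≤ n2) (h : Pres n1 n2 x) :
    WP n1 n2 (outw n1 n2 x).1 (outw n1 n2 x).2.1 (outw n1 n2 x).2.2 ∧
      wu (outw n1 n2 x).1 (outw n1 n2 x).2.1 (outw n1 n2 x).2.2 = x := by
  have hk := pres_lt h
  obtain ⟨k, i, j⟩ := x
  simp only at hk
  interval_cases k <;> simp [Pres] at h <;> simp [outw, WP, wu, wallTab, sh] <;> (try split_ifs) <;>
    (try simp) <;> omega

theorem inw_wv {w : ℕ} {i j : ℤ} (h : WP n1 n2 w i j) : inw n1 n2 (wv w i j) = (w, i, j) := by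
  obtain ⟨hw, h1, h2, h3, h4, h5, h6, h7, h8⟩ := h
  interval_cases w <;> simp [wv, wallTab, sh, inw] at h5 h6 h7 h8 ⊢ <;> omega

theorem outw_wu {w : ℕ} {i j : ℤ} (h : WP n1 n2 w i j) : outw n1 n2 (wu w i j) = (w, i, j) := by
  obtain ⟨hw, h1, h2, h3, h4, h5, h6, h7, h8⟩ := h
  interval_cases w <;> simp [wu, wallTab, sh, outw] at h5 h6 h7 h8 ⊢ <;> omega

/-- the room of a wall -/
def wr (t : ℕ × ℤ × ℤ) : ℕ × ℤ × ℤ := (wroom t.1, t.2.1, t.2.2)

/-- A door vertex: its incoming and its outgoing wall are in different rooms. -/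
def door (n1 n2 : ℕ) (x : Vx) : Prop := wr (inw n1 n2 x) ≠ wr (outw n1 n2 x)

theorem door_iff {x : Vx} (h1 : 1 ≤ n1) (h2 : 1 ≤ n2) (h : Pres n1 n2 x) : door n1 n2 x ↔
    ((x.1 = 0 ∨ x.1 = 1) ∧ 1 ≤ x.2.1 ∧ x.2.1 ≤ n1 ∧ 1 ≤ x.2.2 ∧ x.2.2 ≤ n2) ∨
      ((x.1 = 2 ∨ x.1 = 3) ∧ 2 ≤ x.2.1 ∧ x.2.1 ≤ n1 ∧ 1 ≤ x.2.2 ∧ x.2.2 ≤ n2) ∨
      ((x.1 = 4 ∨ x.1 = 5) ∧ 1 ≤ x.2.1 ∧ x.2.1 ≤ n1 ∧ 2 ≤ x.2.2 ∧ x.2.2 ≤ n2) := by
  have hk := pres_lt h
  obtain ⟨k, i, j⟩ := x
  simp only at hk
  interval_cases k <;> simp [Pres] at h <;> simp [door, inw, outw, wr] <;> (try split_ifs) <;>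
    (try simp [wroom]) <;> omega

theorem adm_of_pres {w : ℕ} {i j : ℤ} (h : WP n1 n2 w i j) {x : Vx} (hx : Pres n1 n2 x) (hu : x ≠ wu w i j)
    (hv : x ≠ wv w i j) : adm w (sh x (-i) (-j)) = true := by
  have hk := pres_lt hx
  obtain ⟨hw, h1, h2, h3, h4, h5, h6, h7, h8⟩ := h
  have hu' : sh x (-i) (-j) ≠ wu w 0 0 := by
    intro hc
    apply hu
    have := congrArg (fun y => sh y i j) hc
    simp only [sh_sh, neg_add_cancel, wu_sh, zero_add] at this
    rw [← this]
    simp [sh]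
  have hv' : sh x (-i) (-j) ≠ wv w 0 0 := by
    intro hc
    apply hv
    have := congrArg (fun y => sh y i j) hc
    simp only [sh_sh, neg_add_cancel, wv_sh, zero_add] at this
    rw [← this]
    simp [sh]
  have hok : ∀ a b : ℤ, (w = 12 ∨ w = 13 → 0 ≤ a) → (w = 14 ∨ w = 15 → 0 ≤ b) → (w = 16 ∨ w = 17 → a ≤ 0) →
      (w = 18 ∨ w = 19 → b ≤ 0) → okrel (ctyp w) a b = true := by
    intro a b g1 g2 g3 g4
    clear h3 h4 h5 h6 h7 h8 hu hv hu' hv'
    interval_cases w <;> simp [okrel, ctyp] at g1 g2 g3 g4 ⊢ <;> assumption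
  unfold adm
  simp only [decide_eq_true hu', decide_eq_true hv', Bool.true_and]
  obtain ⟨k, a, b⟩ := x
  unfold Pres at hx
  simp only [sh] at hx hk ⊢
  split_ifs at hx ⊢ with c1 c2 c3 c4
  · rw [Bool.or_eq_true, Bool.and_eq_true, Bool.and_eq_true, decide_eq_true_eq, decide_eq_true_eq]
    rcases hx with hx | hx
    · exact Or.inl ⟨by omega, hok _ _ (by omega) (by omega) (by omega) (by omega)⟩
    · exact Or.inr ⟨by omega, hok _ _ (by omega) (by omega) (by omega) (by omega)⟩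
  · rw [Bool.or_eq_true, Bool.and_eq_true, Bool.and_eq_true, decide_eq_true_eq, decide_eq_true_eq]
    rcases hx with hx | hx
    · exact Or.inl ⟨by omega, hok _ _ (by omega) (by omega) (by omega) (by omega)⟩
    · exact Or.inr ⟨by omega, hok _ _ (by omega) (by omega) (by omega) (by omega)⟩
  · rw [Bool.or_eq_true]
    by_cases hr : w = 16 ∨ w = 17
    · exact Or.inr (hok _ _ (by omega) (by omega) (by omega) (by omega))
    · exact Or.inl (hok _ _ (by omega) (by omega) (by omega) (by omega))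
  · rw [Bool.or_eq_true]
    by_cases hr : w = 18 ∨ w = 19
    · exact Or.inr (hok _ _ (by omega) (by omega) (by omega) (by omega))
    · exact Or.inl (hok _ _ (by omega) (by omega) (by omega) (by omega))
  · rw [Bool.and_eq_true, decide_eq_true_eq]
    exact ⟨by omega, hok _ _ (by omega) (by omega) (by omega) (by omega)⟩

end

end Pool.Agent.Lib.MP_6ff0c5_lc.C
end

section

section

/-!
MP_6ff0c5_lc, part B, completeness: states of the tiles of the crossbar, of the sources and of the gates.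
-/

set_option autoImplicit false

namespace Pool.Agent.Lib.MP_6ff0c5_lc.N

/-- the tables of the tiles `1 = V`, `2 = T`, `3 = X`, `4 = A` -/
def tyOf : ℕ → ℤ → ℤ → ℤ × ℤ
  | 2 => tyT
  | 3 => tyX
  | 4 => tyA
  | _ => fun _ _ => (0, 0)

def tsOf : ℕ → ℤ → ℤ → ℤ × ℤ
  | 1 => tsV
  | 2 => tsT
  | 3 => tsX
  | 4 => tsA
  | _ => fun _ _ => (0, 0)

def tdOf : ℕ → ℤ → ℤ → ℤ × ℤ
  | 1 => tdV
  | 2 => tdT
  | 3 => tdX
  | 4 => tdA
  | _ => fun _ _ => (0, 0)

def conOf : ℕ → List Con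
  | 1 => cV
  | 2 => cT
  | 3 => cX
  | 4 => cA
  | _ => []

/-- loss of the string in a tile -/
def dOut : ℕ → ℤ
  | 1 => 17
  | 2 => 26
  | 3 => 36
  | 4 => 66
  | _ => 0

/-- the state of a tile: lane value `y`, string value `s`, slack `d` -/
noncomputable def tileSt (id : ℕ) (y s d : ℝ) : ℤ → ℤ → ℝ × ℝ :=
  fun i k => y • castSt (tyOf id) i k + s • castSt (tsOf id) i k + d • castSt (tdOf id) i k

private theorem tl_all {l : List Con} {P : Con → Prop} [DecidablePred P]
    (h : (l.all fun c => decide (P c)) = true) {c : Con} (hc : c ∈ l) : P c :=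
  of_decide_eq_true (List.all_eq_true.1 h c hc)

private theorem tl_slack3 (p q r : ℝ) (u v w : ℤ → ℤ → ℤ × ℤ) (c : Con) :
    c.slack (fun i k => p • castSt u i k + q • castSt v i k + r • castSt w i k) =
      p * ((c.slack u : ℤ) : ℝ) + q * ((c.slack v : ℤ) : ℝ) + r * ((c.slack w : ℤ) : ℝ) := by
  have h1 := slack_add (fun i k => p • castSt u i k + q • castSt v i k) (fun i k => r • castSt w i k) c
  have h2 := slack_add (fun i k => p • castSt u i k) (fun i k => q • castSt v i k) c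
  rw [slack_smul, slack_cast] at h1
  rw [slack_smul, slack_smul, slack_cast, slack_cast] at h2
  rw [h2] at h1
  exact h1

private theorem tl_zero (c : Con) : c.slack (fun _ _ => ((0 : ℤ), (0 : ℤ))) = 0 := by
  rcases c with ⟨x, y⟩ | ⟨x, y⟩ | ⟨x, y⟩ | ⟨x, y⟩ | ⟨x, y⟩ | ⟨x, y⟩ <;> simp [Con.slack, a3]

/-- (`tyX_slack`, `tsX_slack`, `tdX_slack`, …) -/
theorem tileSt_slack {id : ℕ} (hid : id = 1 ∨ id = 2 ∨ id = 3 ∨ id = 4) (y s d : ℝ) {c : Con} (hc : c ∈ conOf id) :
    c.slack (tileSt id y s d) = d := by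
  unfold tileSt
  rw [tl_slack3]
  rcases hid with rfl | rfl | rfl | rfl
  · have h1 : c.slack (tyOf 1) = 0 := tl_zero c
    have h2 : c.slack (tsOf 1) = 0 := tl_all tsV_slack hc
    have h3 : c.slack (tdOf 1) = 1 := tl_all tdV_slack hc
    rw [h1, h2, h3]; simp
  · have h1 : c.slack (tyOf 2) = 0 := tl_all tyT_slack hc
    have h2 : c.slack (tsOf 2) = 0 := tl_all tsT_slack hc
    have h3 : c.slack (tdOf 2) = 1 := tl_all tdT_slack hc
    rw [h1, h2, h3]; simp
  · have h1 : c.slack (tyOf 3) = 0 := tl_all tyX_slack hc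
    have h2 : c.slack (tsOf 3) = 0 := tl_all tsX_slack hc
    have h3 : c.slack (tdOf 3) = 1 := tl_all tdX_slack hc
    rw [h1, h2, h3]; simp
  · have h1 : c.slack (tyOf 4) = 0 := tl_all tyA_slack hc
    have h2 : c.slack (tsOf 4) = 0 := tl_all tsA_slack hc
    have h3 : c.slack (tdOf 4) = 1 := tl_all tdA_slack hc
    rw [h1, h2, h3]; simp

private theorem tl_a3 (id : ℕ) (y s d : ℝ) (i k : ℤ) :
    a3 (tileSt id y s d i k) = y * ((a3 (tyOf id i k) : ℤ) : ℝ) + s * ((a3 (tsOf id i k) : ℤ) : ℝ) +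
      d * ((a3 (tdOf id i k) : ℤ) : ℝ) := by
  simp only [tileSt, a3, castSt, Prod.fst_add, Prod.snd_add, Prod.smul_fst, Prod.smul_snd, smul_eq_mul]
  push_cast
  ring

private theorem tl_fst (id : ℕ) (y s d : ℝ) (i k : ℤ) :
    (tileSt id y s d i k).1 = y * (((tyOf id i k).1 : ℤ) : ℝ) + s * (((tsOf id i k).1 : ℤ) : ℝ) +
      d * (((tdOf id i k).1 : ℤ) : ℝ) := by
  simp only [tileSt, castSt, Prod.fst_add, Prod.smul_fst, smul_eq_mul]

private theorem tl_snd (id : ℕ) (y s d : ℝ) (i k : ℤ) :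
    (tileSt id y s d i k).2 = y * (((tyOf id i k).2 : ℤ) : ℝ) + s * (((tsOf id i k).2 : ℤ) : ℝ) +
      d * (((tdOf id i k).2 : ℤ) : ℝ) := by
  simp only [tileSt, castSt, Prod.snd_add, Prod.smul_snd, smul_eq_mul]

theorem tileSt_bot {id : ℕ} (hid : id = 1 ∨ id = 2 ∨ id = 3 ∨ id = 4) (y s d : ℝ) : a3 (tileSt id y s d 3 0) = s := by
  rw [tl_a3]
  rcases hid with rfl | rfl | rfl | rfl
  · have h1 : a3 (tyOf 1 3 0) = 0 := rfl
    have h2 : a3 (tsOf 1 3 0) = 1 := tsV_val.1
    have h3 : a3 (tdOf 1 3 0) = 0 := tdV_val.1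
    rw [h1, h2, h3]; simp
  · have h1 : a3 (tyOf 2 3 0) = 0 := tyT_val.2.1
    have h2 : a3 (tsOf 2 3 0) = 1 := tsT_val.2.1
    have h3 : a3 (tdOf 2 3 0) = 0 := tdT_val.2.1
    rw [h1, h2, h3]; simp
  · have h1 : a3 (tyOf 3 3 0) = 0 := tyX_val.2.1
    have h2 : a3 (tsOf 3 3 0) = 1 := tsX_val.2.1
    have h3 : a3 (tdOf 3 3 0) = 0 := tdX_val.2.1
    rw [h1, h2, h3]; simp
  · have h1 : a3 (tyOf 4 3 0) = 0 := tyA_val.2.1
    have h2 : a3 (tsOf 4 3 0) = 1 := tsA_val.2.1
    have h3 : a3 (tdOf 4 3 0) = 0 := tdA_val.2.1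
    rw [h1, h2, h3]; simp

theorem tileSt_top {id : ℕ} (hid : id = 1 ∨ id = 2 ∨ id = 3 ∨ id = 4) (y s d : ℝ) :
    (tileSt id y s d 3 8).2 = -(s + (if id = 2 ∨ id = 4 then y else 0) + dOut id * d) := by
  rw [tl_snd]
  rcases hid with rfl | rfl | rfl | rfl
  · have h1 : (tyOf 1 3 8).2 = 0 := rfl
    have h2 : (tsOf 1 3 8).2 = -1 := tsV_val.2
    have h3 : (tdOf 1 3 8).2 = -17 := tdV_val.2
    have h4 : dOut 1 = 17 := rfl
    rw [h1, h2, h3, h4, if_neg (by decide)]; push_cast; ring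
  · have h1 : (tyOf 2 3 8).2 = -1 := tyT_val.2.2
    have h2 : (tsOf 2 3 8).2 = -1 := tsT_val.2.2
    have h3 : (tdOf 2 3 8).2 = -26 := tdT_val.2.2
    have h4 : dOut 2 = 26 := rfl
    rw [h1, h2, h3, h4, if_pos (by decide)]; push_cast; ring
  · have h1 : (tyOf 3 3 8).2 = 0 := tyX_val.2.2.2
    have h2 : (tsOf 3 3 8).2 = -1 := tsX_val.2.2.2
    have h3 : (tdOf 3 3 8).2 = -36 := tdX_val.2.2.2
    have h4 : dOut 3 = 36 := rfl
    rw [h1, h2, h3, h4, if_neg (by decide)]; push_cast; ring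
  · have h1 : (tyOf 4 3 8).2 = -1 := tyA_val.2.2.2
    have h2 : (tsOf 4 3 8).2 = -1 := tsA_val.2.2.2
    have h3 : (tdOf 4 3 8).2 = -66 := tdA_val.2.2.2
    have h4 : dOut 4 = 66 := rfl
    rw [h1, h2, h3, h4, if_pos (by decide)]; push_cast; ring

theorem tileSt_right {id : ℕ} (hid : id = 2 ∨ id = 3 ∨ id = 4) (y s d : ℝ) : (tileSt id y s d 8 5).1 = y := by
  rw [tl_fst]
  rcases hid with rfl | rfl | rfl
  · have h1 : (tyOf 2 8 5).1 = 1 := tyT_val.1
    have h2 : (tsOf 2 8 5).1 = 0 := tsT_val.1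
    have h3 : (tdOf 2 8 5).1 = 0 := tdT_val.1
    rw [h1, h2, h3]; simp
  · have h1 : (tyOf 3 8 5).1 = 1 := tyX_val.1
    have h2 : (tsOf 3 8 5).1 = 0 := tsX_val.1
    have h3 : (tdOf 3 8 5).1 = 0 := tdX_val.1
    rw [h1, h2, h3]; simp
  · have h1 : (tyOf 4 8 5).1 = 1 := tyA_val.1
    have h2 : (tsOf 4 8 5).1 = 0 := tsA_val.1
    have h3 : (tdOf 4 8 5).1 = 0 := tdA_val.1
    rw [h1, h2, h3]; simp

theorem tileSt_left {id : ℕ} (hid : id = 3 ∨ id = 4) (y s d : ℝ) : (tileSt id y s d 0 5).2 = -(y + 34 * d) := by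
  rw [tl_snd]
  rcases hid with rfl | rfl
  · have h1 : (tyOf 3 0 5).2 = -1 := tyX_val.2.2.1
    have h2 : (tsOf 3 0 5).2 = 0 := tsX_val.2.2.1
    have h3 : (tdOf 3 0 5).2 = -34 := tdX_val.2.2.1
    rw [h1, h2, h3]; push_cast; ring
  · have h1 : (tyOf 4 0 5).2 = -1 := tyA_val.2.2.1
    have h2 : (tsOf 4 0 5).2 = 0 := tsA_val.2.2.1
    have h3 : (tdOf 4 0 5).2 = -34 := tdA_val.2.2.1
    rw [h1, h2, h3]; push_cast; ring

/-! ### Sources and gates -/

/-- second order state of the source of a variable -/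
noncomputable def srcSt (z : ℝ) : ℤ → ℤ → ℝ × ℝ := fun x y => z • castSt tzS x y

theorem S_good (z : ℝ) (A4 : ℤ → ℤ → ℝ × ℝ) {c : Con} (hc : c ∈ cS) : Good 0 (srcSt z) (castSt tdS) A4 c := by
  have h2 : c.slack tzS = 0 := tl_all tzS_slack hc
  have h3 : c.slack tdS = 1 := tl_all tdS_slack hc
  refine Good.o3 (fun _ _ => rfl) ?_ ?_
  · have := slack_smul z (castSt tzS) c
    rw [slack_cast, h2] at this
    rw [show srcSt z = fun x y => z • castSt tzS x y from rfl, this]
    simp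
  · rw [slack_cast, h3]; simp

/-- the state of a gate in second order -/
noncomputable def gateSt2 (t : Bool) (z0 z1 z2 : ℝ) : ℤ → ℤ → ℝ × ℝ :=
  if t then fun x y => z0 • castSt tzG10 x y + z1 • castSt tzG11 x y + z2 • castSt tzG12 x y
  else fun x y => z0 • castSt tzG00 x y + z1 • castSt tzG01 x y + z2 • castSt tzG02 x y

/-- third order -/
noncomputable def gateSt3 (t : Bool) : ℤ → ℤ → ℝ × ℝ := if t then castSt tdG1 else castSt tdG0

/-- fourth order -/
noncomputable def gateSt4 (t : Bool) (z0 z1 z2 : ℝ) : ℤ → ℤ → ℝ × ℝ :=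
  if t then fun x y => (z0 ^ 2 / (130 * 8664)) • castSt twG10 x y + (z1 ^ 2 / (130 * 8664)) • castSt twG11 x y +
    (z2 ^ 2 / (130 * 8664)) • castSt twG12 x y
  else fun x y => (z0 ^ 2 / (126 * 8664)) • castSt twG00 x y + (z1 ^ 2 / (126 * 8664)) • castSt twG01 x y +
    (z2 ^ 2 / (126 * 8664)) • castSt twG02 x y

private theorem tl_Q3 (p q r : ℝ) (u v w : ℤ → ℤ → ℤ × ℤ) (c : Con) (h1 : c.pol u v = 0)
    (h2 : c.pol u w = 0) (h3 : c.pol v w = 0) :
    c.Q (fun i k => p • castSt u i k + q • castSt v i k + r • castSt w i k) =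
      p ^ 2 * ((c.Q u : ℤ) : ℝ) + q ^ 2 * ((c.Q v : ℤ) : ℝ) + r ^ 2 * ((c.Q w : ℤ) : ℝ) := by
  have e1 := Q_add (fun i k => p • castSt u i k + q • castSt v i k) (fun i k => r • castSt w i k) c
  have e2 := Q_add (fun i k => p • castSt u i k) (fun i k => q • castSt v i k) c
  have e3 := pol_add_left (fun i k => p • castSt u i k) (fun i k => q • castSt v i k)
    (fun i k => r • castSt w i k) c
  rw [pol_smul, pol_smul, pol_cast, pol_cast, h2, h3] at e3
  rw [pol_smul, pol_cast, h1, Q_smul, Q_smul, Q_cast, Q_cast] at e2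
  rw [e2, e3, Q_smul, Q_cast] at e1
  refine e1.trans ?_
  push_cast
  ring

/-- **Gates.** On `rG00`: the slacks in second and third order are `0`, `Q (gateSt2) = ∑ z_i² Q tz_i` (`tG0_pol01`, …: the polar
forms vanish), `8664 slack (gateSt4) = ∑ z_i² (Q tz_i - σ_i 32750 / 126)`, `σ = (-1, 1, 1)`. On the other constraints: slack `0` in
second, slack `1` in third order. -/
theorem G0_good {z0 z1 z2 : ℝ} (h : 0 < LQ.gateVal false z0 z1 z2) {c : Con} (hc : c ∈ cG0) :
    Good 0 (gateSt2 false z0 z1 z2) (gateSt3 false) (gateSt4 false z0 z1 z2) c := by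
  have a0 : c.slack tzG00 = 0 := tl_all tzG00_slack hc
  have a1 : c.slack tzG01 = 0 := tl_all tzG01_slack hc
  have a2 : c.slack tzG02 = 0 := tl_all tzG02_slack hc
  have a3' : c.slack tdG0 = if c ∈ rG00 then 0 else 1 := tl_all tdG0_slack hc
  have e2 : c.slack (gateSt2 false z0 z1 z2) = 0 := by
    have := tl_slack3 z0 z1 z2 tzG00 tzG01 tzG02 c
    rw [a0, a1, a2] at this
    refine Eq.trans this ?_
    simp
  have e3 : c.slack (gateSt3 false) = ((c.slack tdG0 : ℤ) : ℝ) := slack_cast tdG0 c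
  by_cases hr : c ∈ rG00
  · refine Good.o4 (fun _ _ => rfl) e2 ?_ ?_
    · rw [e3, a3', if_pos hr]; simp
    · have b0 : c.slack twG00 = 126 * c.Q tzG00 - (-32750) := tl_all twG00_slack hr
      have b1 : c.slack twG01 = 126 * c.Q tzG01 - 32750 := tl_all twG01_slack hr
      have b2 : c.slack twG02 = 126 * c.Q tzG02 - 32750 := tl_all twG02_slack hr
      have q := tl_Q3 z0 z1 z2 tzG00 tzG01 tzG02 c (tl_all tG0_pol01 hr) (tl_all tG0_pol02 hr)
        (tl_all tG0_pol12 hr)
      have w := tl_slack3 (z0 ^ 2 / (126 * 8664)) (z1 ^ 2 / (126 * 8664)) (z2 ^ 2 / (126 * 8664))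
        twG00 twG01 twG02 c
      rw [b0, b1, b2] at w
      have q' : c.Q (gateSt2 false z0 z1 z2) = _ := q
      have w' : c.slack (gateSt4 false z0 z1 z2) = _ := w
      rw [q', w']
      have hv : 0 < z0 ^ 2 - z1 ^ 2 - z2 ^ 2 := h
      push_cast
      nlinarith
  · refine Good.o3 (fun _ _ => rfl) e2 ?_
    rw [e3, a3', if_neg hr]; simp

theorem G1_good {z0 z1 z2 : ℝ} (h : 0 < LQ.gateVal true z0 z1 z2) {c : Con} (hc : c ∈ cG1) :
    Good 0 (gateSt2 true z0 z1 z2) (gateSt3 true) (gateSt4 true z0 z1 z2) c := by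
  have a0 : c.slack tzG10 = 0 := tl_all tzG10_slack hc
  have a1 : c.slack tzG11 = 0 := tl_all tzG11_slack hc
  have a2 : c.slack tzG12 = 0 := tl_all tzG12_slack hc
  have a3' : c.slack tdG1 = if c ∈ rG10 then 0 else 1 := tl_all tdG1_slack hc
  have e2 : c.slack (gateSt2 true z0 z1 z2) = 0 := by
    have := tl_slack3 z0 z1 z2 tzG10 tzG11 tzG12 c
    rw [a0, a1, a2] at this
    refine Eq.trans this ?_
    simp
  have e3 : c.slack (gateSt3 true) = ((c.slack tdG1 : ℤ) : ℝ) := slack_cast tdG1 c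
  by_cases hr : c ∈ rG10
  · refine Good.o4 (fun _ _ => rfl) e2 ?_ ?_
    · rw [e3, a3', if_pos hr]; simp
    · have b0 : c.slack twG10 = 130 * c.Q tzG10 - (-32750) := tl_all twG10_slack hr
      have b1 : c.slack twG11 = 130 * c.Q tzG11 - (-32750) := tl_all twG11_slack hr
      have b2 : c.slack twG12 = 130 * c.Q tzG12 - 32750 := tl_all twG12_slack hr
      have q := tl_Q3 z0 z1 z2 tzG10 tzG11 tzG12 c (tl_all tG1_pol01 hr) (tl_all tG1_pol02 hr)
        (tl_all tG1_pol12 hr)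
      have w := tl_slack3 (z0 ^ 2 / (130 * 8664)) (z1 ^ 2 / (130 * 8664)) (z2 ^ 2 / (130 * 8664))
        twG10 twG11 twG12 c
      rw [b0, b1, b2] at w
      have q' : c.Q (gateSt2 true z0 z1 z2) = _ := q
      have w' : c.slack (gateSt4 true z0 z1 z2) = _ := w
      rw [q', w']
      have hv : 0 < z0 ^ 2 + z1 ^ 2 - z2 ^ 2 := h
      push_cast
      nlinarith
  · refine Good.o3 (fun _ _ => rfl) e2 ?_
    rw [e3, a3', if_neg hr]; simp

end Pool.Agent.Lib.MP_6ff0c5_lc.N
end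

section

/-!
MP_6ff0c5_lc, part B, completeness: the constraints of the network.
-/

set_option autoImplicit false

namespace Pool.Agent.Lib.MP_6ff0c5_lc.N

variable {P : Lay}

theorem class_anchor (c : Con) : ∃ x y : ℤ, (∀ N : Net, c.In N = true → N.act x y = true) ∧
    ∀ X Y : ℤ, ∃ c' ∈ anchored (x - X) (y - Y), c = c'.shift X Y := by
  rcases c with ⟨x, y⟩ | ⟨x, y⟩ | ⟨x, y⟩ | ⟨x, y⟩ | ⟨x, y⟩ | ⟨x, y⟩
  · refine ⟨x, y, fun N h => ?_, fun X Y => ⟨.h1 (x - X) (y - Y), by simp [anchored],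
      by simp [Con.shift]⟩⟩
    simp only [Con.In, Bool.and_eq_true] at h
    exact h.1
  · refine ⟨x, y, fun N h => ?_, fun X Y => ⟨.h3 (x - X) (y - Y), by simp [anchored],
      by simp [Con.shift]⟩⟩
    simp only [Con.In, Bool.and_eq_true] at h
    exact h.1
  · refine ⟨x, y, fun N h => ?_, fun X Y => ⟨.cp (x - X) (y - Y), by simp [anchored],
      by simp [Con.shift]⟩⟩
    simp only [Con.In, Bool.and_eq_true] at h
    exact h.1.1.1
  · refine ⟨x, y, fun N h => ?_, fun X Y => ⟨.p1 (x - X) (y - Y), by simp [anchored],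
      by simp [Con.shift]⟩⟩
    simp only [Con.In, Bool.and_eq_true] at h
    exact h.1.1
  · refine ⟨x, y, fun N h => ?_, fun X Y => ⟨.p2 (x - X) (y - Y), by simp [anchored],
      by simp [Con.shift]⟩⟩
    simp only [Con.In, Bool.and_eq_true] at h
    exact h.1.1
  · refine ⟨x, y, fun N h => ?_, fun X Y => ⟨.p3 (x - X) (y - Y), by simp [anchored],
      by simp [Con.shift]⟩⟩
    simp only [Con.In, Bool.and_eq_true] at h
    exact h.1.1

theorem class_blk {b : Blk} {T : ℤ → ℤ → ℕ} {L J : ℤ} (hat : b.At T L J) (hk : b.known = true) {x y : ℤ}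
    (hin : b.inside x y = true) (hact : (netOf T).act (9 * L + x) (9 * J + y) = true) {c : Con}
    (hc : c ∈ anchored x y) (hIn : (c.shift (9 * L) (9 * J)).In (netOf T) = true) :
    c ∈ b.cons ∨ c ∈ b.ext := by
  have hr : (x, y) ∈ b.rooms := by
    obtain ⟨⟨h1, h2⟩, h3, h4⟩ := Blk.inside_iff.1 hin
    have hka : b.ka x y = some (tbit masks (b.tid x y) (x % 9) (y % 9)) := by
      unfold Blk.ka
      rw [if_pos hin]
    have hbit := hat.ka hka
    rw [hact] at hbit
    unfold Blk.rooms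
    rw [List.mem_flatMap]
    refine ⟨y.toNat, List.mem_range.2 (by omega), ?_⟩
    rw [List.mem_filter, List.mem_map]
    refine ⟨⟨x.toNat, List.mem_range.2 (by omega), ?_⟩, ?_⟩
    · rw [Int.toNat_of_nonneg h1, Int.toNat_of_nonneg h3]
    · exact hbit.symm
  by_cases he : c ∈ b.ext
  · exact Or.inr he
  · left
    unfold Blk.known at hk
    rw [List.all_eq_true] at hk
    have h1 := hk _ hr
    rw [List.all_eq_true] at h1
    have h2 := h1 c hc
    rw [Bool.or_eq_true, bne_iff_ne, decide_eq_true_eq] at h2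
    have h3 : c.chk b.ka b.kc ≠ none := h2.resolve_right he
    obtain ⟨v, hv⟩ := Option.ne_none_iff_exists'.1 h3
    have h4 := hat.chk c hv
    rw [hIn] at h4
    unfold Blk.cons
    rw [List.mem_flatMap]
    refine ⟨(x, y), hr, ?_⟩
    rw [List.mem_filter]
    refine ⟨hc, ?_⟩
    rw [hv, ← h4]
    simp [he]

theorem class_bits {t : ℕ} (h : t = 1 ∨ t = 2 ∨ t = 3 ∨ t = 4) :
    tbit masks t 3 8 = true ∧ tbit masks t 3 0 = true := by
  rcases h with rfl | rfl | rfl | rfl <;> decide +kernel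

theorem class_below {l j : ℕ} (hl : l < P.ns) (hj : j < P.nl) :
    (netOf P.tile).act (9 * (l : ℤ) + 3) (9 * (j : ℤ) + 0 - 1) = true ↔ 1 ≤ j := by
  have e1 : (9 * (j : ℤ) + 0 - 1) = 9 * ((j : ℤ) - 1) + 8 := by ring
  rw [e1, act_at _ _ _ _ _ (by norm_num) (by norm_num) (by norm_num) (by norm_num)]
  rcases Nat.eq_zero_or_pos j with h0 | h0
  · subst h0
    rw [tile_cross_out (by exact_mod_cast hl) (Or.inl (by norm_num))]
    constructor
    · intro h
      exact absurd h (by decide +kernel)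
    · intro h
      omega
  · obtain ⟨i, rfl⟩ : ∃ i, j = i + 1 := ⟨j - 1, by omega⟩
    have e2 : (((i + 1 : ℕ) : ℤ) - 1) = (i : ℤ) := by push_cast; ring
    rw [e2, tile_cross hl (by omega)]
    exact iff_of_true (class_bits (tt_cases P l i)).1 (by omega)

theorem class_above {l j : ℕ} (hl : l < P.ns) :
    (netOf P.tile).act (9 * (l : ℤ) + 3) (9 * (j : ℤ) + 8 + 1) = true ↔ j + 1 < P.nl := by
  have e1 : (9 * (j : ℤ) + 8 + 1) = 9 * ((j + 1 : ℕ) : ℤ) + 0 := by push_cast; ring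
  rw [e1, act_at _ _ _ _ _ (by norm_num) (by norm_num) (by norm_num) (by norm_num)]
  rcases Nat.lt_or_ge (j + 1) P.nl with h0 | h0
  · rw [tile_cross hl h0]
    exact iff_of_true (class_bits (tt_cases P l (j + 1))).2 h0
  · rw [tile_top (by exact_mod_cast h0)]
    constructor
    · intro h
      exact absurd h (by decide +kernel)
    · intro h
      omega

theorem class_ext {l j : ℕ} (hl : l < P.ns) (hj : j < P.nl) (p : Con → Prop)
    (xp3 : ∀ l < P.ns, p ((Con.p3 3 0).shift (9 * l) (9 * (0 : ℕ))))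
    (xh3 : ∀ l < P.ns, ∀ j : ℕ, j + 1 < P.nl → p ((Con.h3 3 0).shift (9 * l) (9 * (j + 1 : ℕ))))
    (xp2 : ∀ l < P.ns, p ((Con.p2 3 8).shift (9 * l) (9 * (P.nl - 1 : ℕ)))) {c' : Con}
    (hc' : c' = .p3 3 0 ∨ c' = .h3 3 0 ∨ c' = .p2 3 8)
    (hc : (c'.shift (9 * (l : ℤ)) (9 * (j : ℤ))).In (netOf P.tile) = true) :
    p (c'.shift (9 * (l : ℤ)) (9 * (j : ℤ))) := by
  rcases hc' with rfl | rfl | rfl
  · simp only [Con.shift, Con.In, Bool.and_eq_true, Bool.not_eq_true'] at hc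
    have h1 := hc.1.2
    have h2 : ¬ 1 ≤ j := by
      rw [← class_below hl hj, h1]
      decide
    obtain rfl : j = 0 := by omega
    exact xp3 l hl
  · simp only [Con.shift, Con.In, Bool.and_eq_true] at hc
    have h2 := (class_below hl hj).1 hc.2
    obtain ⟨i, rfl⟩ : ∃ i, j = i + 1 := ⟨j - 1, by omega⟩
    exact xh3 l hl i hj
  · simp only [Con.shift, Con.In, Bool.and_eq_true, Bool.not_eq_true'] at hc
    have h1 := hc.2
    have h2 : ¬ j + 1 < P.nl := by
      rw [← class_above hl, h1]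
      decide
    obtain rfl : j = P.nl - 1 := by omega
    exact xp2 l hl

/-- **The constraints of the network** are the internal constraints of the blocks, the wires between the blocks and the ends
of the strings.

Proof. The room at which the constraint is anchored (`(x, y)`, the argument of the constructor) is active, hence in a block
(`cover`), `c = c'.shift (9 L) (9 J)` with `c' ∈ anchored r`, `r ∈ b.rooms`. By `known_V`, … (`Blk.known`) either
`c'.chk b.ka b.kc = some v`, then `v = true` by `Blk.At.chk` and `c' ∈ b.cons` (`cons_V`, …: `b.cons = cV`) or `c' ∈ b.ext`.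
External constraints: `p3 3 0` is in the network only if the room below is not active, so `j = 0`; `h3 3 0` only if it is
active, so `j ≥ 1`; `p2 3 8` only if the room above is not active, so `j = nl - 1` (all tiles of the crossbar have the active
rooms `(3, 0)` and `(3, 8)`; `act_at`); `h1 8 5` is an external constraint of the tiles `T`, `X`, `A` (`ended (l+1) j`). -/
theorem con_all (hP : P.OK) (p : Con → Prop)
    (hV : ∀ l < P.ns, ∀ j < P.nl, P.tt l j = 1 → ∀ c ∈ cV, p (c.shift (9 * l) (9 * j)))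
    (hT : ∀ l < P.ns, ∀ j < P.nl, P.tt l j = 2 → ∀ c ∈ cT, p (c.shift (9 * l) (9 * j)))
    (hX : ∀ l < P.ns, ∀ j < P.nl, P.tt l j = 3 → ∀ c ∈ cX, p (c.shift (9 * l) (9 * j)))
    (hA : ∀ l < P.ns, ∀ j < P.nl, P.tt l j = 4 → ∀ c ∈ cA, p (c.shift (9 * l) (9 * j)))
    (hG0 : ∀ g : ℕ, P.G[g]? = some false → ∀ c ∈ cG0, p (c.shift (9 * P.ns) (9 * (2 + 6 * g))))
    (hG1 : ∀ g : ℕ, P.G[g]? = some true → ∀ c ∈ cG1, p (c.shift (9 * P.ns) (9 * (2 + 6 * g))))
    (hS : ∀ v < P.V, ∀ c ∈ cS, p (c.shift (9 * P.ns) (9 * (2 + 6 * P.G.length + 2 * v))))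
    (hU : ∀ c ∈ cU, p (c.shift (9 * P.ns) (9 * 0)))
    (hE : ∀ k : ℕ, 1 ≤ k → k < P.K → ∀ c ∈ cE, p (c.shift (9 * (P.ns + 1)) (9 * -(2 * k : ℤ))))
    (hF : ∀ c ∈ cF, p (c.shift (9 * (P.ns + 1)) (9 * -(2 * P.K : ℤ))))
    (xp3 : ∀ l < P.ns, p ((Con.p3 3 0).shift (9 * l) (9 * (0 : ℕ))))
    (xh3 : ∀ l < P.ns, ∀ j : ℕ, j + 1 < P.nl → p ((Con.h3 3 0).shift (9 * l) (9 * (j + 1 : ℕ))))
    (xp2 : ∀ l < P.ns, p ((Con.p2 3 8).shift (9 * l) (9 * (P.nl - 1 : ℕ))))
    (xh1 : ∀ l < P.ns, ∀ j < P.nl, P.ended (l + 1) j = true → p ((Con.h1 8 5).shift (9 * l) (9 * j)))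
    (xE : ∀ k : ℕ, 1 ≤ k → k < P.K → p ((Con.h3 10 0).shift (9 * (P.ns + 1)) (9 * -(2 * k : ℤ))))
    (xU : p ((Con.h3 19 0).shift (9 * P.ns) (9 * 0))) (c : Con) (hc : c.In (netOf P.tile) = true) : p c := by
  obtain ⟨x, y, hact, hsh⟩ := class_anchor c
  have ha := hact _ hc
  obtain ⟨b, L, J, hhas, hin⟩ := cover hP ha
  obtain ⟨c', hc', hcc⟩ := hsh (9 * L) (9 * J)
  subst hcc
  have ha' : (netOf P.tile).act (9 * L + (x - 9 * L)) (9 * J + (y - 9 * J)) = true := by
    rw [add_sub_cancel, add_sub_cancel]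
    exact ha
  have key : b.At P.tile L J → b.known = true → c' ∈ b.cons ∨ c' ∈ b.ext := fun hat hk =>
    class_blk hat hk hin ha' hc' hc
  clear hsh hact ha ha' hin hc'
  cases hhas with
  | V l j hl hj h =>
    rcases key (at_V hP hl hj h) known_V with h1 | h1
    · rw [cons_V] at h1
      exact hV l hl j hj h c' h1
    · simp only [bV, List.mem_cons, List.not_mem_nil, or_false] at h1
      exact class_ext hl hj p xp3 xh3 xp2 h1 hc
  | T l j hl hj h =>
    rcases key (at_T hP hl hj h) known_T with h1 | h1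
    · rw [cons_T] at h1
      exact hT l hl j hj h c' h1
    · simp only [bT, List.mem_cons, List.not_mem_nil, or_false] at h1
      have he : P.ended (l + 1) j = true := by
        rw [ended_succ P hl, (tt_eq_two.1 h).2, Bool.or_true]
      rcases h1 with h1 | h1 | h1 | h1
      · exact class_ext hl hj p xp3 xh3 xp2 (Or.inl h1) hc
      · exact class_ext hl hj p xp3 xh3 xp2 (Or.inr (Or.inl h1)) hc
      · exact class_ext hl hj p xp3 xh3 xp2 (Or.inr (Or.inr h1)) hc
      · subst h1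
        exact xh1 l hl j hj he
  | X l j hl hj h =>
    rcases key (at_X hP hl hj h) known_X with h1 | h1
    · rw [cons_X] at h1
      exact hX l hl j hj h c' h1
    · simp only [bX, List.mem_cons, List.not_mem_nil, or_false] at h1
      have he : P.ended (l + 1) j = true := by
        rw [ended_succ P hl, (tt_eq_three.1 h).1, Bool.true_or]
      rcases h1 with h1 | h1 | h1 | h1
      · exact class_ext hl hj p xp3 xh3 xp2 (Or.inl h1) hc
      · exact class_ext hl hj p xp3 xh3 xp2 (Or.inr (Or.inl h1)) hc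
      · exact class_ext hl hj p xp3 xh3 xp2 (Or.inr (Or.inr h1)) hc
      · subst h1
        exact xh1 l hl j hj he
  | A l j hl hj h =>
    rcases key (at_A hP hl hj h) known_A with h1 | h1
    · rw [cons_A] at h1
      exact hA l hl j hj h c' h1
    · simp only [bA, List.mem_cons, List.not_mem_nil, or_false] at h1
      have he : P.ended (l + 1) j = true := by
        rw [ended_succ P hl, (tt_eq_four.1 h).1, Bool.true_or]
      rcases h1 with h1 | h1 | h1 | h1
      · exact class_ext hl hj p xp3 xh3 xp2 (Or.inl h1) hc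
      · exact class_ext hl hj p xp3 xh3 xp2 (Or.inr (Or.inl h1)) hc
      · exact class_ext hl hj p xp3 xh3 xp2 (Or.inr (Or.inr h1)) hc
      · subst h1
        exact xh1 l hl j hj he
  | G0 g h =>
    rcases key (at_G0 hP h) known_G0 with h1 | h1
    · rw [cons_G0] at h1
      exact hG0 g h c' h1
    · simp only [bG0, List.not_mem_nil] at h1
  | G1 g h =>
    rcases key (at_G1 hP h) known_G1 with h1 | h1
    · rw [cons_G1] at h1
      exact hG1 g h c' h1
    · simp only [bG1, List.not_mem_nil] at h1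
  | S v h =>
    rcases key (at_S hP h) known_S with h1 | h1
    · rw [cons_S] at h1
      exact hS v h c' h1
    · simp only [bS, List.not_mem_nil] at h1
  | U =>
    rcases key (at_U hP) known_U with h1 | h1
    · rw [cons_U] at h1
      exact hU c' h1
    · simp only [bU, List.mem_cons, List.not_mem_nil, or_false] at h1
      subst h1
      exact xU
  | E k h1 h2 =>
    rcases key (at_E hP h1 h2) known_E with h3 | h3
    · rw [cons_E] at h3
      exact hE k h1 h2 c' h3
    · simp only [bE, List.mem_cons, List.not_mem_nil, or_false] at h3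
      subst h3
      exact xE k h1 h2
  | F =>
    rcases key (at_F hP) known_F with h1 | h1
    · rw [cons_F] at h1
      exact hF c' h1
    · simp only [bF, List.not_mem_nil] at h1

/-- the active rooms lie in a box -/
theorem act_box (P : Lay) {x y : ℤ} (h : (netOf P.tile).act x y = true) :
    0 ≤ x ∧ x < 9 * (P.ns + 3) ∧ -(18 * P.K : ℤ) ≤ y ∧ y < 9 * P.nl := by
  have hne : P.tile (x / 9) (y / 9) ≠ 0 := by
    intro h0
    have h1 : tbit masks (P.tile (x / 9) (y / 9)) (x % 9) (y % 9) = true := h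
    rw [h0] at h1
    simp [tbit, masks] at h1
  have hL0 : 0 ≤ x / 9 := by
    by_contra h; exact hne (tile_left (by omega))
  have hL2 : x / 9 ≤ P.ns + 2 := by
    by_contra h; exact hne (tile_far (by omega))
  have hJ1 : y / 9 < P.nl := by
    by_contra h; exact hne (tile_top (by omega))
  have hJ0 : -(2 * P.K : ℤ) ≤ y / 9 := by
    by_contra h; exact hne (tile_below (by omega))
  refine ⟨by omega, by omega, by omega, by omega⟩

/-- there are finitely many constraints -/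
theorem finite_con (P : Lay) : {c : Con | c.In (netOf P.tile) = true}.Finite := by
  classical
  refine Set.Finite.subset (((Finset.Ico (0 : ℤ) (9 * (P.ns + 3))) ×ˢ
    (Finset.Ico (-(18 * P.K : ℤ)) (9 * P.nl))).biUnion
      (fun r => (anchored r.1 r.2).toFinset)).finite_toSet ?_
  intro c hc
  obtain ⟨x, y, hact, hsh⟩ := class_anchor c
  obtain ⟨h1, h2, h3, h4⟩ := act_box P (hact _ hc)
  obtain ⟨c', hc', hcc⟩ := hsh 0 0
  have h5 : c = c' := by
    rw [hcc]
    rcases c' with ⟨x, y⟩ | ⟨x, y⟩ | ⟨x, y⟩ | ⟨x, y⟩ | ⟨x, y⟩ | ⟨x, y⟩ <;>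
      simp only [Con.shift, zero_add]
  rw [sub_zero, sub_zero, ← h5] at hc'
  rw [Finset.mem_coe, Finset.mem_biUnion]
  refine ⟨(x, y), ?_, ?_⟩
  · rw [Finset.mem_product, Finset.mem_Ico, Finset.mem_Ico]
    exact ⟨⟨h1, h2⟩, h3, h4⟩
  · rw [List.mem_toFinset]
    exact hc'

end Pool.Agent.Lib.MP_6ff0c5_lc.N
end

section

/-!
MP_6ff0c5_lc, part B, completeness: the crossbar.
-/

set_option autoImplicit false

namespace Pool.Agent.Lib.MP_6ff0c5_lc.N

/-- lane values: `Y j` at the source, slack `d` on every wire -/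
noncomputable def ylane (P : Lay) (Y : ℕ → ℝ) (d : ℝ) (l j : ℕ) : ℝ := Y j + d * (1 + 35 * ((P.ns : ℝ) - 1 - l))

/-- string values -/
noncomputable def sstr (P : Lay) (Y : ℕ → ℝ) (d : ℝ) (l : ℕ) : ℕ → ℝ
  | 0 => d
  | j + 1 => sstr P Y d l j + (if P.tap l j then ylane P Y d l j else 0) + dOut (P.tt l j) * d + d

/-- the states of the tiles of the crossbar -/
noncomputable def crSt (P : Lay) (Y : ℕ → ℝ) (d : ℝ) (l j : ℕ) : ℤ → ℤ → ℝ × ℝ :=
  tileSt (P.tt l j) (ylane P Y d l j) (sstr P Y d l j) d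

variable {P : Lay}

/-- the rooms of the internal constraints of a tile are in the tile -/
private theorem box_of {id : ℕ} (hid : id = 1 ∨ id = 2 ∨ id = 3 ∨ id = 4) {c : Con} (hc : c ∈ conOf id) :
    ∀ r ∈ c.rooms, 0 ≤ r.1 ∧ r.1 < 9 ∧ 0 ≤ r.2 ∧ r.2 < 9 := by
  have hV : (cV.all fun c => decide (∀ r ∈ c.rooms, 0 ≤ r.1 ∧ r.1 < 9 ∧ 0 ≤ r.2 ∧ r.2 < 9)) = true := by decide +kernel
  have hT : (cT.all fun c => decide (∀ r ∈ c.rooms, 0 ≤ r.1 ∧ r.1 < 9 ∧ 0 ≤ r.2 ∧ r.2 < 9)) = true := by decide +kernel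
  have hX : (cX.all fun c => decide (∀ r ∈ c.rooms, 0 ≤ r.1 ∧ r.1 < 9 ∧ 0 ≤ r.2 ∧ r.2 < 9)) = true := by decide +kernel
  have hA : (cA.all fun c => decide (∀ r ∈ c.rooms, 0 ≤ r.1 ∧ r.1 < 9 ∧ 0 ≤ r.2 ∧ r.2 < 9)) = true := by decide +kernel
  rcases hid with rfl | rfl | rfl | rfl
  · exact of_decide_eq_true (List.all_eq_true.1 hV c hc)
  · exact of_decide_eq_true (List.all_eq_true.1 hT c hc)
  · exact of_decide_eq_true (List.all_eq_true.1 hX c hc)
  · exact of_decide_eq_true (List.all_eq_true.1 hA c hc)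

private theorem glue_cr' (s : Sts) {x y : ℤ} {l j : ℕ} (hl : l < P.ns) (hx : 0 ≤ x) (hx' : x < 9) (hy : 0 ≤ y)
    (hy' : y < 9) : glue P s (9 * (l : ℤ) + x) (9 * (j : ℤ) + y) = s.cr l j x y :=
  glue_cr s hl hx hx' hy hy'

private theorem ylane_zero (P : Lay) (Y : ℕ → ℝ) (l j : ℕ) : ylane P Y 0 l j = Y j := by
  unfold ylane
  ring

theorem sstr_zero (P : Lay) (Y : ℕ → ℝ) (l j : ℕ) :
    sstr P Y 0 l j = ((List.range j).map fun i => if P.tap l i then Y i else 0).sum := by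
  induction j with
  | zero => simp [sstr]
  | succ j ih =>
    rw [sstr, ih, ylane_zero, List.range_succ, List.map_append, List.sum_append]
    simp

theorem crSt_slack (Y : ℕ → ℝ) (d : ℝ) (l j : ℕ) {c : Con} (hc : c ∈ conOf (P.tt l j)) : c.slack (crSt P Y d l j) = d := by
  exact tileSt_slack (tt_cases P l j) _ _ _ hc

/-- the wire of a string between the tiles `(l, j)` and `(l, j + 1)` -/
theorem wire_str {s : Sts} {Y : ℕ → ℝ} {d : ℝ} (hs : s.cr = crSt P Y d) {l j : ℕ} (hl : l < P.ns) (hj : j + 1 < P.nl) :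
    ((Con.h3 3 0).shift (9 * l) (9 * (j + 1 : ℕ))).slack (glue P s) = d := by
  rw [slack_shift]
  change (loc (glue P s) l ((j + 1 : ℕ) : ℤ) 3 (0 - 1)).2 + a3 (loc (glue P s) l ((j + 1 : ℕ) : ℤ) 3 0) = d
  have e1 : loc (glue P s) l ((j + 1 : ℕ) : ℤ) 3 (0 - 1) = s.cr l j 3 8 := by
    change glue P s (9 * (l : ℤ) + 3) (9 * ((j + 1 : ℕ) : ℤ) + (0 - 1)) = _
    rw [show (9 * ((j + 1 : ℕ) : ℤ) + (0 - 1)) = 9 * (j : ℤ) + 8 by push_cast; ring]
    exact glue_cr' s hl (by norm_num) (by norm_num) (by norm_num) (by norm_num)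
  have e2 : loc (glue P s) l ((j + 1 : ℕ) : ℤ) 3 0 = s.cr l (j + 1) 3 0 :=
    glue_cr' s hl (by norm_num) (by norm_num) (by norm_num) (by norm_num)
  rw [e1, e2, hs, crSt, crSt, tileSt_top (tt_cases P l j), tileSt_bot (tt_cases P l (j + 1)), sstr]
  have e3 : (if P.tt l j = 2 ∨ P.tt l j = 4 then ylane P Y d l j else 0) =
      if P.tap l j then ylane P Y d l j else 0 := by
    simp only [tt_eq_two, tt_eq_four]
    cases P.tap l j <;> cases P.ended l j <;> simp
  rw [e3]
  ring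

/-- the wires of the lanes -/
theorem wire_lane {s : Sts} {Y : ℕ → ℝ} {d : ℝ} (hs : s.cr = crSt P Y d) (hY : ∀ j < P.nl, (glue P s (9 * P.ns) (9 * j + 5)).2 = -Y j)
    {l j : ℕ} (hl : l < P.ns) (hj : j < P.nl) (he : P.ended (l + 1) j = true) :
    ((Con.h1 8 5).shift (9 * l) (9 * j)).slack (glue P s) = d := by
  rw [slack_shift]
  change (loc (glue P s) l j (8 + 1) 5).2 + (loc (glue P s) l j 8 5).1 = d
  have e2 : loc (glue P s) l j 8 5 = s.cr l j 8 5 :=
    glue_cr' s hl (by norm_num) (by norm_num) (by norm_num) (by norm_num)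
  have ht : P.tt l j = 2 ∨ P.tt l j = 3 ∨ P.tt l j = 4 := by
    rcases tt_cases P l j with h | h
    · exfalso
      rw [tt_eq_one] at h
      rw [ended_succ P hl, h.1, h.2] at he
      simp at he
    · exact h
  have e3 : (loc (glue P s) l j 8 5).1 = ylane P Y d l j := by
    rw [e2, hs, crSt, tileSt_right ht]
  have e1 : (loc (glue P s) l j (8 + 1) 5).2 = -(Y j + d * (35 * ((P.ns : ℝ) - 1 - l))) := by
    rcases Nat.lt_or_ge (l + 1) P.ns with h1 | h1
    · have ht' : P.tt (l + 1) j = 3 ∨ P.tt (l + 1) j = 4 := by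
        rcases tt_cases P (l + 1) j with h | h | h
        · rw [tt_eq_one, he] at h
          exact absurd h.1 (by simp)
        · rw [tt_eq_two, he] at h
          exact absurd h.1 (by simp)
        · exact h
      have e4 : loc (glue P s) l j (8 + 1) 5 = s.cr (l + 1) j 0 5 := by
        change glue P s (9 * (l : ℤ) + (8 + 1)) (9 * (j : ℤ) + 5) = _
        rw [show (9 * (l : ℤ) + (8 + 1)) = 9 * ((l + 1 : ℕ) : ℤ) + 0 by push_cast; ring]
        exact glue_cr' s h1 (by norm_num) (by norm_num) (by norm_num) (by norm_num)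
      rw [e4, hs, crSt, tileSt_left ht', ylane]
      push_cast
      ring
    · have h2 : P.ns = l + 1 := by omega
      have e4 : loc (glue P s) l j (8 + 1) 5 = glue P s (9 * P.ns) (9 * j + 5) := by
        change glue P s (9 * (l : ℤ) + (8 + 1)) (9 * (j : ℤ) + 5) = _
        rw [h2]
        push_cast
        congr 1
      rw [e4, hY j hj, h2]
      push_cast
      ring
  rw [e1, e3, ylane]
  ring

theorem pin_bot {s : Sts} {Y : ℕ → ℝ} {d : ℝ} (hs : s.cr = crSt P Y d) {l : ℕ} (hl : l < P.ns) :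
    ((Con.p3 3 0).shift (9 * l) (9 * (0 : ℕ))).slack (glue P s) = d := by
  rw [slack_shift]
  change a3 (loc (glue P s) l ((0 : ℕ) : ℤ) 3 0) = d
  have e2 : loc (glue P s) l ((0 : ℕ) : ℤ) 3 0 = s.cr l 0 3 0 :=
    glue_cr' s hl (by norm_num) (by norm_num) (by norm_num) (by norm_num)
  rw [e2, hs, crSt, tileSt_bot (tt_cases P l 0), sstr]

theorem pin_top {s : Sts} {Y : ℕ → ℝ} (hs : s.cr = crSt P Y 0) {l : ℕ} (hl : l < P.ns) :
    ((Con.p2 3 8).shift (9 * l) (9 * (P.nl - 1 : ℕ))).slack (glue P s) =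
      -((List.range P.nl).map fun i => if P.tap l i then Y i else 0).sum := by
  rw [slack_shift]
  change (loc (glue P s) l ((P.nl - 1 : ℕ) : ℤ) 3 8).2 = _
  have e2 : loc (glue P s) l ((P.nl - 1 : ℕ) : ℤ) 3 8 = s.cr l (P.nl - 1) 3 8 :=
    glue_cr' s hl (by norm_num) (by norm_num) (by norm_num) (by norm_num)
  have hn : P.nl - 1 + 1 = P.nl := by
    unfold Lay.nl
    omega
  have e4 := sstr_zero P Y l (P.nl - 1 + 1)
  rw [sstr] at e4
  rw [hn] at e4
  have e3 : (if P.tt l (P.nl - 1) = 2 ∨ P.tt l (P.nl - 1) = 4 then ylane P Y 0 l (P.nl - 1) else 0) =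
      if P.tap l (P.nl - 1) then ylane P Y 0 l (P.nl - 1) else 0 := by
    simp only [tt_eq_two, tt_eq_four]
    cases P.tap l (P.nl - 1) <;> cases P.ended l (P.nl - 1) <;> simp
  rw [e2, hs, crSt, tileSt_top (tt_cases P l (P.nl - 1)), e3, ← e4]
  ring

/-- **The constraints of the crossbar** hold by their leading order. -/
theorem cross_good {sF s2 s3 s4 : Sts} {Y2 Y3 : ℕ → ℝ} (hF : ∀ l j x y, sF.cr l j x y = 0) (h2 : s2.cr = crSt P Y2 0)
    (h3 : s3.cr = crSt P Y3 1) (hF' : ∀ j < P.nl, glue P sF (9 * P.ns) (9 * j + 5) = 0)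
    (hY2 : ∀ j < P.nl, (glue P s2 (9 * P.ns) (9 * j + 5)).2 = -Y2 j)
    (hY3 : ∀ j < P.nl, (glue P s3 (9 * P.ns) (9 * j + 5)).2 = -Y3 j)
    (hneg : ∀ l < P.ns, ((List.range P.nl).map fun j => if P.tap l j then Y2 j else 0).sum < 0)
    {p : Con → Prop} (hp : p = Good (glue P sF) (glue P s2) (glue P s3) (glue P s4)) :
    (∀ l < P.ns, ∀ j < P.nl, P.tt l j = 1 → ∀ c ∈ cV, p (c.shift (9 * l) (9 * j))) ∧
    (∀ l < P.ns, ∀ j < P.nl, P.tt l j = 2 → ∀ c ∈ cT, p (c.shift (9 * l) (9 * j))) ∧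
    (∀ l < P.ns, ∀ j < P.nl, P.tt l j = 3 → ∀ c ∈ cX, p (c.shift (9 * l) (9 * j))) ∧
    (∀ l < P.ns, ∀ j < P.nl, P.tt l j = 4 → ∀ c ∈ cA, p (c.shift (9 * l) (9 * j))) ∧
    (∀ l < P.ns, p ((Con.p3 3 0).shift (9 * l) (9 * (0 : ℕ)))) ∧
    (∀ l < P.ns, ∀ j : ℕ, j + 1 < P.nl → p ((Con.h3 3 0).shift (9 * l) (9 * (j + 1 : ℕ)))) ∧
    (∀ l < P.ns, p ((Con.p2 3 8).shift (9 * l) (9 * (P.nl - 1 : ℕ)))) ∧
    (∀ l < P.ns, ∀ j < P.nl, P.ended (l + 1) j = true → p ((Con.h1 8 5).shift (9 * l) (9 * j))) := by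
  subst hp
  -- the rooms of the tiles
  have hF0 : ∀ {l j : ℕ} {x y : ℤ}, l < P.ns → 0 ≤ x → x < 9 → 0 ≤ y → y < 9 →
      glue P sF (9 * (l : ℤ) + x) (9 * (j : ℤ) + y) = 0 := fun hl a1 a2 a3 a4 => by
    rw [glue_cr' sF hl a1 a2 a3 a4, hF]
  have tile : ∀ l < P.ns, ∀ j < P.nl, ∀ c ∈ conOf (P.tt l j),
      Good (glue P sF) (glue P s2) (glue P s3) (glue P s4) (c.shift (9 * l) (9 * j)) := by
    intro l hl j _ c hc
    have hb := box_of (tt_cases P l j) hc
    apply good_shift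
    refine Good.o3 (fun r hr => ?_) ?_ ?_
    · obtain ⟨a1, a2, a3, a4⟩ := hb r hr
      exact hF0 hl a1 a2 a3 a4
    · rw [slack_congr (w := crSt P Y2 0 l j) fun r hr => ?_]
      · exact crSt_slack Y2 0 l j hc
      · obtain ⟨a1, a2, a3, a4⟩ := hb r hr
        rw [← h2]
        exact glue_cr' s2 hl a1 a2 a3 a4
    · rw [slack_congr (w := crSt P Y3 1 l j) fun r hr => ?_]
      · rw [crSt_slack Y3 1 l j hc]
        exact one_pos
      · obtain ⟨a1, a2, a3, a4⟩ := hb r hr
        rw [← h3]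
        exact glue_cr' s3 hl a1 a2 a3 a4
  refine ⟨fun l hl j hj ht c hc => tile l hl j hj c (by rw [ht]; exact hc),
    fun l hl j hj ht c hc => tile l hl j hj c (by rw [ht]; exact hc),
    fun l hl j hj ht c hc => tile l hl j hj c (by rw [ht]; exact hc),
    fun l hl j hj ht c hc => tile l hl j hj c (by rw [ht]; exact hc), ?_, ?_, ?_, ?_⟩
  · intro l hl
    refine Good.o3 (fun r hr => ?_) (pin_bot h2 hl) (by rw [pin_bot h3 hl]; exact one_pos)
    simp only [Con.shift, Con.rooms, List.mem_cons, List.not_mem_nil, or_false] at hr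
    subst hr
    exact hF0 hl (by norm_num) (by norm_num) (by norm_num) (by norm_num)
  · intro l hl j hj
    refine Good.o3 (fun r hr => ?_) (wire_str h2 hl hj) (by rw [wire_str h3 hl hj]; exact one_pos)
    simp only [Con.shift, Con.rooms, List.mem_cons, List.not_mem_nil, or_false] at hr
    rcases hr with rfl | rfl
    · change glue P sF (9 * (l : ℤ) + 3) (9 * ((j + 1 : ℕ) : ℤ) + 0 - 1) = 0
      rw [show (9 * ((j + 1 : ℕ) : ℤ) + 0 - 1) = 9 * (j : ℤ) + 8 by push_cast; ring]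
      exact hF0 hl (by norm_num) (by norm_num) (by norm_num) (by norm_num)
    · exact hF0 hl (by norm_num) (by norm_num) (by norm_num) (by norm_num)
  · intro l hl
    refine Good.o2 (fun r hr => ?_) ?_
    · simp only [Con.shift, Con.rooms, List.mem_cons, List.not_mem_nil, or_false] at hr
      subst hr
      exact hF0 hl (by norm_num) (by norm_num) (by norm_num) (by norm_num)
    · rw [pin_top h2 hl]
      linarith [hneg l hl]
  · intro l hl j hj he
    refine Good.o3 (fun r hr => ?_) (wire_lane h2 hY2 hl hj he) (by rw [wire_lane h3 hY3 hl hj he]; exact one_pos)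
    simp only [Con.shift, Con.rooms, List.mem_cons, List.not_mem_nil, or_false] at hr
    rcases hr with rfl | rfl
    · change glue P sF (9 * (l : ℤ) + 8 + 1) (9 * (j : ℤ) + 5) = 0
      rcases Nat.lt_or_ge (l + 1) P.ns with h1 | h1
      · rw [show (9 * (l : ℤ) + 8 + 1) = 9 * ((l + 1 : ℕ) : ℤ) + 0 by push_cast; ring]
        exact hF0 h1 (by norm_num) (by norm_num) (by norm_num) (by norm_num)
      · have h2 : P.ns = l + 1 := by omega
        have := hF' j hj
        rw [h2] at this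
        rw [← this]
        push_cast
        congr 1
    · exact hF0 hl (by norm_num) (by norm_num) (by norm_num) (by norm_num)

end Pool.Agent.Lib.MP_6ff0c5_lc.N
end

section

/-!
MP_6ff0c5_lc, part B, completeness: the final theorem.
-/

set_option autoImplicit false

namespace Pool.Agent.Lib.MP_6ff0c5_lc.N

open LQ (Inst Form)

/-- the frozen state -/
noncomputable def gF (P : Lay) (t : ℕ → ℝ) : Sts where
  cr _ _ _ _ := 0
  ga _ _ _ := 0
  so _ _ _ := 0
  un := stU (eOf (t 1))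
  ch := chSt P.K t

/-- the value of the source of a lane in second order: lane `0` is `-u`, lane `1` is `u = 1`, `2 + 2 v` is `z_v` -/
noncomputable def Y2 (z : ℕ → ℝ) (j : ℕ) : ℝ :=
  if j = 0 then -1 else if j = 1 then 1 else if j % 2 = 0 then z ((j - 2) / 2) else -z ((j - 2) / 2)

/-- the value of the source of a lane in third order -/
noncomputable def Y3 (P : Lay) (j : ℕ) : ℝ :=
  if 2 ≤ j ∧ j < 2 + 6 * P.G.length then (if j % 2 = 0 then 4 else 22) else if j % 2 = 0 then 5 else 24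

noncomputable def g2 (P : Lay) (z : ℕ → ℝ) : Sts where
  cr := crSt P (Y2 z) 0
  ga g := gateSt2 (P.G.getD g false) (z (3 * g)) (z (3 * g + 1)) (z (3 * g + 2))
  so v := srcSt (z (3 * P.G.length + v))
  un := castSt tzU
  ch _ _ _ := 0

noncomputable def g3 (P : Lay) : Sts where
  cr := crSt P (Y3 P) 1
  ga g := gateSt3 (P.G.getD g false)
  so _ := castSt tdS
  un := castSt tdU
  ch _ _ _ := 0

noncomputable def g4 (P : Lay) (z : ℕ → ℝ) : Sts where
  cr _ _ _ _ := 0
  ga g := gateSt4 (P.G.getD g false) (z (3 * g)) (z (3 * g + 1)) (z (3 * g + 2))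
  so _ _ _ := 0
  un _ _ := 0
  ch _ _ _ := 0

variable {P : Lay}

private theorem fin_gate2 (b : Bool) (z : ℕ → ℝ) (g : ℕ) {i : ℕ} (hi : i < 6) :
    (gateSt2 b (z (3 * g)) (z (3 * g + 1)) (z (3 * g + 2)) 0 (9 * i + 5)).2 =
      -Y2 z (2 + 6 * g + i) := by
  have h0 : Y2 z (2 + 6 * g + i) = if i % 2 = 0 then z (3 * g + i / 2) else -z (3 * g + i / 2) := by
    unfold Y2
    rw [if_neg (by omega), if_neg (by omega)]
    have h1 : (2 + 6 * g + i - 2) / 2 = 3 * g + i / 2 := by omega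
    rw [h1]
    by_cases h7 : i % 2 = 0
    · rw [if_pos h7, if_pos (by omega)]
    · rw [if_neg h7, if_neg (by omega)]
  rw [h0]
  obtain ⟨-, -, -, a1, a2, a3, a4, a5, a6⟩ := tzG00_val
  obtain ⟨-, -, -, b1, b2, b3, b4, b5, b6⟩ := tzG01_val
  obtain ⟨-, -, -, c1, c2, c3, c4, c5, c6⟩ := tzG02_val
  obtain ⟨-, -, -, d1, d2, d3, d4, d5, d6⟩ := tzG10_val
  obtain ⟨-, -, -, e1, e2, e3, e4, e5, e6⟩ := tzG11_val
  obtain ⟨-, -, -, f1, f2, f3, f4, f5, f6⟩ := tzG12_val
  have h6 : i = 0 ∨ i = 1 ∨ i = 2 ∨ i = 3 ∨ i = 4 ∨ i = 5 := by omega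
  rcases h6 with rfl | rfl | rfl | rfl | rfl | rfl
  · cases b
    · norm_num [gateSt2, castSt, a1, b1, c1]
    · norm_num [gateSt2, castSt, d1, e1, f1]
  · cases b
    · norm_num [gateSt2, castSt, a2, b2, c2]
    · norm_num [gateSt2, castSt, d2, e2, f2]
  · cases b
    · norm_num [gateSt2, castSt, a3, b3, c3]
    · norm_num [gateSt2, castSt, d3, e3, f3]
  · cases b
    · norm_num [gateSt2, castSt, a4, b4, c4]
    · norm_num [gateSt2, castSt, d4, e4, f4]
  · cases b
    · norm_num [gateSt2, castSt, a5, b5, c5]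
    · norm_num [gateSt2, castSt, d5, e5, f5]
  · cases b
    · norm_num [gateSt2, castSt, a6, b6, c6]
    · norm_num [gateSt2, castSt, d6, e6, f6]

private theorem fin_gate3 (b : Bool) {i : ℕ} (hi : i < 6) :
    (gateSt3 b 0 (9 * i + 5)).2 = -(if i % 2 = 0 then 4 else 22 : ℝ) := by
  obtain ⟨-, -, -, a1, a2, a3, a4, a5, a6⟩ := tdG0_val
  obtain ⟨-, -, -, b1, b2, b3, b4, b5, b6⟩ := tdG1_val
  have h6 : i = 0 ∨ i = 1 ∨ i = 2 ∨ i = 3 ∨ i = 4 ∨ i = 5 := by omega
  rcases h6 with rfl | rfl | rfl | rfl | rfl | rfl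
  · cases b
    · norm_num [gateSt3, castSt, a1]
    · norm_num [gateSt3, castSt, b1]
  · cases b
    · norm_num [gateSt3, castSt, a2]
    · norm_num [gateSt3, castSt, b2]
  · cases b
    · norm_num [gateSt3, castSt, a3]
    · norm_num [gateSt3, castSt, b3]
  · cases b
    · norm_num [gateSt3, castSt, a4]
    · norm_num [gateSt3, castSt, b4]
  · cases b
    · norm_num [gateSt3, castSt, a5]
    · norm_num [gateSt3, castSt, b5]
  · cases b
    · norm_num [gateSt3, castSt, a6]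
    · norm_num [gateSt3, castSt, b6]

private theorem fin_box {b : Blk} {l : List Con}
    (h1 : (l.all fun c => decide (∀ r ∈ c.rooms, r ∈ b.rooms)) = true)
    (h2 : (b.rooms.all fun r => b.inside r.1 r.2) = true) {c : Con} (hc : c ∈ l) {r : ℤ × ℤ}
    (hr : r ∈ c.rooms) : (0 ≤ r.1 ∧ r.1 < 9 * b.w) ∧ 0 ≤ r.2 ∧ r.2 < 9 * b.h := by
  have h3 := List.all_eq_true.1 h1 c hc
  rw [decide_eq_true_eq] at h3
  exact Blk.inside_iff.1 (List.all_eq_true.1 h2 r (h3 r hr))

private theorem fin_out (K : ℕ) (t : ℕ → ℝ) (k : ℕ) :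
    chSt K t k 10 17 = (eOf (t k) / 43, eOf (t k)) := by
  unfold chSt
  split_ifs
  · exact stE_out _ _
  · exact stF_out _

/-- no frozen values at the sources (`tfU_u`: the comparator vanishes at the rooms `(0, 5)`, `(0, 14)`) -/
theorem gF_src (P : Lay) (t : ℕ → ℝ) {j : ℕ} (hj : j < P.nl) : glue P (gF P t) (9 * P.ns) (9 * j + 5) = 0 := by
  have h1 : ¬ (9 * (P.ns : ℤ) < 9 * P.ns) := lt_irrefl _
  unfold glue gF
  simp only
  rw [if_pos (by omega), if_neg h1, sub_self]
  split_ifs with h2 h3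
  · have h4 : tfU 0 5 = (0, 0) ∧ tfU 0 14 = (0, 0) := by decide +kernel
    have h5 : j = 0 ∨ j = 1 := by omega
    rcases h5 with rfl | rfl
    · unfold stU castSt
      norm_num [h4.1]
    · unfold stU castSt
      norm_num [h4.2]
  · rfl
  · rfl

/-- source values in second order (`tzU_val`, `tzG00_val`, …, `tzS_val`) -/
theorem g2_src (P : Lay) (z : ℕ → ℝ) {j : ℕ} (hj : j < P.nl) : (glue P (g2 P z) (9 * P.ns) (9 * j + 5)).2 = -Y2 z j := by
  have h1 : ¬ (9 * (P.ns : ℤ) < 9 * P.ns) := lt_irrefl _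
  have hnl : P.nl = 2 + 2 * (3 * P.G.length + P.V) := rfl
  unfold glue g2
  simp only
  rw [if_pos (by omega), if_neg h1, sub_self]
  split_ifs with h2 h3
  · obtain ⟨-, h4, h5⟩ := tzU_val
    have h6 : j = 0 ∨ j = 1 := by omega
    rcases h6 with rfl | rfl
    · unfold castSt Y2
      norm_num [h4]
    · unfold castSt Y2
      norm_num [h5]
  · obtain ⟨g, i, hi, rfl⟩ : ∃ g i : ℕ, i < 6 ∧ j = 2 + 6 * g + i :=
      ⟨(j - 2) / 6, (j - 2) % 6, by omega, by omega⟩
    have h4 : ((9 * ((2 + 6 * g + i : ℕ) : ℤ) + 5 - 18) / 54).toNat = g := by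
      push_cast
      omega
    have h5 : (9 * ((2 + 6 * g + i : ℕ) : ℤ) + 5 - 18) % 54 = 9 * i + 5 := by
      push_cast
      omega
    rw [h4, h5]
    exact fin_gate2 _ z g hi
  · obtain ⟨v, i, hi, rfl⟩ : ∃ v i : ℕ, i < 2 ∧ j = 2 + 6 * P.G.length + 2 * v + i :=
      ⟨(j - 2 - 6 * P.G.length) / 2, (j - 2 - 6 * P.G.length) % 2, by omega, by omega⟩
    have h4 : ((9 * ((2 + 6 * P.G.length + 2 * v + i : ℕ) : ℤ) + 5 -
        9 * (2 + 6 * (P.G.length : ℤ))) / 18).toNat = v := by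
      push_cast
      omega
    have h5 : (9 * ((2 + 6 * P.G.length + 2 * v + i : ℕ) : ℤ) + 5 -
        9 * (2 + 6 * (P.G.length : ℤ))) % 18 = 9 * i + 5 := by
      push_cast
      omega
    rw [h4, h5]
    obtain ⟨-, h6, h7⟩ := tzS_val
    have h8 : i = 0 ∨ i = 1 := by omega
    rcases h8 with rfl | rfl
    · have h9 : Y2 z (2 + 6 * P.G.length + 2 * v + 0) = z (3 * P.G.length + v) := by
        unfold Y2
        rw [if_neg (by omega), if_neg (by omega), if_pos (by omega)]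
        congr 1
        omega
      rw [h9]
      unfold srcSt castSt
      norm_num [h6]
    · have h9 : Y2 z (2 + 6 * P.G.length + 2 * v + 1) = -z (3 * P.G.length + v) := by
        unfold Y2
        rw [if_neg (by omega), if_neg (by omega), if_neg (by omega)]
        congr 2
        omega
      rw [h9]
      unfold srcSt castSt
      norm_num [h7]

theorem g3_src (P : Lay) {j : ℕ} (hj : j < P.nl) : (glue P (g3 P) (9 * P.ns) (9 * j + 5)).2 = -Y3 P j := by
  have h1 : ¬ (9 * (P.ns : ℤ) < 9 * P.ns) := lt_irrefl _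
  have hnl : P.nl = 2 + 2 * (3 * P.G.length + P.V) := rfl
  unfold glue g3
  simp only
  rw [if_pos (by omega), if_neg h1, sub_self]
  split_ifs with h2 h3
  · obtain ⟨-, h4, h5⟩ := tdU_val
    have h6 : j = 0 ∨ j = 1 := by omega
    rcases h6 with rfl | rfl
    · unfold castSt Y3
      norm_num [h4]
    · unfold castSt Y3
      norm_num [h5]
  · obtain ⟨g, i, hi, rfl⟩ : ∃ g i : ℕ, i < 6 ∧ j = 2 + 6 * g + i :=
      ⟨(j - 2) / 6, (j - 2) % 6, by omega, by omega⟩
    have h5 : (9 * ((2 + 6 * g + i : ℕ) : ℤ) + 5 - 18) % 54 = 9 * i + 5 := by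
      push_cast
      omega
    rw [h5]
    have h6 : Y3 P (2 + 6 * g + i) = if i % 2 = 0 then 4 else 22 := by
      unfold Y3
      rw [if_pos (by omega)]
      by_cases h7 : i % 2 = 0
      · rw [if_pos h7, if_pos (by omega)]
      · rw [if_neg h7, if_neg (by omega)]
    rw [h6]
    exact fin_gate3 _ hi
  · obtain ⟨v, i, hi, rfl⟩ : ∃ v i : ℕ, i < 2 ∧ j = 2 + 6 * P.G.length + 2 * v + i :=
      ⟨(j - 2 - 6 * P.G.length) / 2, (j - 2 - 6 * P.G.length) % 2, by omega, by omega⟩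
    have h5 : (9 * ((2 + 6 * P.G.length + 2 * v + i : ℕ) : ℤ) + 5 -
        9 * (2 + 6 * (P.G.length : ℤ))) % 18 = 9 * i + 5 := by
      push_cast
      omega
    rw [h5]
    obtain ⟨-, h6, h7⟩ := tdS_val
    have h8 : i = 0 ∨ i = 1 := by omega
    rcases h8 with rfl | rfl
    · have h9 : Y3 P (2 + 6 * P.G.length + 2 * v + 0) = 5 := by
        unfold Y3
        rw [if_neg (by omega), if_pos (by omega)]
      rw [h9]
      unfold castSt
      norm_num [h6]
    · have h9 : Y3 P (2 + 6 * P.G.length + 2 * v + 1) = 24 := by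
        unfold Y3
        rw [if_neg (by omega), if_neg (by omega)]
      rw [h9]
      unfold castSt
      norm_num [h7]

/-- **All constraints are good** (`con_all`, `cross_good`, `G0_good`, `G1_good`, `S_good`, `U_good`, `F_ev`, `E_ev`, `E_wire`, `U_wire`). -/
theorem all_good (hP : P.OK) {t : ℕ → ℝ} (ht : ∀ k, 0 < t k) (he : ∀ k, eOf (t k) ≤ 1 / 10 ^ 6)
    (hF : ∀ c ∈ cF, c.Holds (stF (t P.K))) (hE : ∀ k, 1 ≤ k → k < P.K → ∀ c ∈ cE, c.Holds (stE (eOf (t (k + 1))) (t k)))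
    {z : ℕ → ℝ} (hg : ∀ (g : ℕ) (b : Bool), P.G[g]? = some b → 0 < LQ.gateVal b (z (3 * g)) (z (3 * g + 1)) (z (3 * g + 2)))
    (hneg : ∀ l < P.ns, ((List.range P.nl).map fun j => if P.tap l j then Y2 z j else 0).sum < 0) (c : Con)
    (hc : c.In (netOf P.tile) = true) : Good (glue P (gF P t)) (glue P (g2 P z)) (glue P (g3 P)) (glue P (g4 P z)) c := by
  obtain ⟨cV', cT', cX', cA', x1, x2, x3, x4⟩ := cross_good (P := P) (sF := gF P t) (s2 := g2 P z)
    (s3 := g3 P) (s4 := g4 P z) (Y2 := Y2 z) (Y3 := Y3 P) (fun _ _ _ _ => rfl) rfl rfl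
    (fun j hj => gF_src P t hj) (fun j hj => g2_src P z hj) (fun j hj => g3_src P hj) hneg rfl
  refine con_all hP (Good (glue P (gF P t)) (glue P (g2 P z)) (glue P (g3 P)) (glue P (g4 P z)))
    cV' cT' cX' cA' ?_ ?_ ?_ ?_ ?_ ?_ x1 x2 x3 x4 ?_ ?_ c hc
  · intro g hgs c hcc
    have hgl : g < P.G.length := (List.getElem?_eq_some_iff.1 hgs).1
    have hgd : P.G.getD g false = false := by
      rw [List.getD_eq_getElem?_getD, hgs]
      rfl
    refine good_shift (good_congr ?_ ?_ ?_ ?_ (G0_good (hg g false hgs) hcc))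
    · intro r hr
      obtain ⟨⟨h1, -⟩, h2, h3⟩ := fin_box rooms_G0 inside_G0 hcc hr
      rw [glue_ga _ hgl h1 h2 h3]
      rfl
    · intro r hr
      obtain ⟨⟨h1, -⟩, h2, h3⟩ := fin_box rooms_G0 inside_G0 hcc hr
      rw [glue_ga _ hgl h1 h2 h3]
      unfold g2
      simp only
      rw [hgd]
    · intro r hr
      obtain ⟨⟨h1, -⟩, h2, h3⟩ := fin_box rooms_G0 inside_G0 hcc hr
      rw [glue_ga _ hgl h1 h2 h3]
      unfold g3
      simp only
      rw [hgd]
    · intro r hr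
      obtain ⟨⟨h1, -⟩, h2, h3⟩ := fin_box rooms_G0 inside_G0 hcc hr
      rw [glue_ga _ hgl h1 h2 h3]
      unfold g4
      simp only
      rw [hgd]
  · intro g hgs c hcc
    have hgl : g < P.G.length := (List.getElem?_eq_some_iff.1 hgs).1
    have hgd : P.G.getD g false = true := by
      rw [List.getD_eq_getElem?_getD, hgs]
      rfl
    refine good_shift (good_congr ?_ ?_ ?_ ?_ (G1_good (hg g true hgs) hcc))
    · intro r hr
      obtain ⟨⟨h1, -⟩, h2, h3⟩ := fin_box rooms_G1 inside_G1 hcc hr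
      rw [glue_ga _ hgl h1 h2 h3]
      rfl
    · intro r hr
      obtain ⟨⟨h1, -⟩, h2, h3⟩ := fin_box rooms_G1 inside_G1 hcc hr
      rw [glue_ga _ hgl h1 h2 h3]
      unfold g2
      simp only
      rw [hgd]
    · intro r hr
      obtain ⟨⟨h1, -⟩, h2, h3⟩ := fin_box rooms_G1 inside_G1 hcc hr
      rw [glue_ga _ hgl h1 h2 h3]
      unfold g3
      simp only
      rw [hgd]
    · intro r hr
      obtain ⟨⟨h1, -⟩, h2, h3⟩ := fin_box rooms_G1 inside_G1 hcc hr
      rw [glue_ga _ hgl h1 h2 h3]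
      unfold g4
      simp only
      rw [hgd]
  · intro v _ c hcc
    refine good_shift (good_congr ?_ ?_ ?_ (fun _ _ => rfl)
      (S_good (z (3 * P.G.length + v)) _ hcc))
    · intro r hr
      obtain ⟨⟨h1, -⟩, h2, h3⟩ := fin_box rooms_S inside_S hcc hr
      rw [glue_so _ h1 h2 h3]
      rfl
    · intro r hr
      obtain ⟨⟨h1, -⟩, h2, h3⟩ := fin_box rooms_S inside_S hcc hr
      rw [glue_so _ h1 h2 h3]
      rfl
    · intro r hr
      obtain ⟨⟨h1, -⟩, h2, h3⟩ := fin_box rooms_S inside_S hcc hr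
      rw [glue_so _ h1 h2 h3]
      rfl
  · intro c hcc
    refine good_shift (good_congr ?_ ?_ ?_ (fun _ _ => rfl)
      (U_good (eOf_pos (ht 1)) (he 1) _ hcc))
    · intro r hr
      obtain ⟨⟨h1, -⟩, h2, h3⟩ := fin_box rooms_U inside_U hcc hr
      rw [glue_un _ h1 h2 h3]
      rfl
    · intro r hr
      obtain ⟨⟨h1, -⟩, h2, h3⟩ := fin_box rooms_U inside_U hcc hr
      rw [glue_un _ h1 h2 h3]
      rfl
    · intro r hr
      obtain ⟨⟨h1, -⟩, h2, h3⟩ := fin_box rooms_U inside_U hcc hr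
      rw [glue_un _ h1 h2 h3]
      rfl
  · intro k hk1 hk2 c hcc
    refine Good.o0 ((holds_shift _ _ _ _).2 (holds_congr ?_ (hE k hk1 hk2 c hcc)))
    intro r hr
    obtain ⟨-, h2, h3⟩ := fin_box rooms_E inside_E hcc hr
    rw [glue_ch _ hk1 h2 h3]
    show _ = chSt P.K t k r.1 r.2
    unfold chSt
    rw [if_pos hk2]
  · intro c hcc
    refine Good.o0 ((holds_shift _ _ _ _).2 (holds_congr ?_ (hF c hcc)))
    intro r hr
    obtain ⟨-, h2, h3⟩ := fin_box rooms_F inside_F hcc hr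
    rw [glue_ch _ hP.hK h2 h3]
    show _ = chSt P.K t P.K r.1 r.2
    unfold chSt
    rw [if_neg (lt_irrefl _)]
  · intro k hk1 hk2
    refine Good.o0 ((holds_shift _ _ _ _).2
      (E_wire (t := t k) (eOf_pos (ht (k + 1))) (he (k + 1)) ?_ ?_))
    · rw [glue_ch_below _ hk1]
      exact fin_out P.K t (k + 1)
    · rw [glue_ch _ hk1 le_rfl (by norm_num)]
      show chSt P.K t k 10 0 = _
      unfold chSt
      rw [if_pos hk2]
  · refine Good.o0 ((holds_shift _ _ _ _).2 (U_wire (eOf_pos (ht 1)) (he 1) ?_ ?_))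
    · rw [glue_un_below]
      exact fin_out P.K t 1
    · rw [glue_un _ (by norm_num) le_rfl (by norm_num)]
      rfl

/-- Small solutions of the reduced system of a layout.
Proof. `chain_exists` with `h / 2`; `all_good`, `good_ev`, `finite_con` (`Filter.eventually_all_finite`); the states `g2`, `g3`, `g4`
are bounded on the finitely many active rooms (`act_box`), so their contribution is `≤ h / 2` for small `t`. -/
theorem red_exists (hP : P.OK) {z : ℕ → ℝ}
    (hg : ∀ (g : ℕ) (b : Bool), P.G[g]? = some b → 0 < LQ.gateVal b (z (3 * g)) (z (3 * g + 1)) (z (3 * g + 2)))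
    (hneg : ∀ l < P.ns, ((List.range P.nl).map fun j => if P.tap l j then Y2 z j else 0).sum < 0) {h : ℝ} (hh : 0 < h) :
    ∃ a, (netOf P.tile).Red a ∧ ∀ x y, (netOf P.tile).act x y = true → |(a x y).1| ≤ h ∧ |(a x y).2| ≤ h := by
  obtain ⟨t, ht, he, hF, hE, hch, hun⟩ := chain_exists hP.hK (half_pos hh)
  have hgood := fun c hc => all_good hP ht he hF hE hg hneg c hc
  have hFb : ∀ x y, |(glue P (gF P t) x y).1| ≤ h / 2 ∧ |(glue P (gF P t) x y).2| ≤ h / 2 := by
    intro x y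
    have hh2 : 0 ≤ h / 2 := (half_pos hh).le
    unfold glue gF
    simp only
    split_ifs with h1
    · simpa using hh2
    · exact hun _ _
    · simpa using hh2
    · simpa using hh2
    · exact hch _ (by omega) _ _
  have h1 : ∀ᶠ τ in nhdsWithin (0 : ℝ) (Set.Ioi 0), ∀ c ∈ {c : Con | c.In (netOf P.tile) = true},
      c.Holds (comb (glue P (gF P t)) (glue P (g2 P z)) (glue P (g3 P)) (glue P (g4 P z)) τ) := by
    rw [Filter.eventually_all_finite (finite_con P)]
    exact fun c hc => good_ev (hgood c hc)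
  have hfin : {r : ℤ × ℤ | (netOf P.tile).act r.1 r.2 = true}.Finite := by
    refine Set.Finite.subset ((Set.finite_Icc (0 : ℤ) (9 * (P.ns + 3))).prod
      (Set.finite_Icc (-(18 * P.K : ℤ)) (9 * P.nl))) ?_
    rintro ⟨x, y⟩ hr
    obtain ⟨a, b, c, d⟩ := act_box P hr
    exact ⟨⟨a, b.le⟩, ⟨c, d.le⟩⟩
  have h2 : ∀ᶠ τ in nhdsWithin (0 : ℝ) (Set.Ioi 0), ∀ r ∈ {r : ℤ × ℤ | (netOf P.tile).act r.1 r.2 = true},
      |(comb (glue P (gF P t)) (glue P (g2 P z)) (glue P (g3 P)) (glue P (g4 P z)) τ r.1 r.2).1| < h ∧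
      |(comb (glue P (gF P t)) (glue P (g2 P z)) (glue P (g3 P)) (glue P (g4 P z)) τ r.1 r.2).2| < h := by
    rw [Filter.eventually_all_finite hfin]
    intro r _
    refine Filter.Eventually.filter_mono nhdsWithin_le_nhds ?_
    obtain ⟨hb1, hb2⟩ := hFb r.1 r.2
    refine Filter.Eventually.and ?_ ?_
    · have hc : Continuous fun τ : ℝ => |(comb (glue P (gF P t)) (glue P (g2 P z)) (glue P (g3 P))
          (glue P (g4 P z)) τ r.1 r.2).1| := by
        unfold comb
        fun_prop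
      refine (hc.tendsto 0).eventually_lt_const ?_
      have h0 : comb (glue P (gF P t)) (glue P (g2 P z)) (glue P (g3 P)) (glue P (g4 P z)) 0 r.1 r.2 =
          glue P (gF P t) r.1 r.2 := by
        unfold comb
        simp
      rw [h0]
      linarith
    · have hc : Continuous fun τ : ℝ => |(comb (glue P (gF P t)) (glue P (g2 P z)) (glue P (g3 P))
          (glue P (g4 P z)) τ r.1 r.2).2| := by
        unfold comb
        fun_prop
      refine (hc.tendsto 0).eventually_lt_const ?_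
      have h0 : comb (glue P (gF P t)) (glue P (g2 P z)) (glue P (g3 P)) (glue P (g4 P z)) 0 r.1 r.2 =
          glue P (gF P t) r.1 r.2 := by
        unfold comb
        simp
      rw [h0]
      linarith
  obtain ⟨τ, h3, h4⟩ := (h1.and h2).exists
  exact ⟨_, fun c hc => h3 c hc, fun x y hxy => ⟨(h4 (x, y) hxy).1.le, (h4 (x, y) hxy).2.le⟩⟩

private theorem fin_range (n : ℕ) (φ : ℕ → ℝ) :
    ((List.range n).map φ).sum = ∑ j ∈ Finset.range n, φ j := by
  induction n with
  | zero => simp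
  | succ n ih =>
    rw [List.range_succ, List.map_append, List.sum_append, ih, Finset.sum_range_succ]
    simp

private theorem fin_sum (n : ℕ) (l : List ℕ) (y : ℕ → ℝ) (hl : l.Nodup) (hn : ∀ j ∈ l, j < n) :
    ((List.range n).map fun j => if j ∈ l then y j else 0).sum = (l.map y).sum := by
  rw [fin_range, ← Finset.sum_filter]
  have h1 : (Finset.range n).filter (fun j => j ∈ l) = l.toFinset := by
    ext j
    rw [Finset.mem_filter, Finset.mem_range, List.mem_toFinset]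
    exact ⟨fun h => h.2, fun h => ⟨hn j h, h⟩⟩
  rw [h1, List.sum_toFinset y hl]

/-- the strings of the layout of an instance (`string_cases`, `tap_zero`, …, `formTaps_sum`; the additional variable `I.N` gets
the value `1 / 2`) -/
theorem strings_neg {I : Inst} (hI : I.WF) (K : ℕ) {δ : ℝ} (hδ : 0 < δ) {z : ℕ → ℝ} (hz : I.Sol (-δ) z) (hN : z I.N = 1 / 2)
    {l : ℕ} (hl : l < (layOf I K).ns) :
    ((List.range (layOf I K).nl).map fun j => if (layOf I K).tap l j then Y2 z j else 0).sum < 0 := by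
  obtain ⟨hz1, hz2, -⟩ := hz
  rw [neg_neg] at hz2
  have hpos : ∀ v < I.N + 1, 0 < z v ∧ z v < 1 := by
    intro v hv
    by_cases h : v = I.N
    · rw [h, hN]
      norm_num
    · have := hz1 v (by omega)
      constructor
      · linarith [this.1]
      · linarith [this.2]
  have hnl : (layOf I K).nl = 2 + 2 * (I.N + 1) := by
    unfold Lay.nl
    rw [layOf_nvar]
  have hY3 : ∀ v, Y2 z (3 + 2 * v) = -z v := by
    intro v
    unfold Y2
    rw [if_neg (by omega), if_neg (by omega), if_neg (by omega), show (3 + 2 * v - 2) / 2 = v by omega]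
  have hY2 : ∀ v, Y2 z (2 + 2 * v) = z v := by
    intro v
    unfold Y2
    rw [if_neg (by omega), if_neg (by omega), if_pos (by omega), show (2 + 2 * v - 2) / 2 = v by omega]
  have hY0 : Y2 z 0 = -1 := by simp [Y2]
  have hY1 : Y2 z 1 = 1 := by simp [Y2]
  rcases string_cases I K hl with rfl | rfl | ⟨v, hv, rfl⟩ | ⟨v, hv, rfl⟩ | ⟨i, f, hf, rfl⟩
  · have h1 := fin_sum (layOf I K).nl [0, 1, 3] (Y2 z) (by decide) (by
      intro j hj
      rw [hnl]
      simp only [List.mem_cons, List.not_mem_nil, or_false] at hj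
      omega)
    simp only [tap_zero]
    have h2 : (fun j => if decide (j = 0 ∨ j = 1 ∨ j = 3) = true then Y2 z j else 0) =
        fun j => if j ∈ [0, 1, 3] then Y2 z j else 0 := by
      funext j
      simp
    rw [h2, h1]
    have h3 := hY3 0
    have h4 := (hpos 0 (by omega)).1
    simp only [mul_zero, add_zero] at h3
    simp only [List.map_cons, List.map_nil, List.sum_cons, List.sum_nil, hY0, hY1, h3]
    linarith
  · have h1 := fin_sum (layOf I K).nl [0] (Y2 z) (by decide) (by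
      intro j hj
      rw [hnl]
      simp only [List.mem_cons, List.not_mem_nil, or_false] at hj
      omega)
    simp only [tap_one]
    have h2 : (fun j => if decide (j = 0) = true then Y2 z j else 0) =
        fun j => if j ∈ [0] then Y2 z j else 0 := by
      funext j
      simp
    rw [h2, h1]
    simp only [List.map_cons, List.map_nil, List.sum_cons, List.sum_nil, hY0]
    norm_num
  · have h1 := fin_sum (layOf I K).nl [3 + 2 * v] (Y2 z) (by simp) (by
      intro j hj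
      rw [hnl]
      simp only [List.mem_cons, List.not_mem_nil, or_false] at hj
      omega)
    simp only [tap_neg I K _ hv]
    have h2 : (fun j => if decide (j = 3 + 2 * v) = true then Y2 z j else 0) =
        fun j => if j ∈ [3 + 2 * v] then Y2 z j else 0 := by
      funext j
      simp
    rw [h2, h1]
    simp only [List.map_cons, List.map_nil, List.sum_cons, List.sum_nil, hY3]
    linarith [(hpos v hv).1]
  · have h1 := fin_sum (layOf I K).nl [2 + 2 * v, 0] (Y2 z) (by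
      simp) (by
      intro j hj
      rw [hnl]
      simp only [List.mem_cons, List.not_mem_nil, or_false] at hj
      omega)
    simp only [tap_pos I K _ hv]
    have h2 : (fun j => if decide (j = 2 + 2 * v ∨ j = 0) = true then Y2 z j else 0) =
        fun j => if j ∈ [2 + 2 * v, 0] then Y2 z j else 0 := by
      funext j
      simp
    rw [h2, h1]
    simp only [List.map_cons, List.map_nil, List.sum_cons, List.sum_nil, hY2, hY0]
    linarith [(hpos v hv).2]
  · have hfm : f ∈ I.forms := List.mem_of_getElem? hf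
    have h1 := formTaps_sum I hI K hfm (Y2 z) 1 z hY0 hY1 (fun v _ => hY2 v) (fun v _ => hY3 v)
    simp only [tap_form I K _ hf]
    have h2 : (fun j => if decide (j ∈ formTaps f) = true then Y2 z j else 0) =
        fun j => if j ∈ formTaps f then Y2 z j else 0 := by
      funext j
      simp
    rw [h2, h1]
    have h3 := hz2 f hfm
    unfold Form.eval at h3
    linarith

theorem net0_red {I : Inst} (hI : I.WF) (K : ℕ) {δ : ℝ} (hδ : 0 < δ) (hz : ∃ z, I.Sol (-δ) z) {h : ℝ} (hh : 0 < h) :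
    ∃ a, (net0 I K).Red a ∧ ∀ x y, (net0 I K).act x y = true → |(a x y).1| ≤ h ∧ |(a x y).2| ≤ h := by
  obtain ⟨z, hz1, hz2, hz3⟩ := hz
  have hN : ∀ v < I.N, (fun i => if i = I.N then (1 / 2 : ℝ) else z i) v = z v := by
    intro v hv
    simp only
    rw [if_neg (by omega)]
  have hS : I.Sol (-δ) (fun i => if i = I.N then (1 / 2 : ℝ) else z i) := by
    refine ⟨fun i hi => ?_, fun f hf => ?_, fun g hg => ?_⟩
    · rw [hN i hi]
      exact hz1 i hi
    · have h1 := hz2 f hf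
      have h2 : LQ.lsum (fun i => if i = I.N then (1 / 2 : ℝ) else z i) f.2 = LQ.lsum z f.2 := by
        unfold LQ.lsum
        congr 1
        refine List.map_congr_left fun p hp => ?_
        rw [hN p.2 (((hI f hf).2.1 p hp).2)]
      unfold LQ.Form.eval at h1 ⊢
      rw [h2]
      exact h1
    · have h1 := hz3 g hg
      have h2 : 3 * g + 2 < I.N := by
        unfold Inst.N
        omega
      rw [hN _ (by omega), hN _ (by omega), hN _ h2]
      exact h1
  have hh2 : (layOf I K).G = I.gates := rfl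
  refine red_exists (layOf_ok I K) (z := fun i => if i = I.N then (1 / 2 : ℝ) else z i) ?_ ?_ hh
  · intro g b hgb
    rw [hh2] at hgb
    obtain ⟨h1, h2⟩ := List.getElem?_eq_some_iff.1 hgb
    have h3 := hS.2.2 g h1
    rw [h2] at h3
    linarith
  · intro l hl
    exact strings_neg hI K hδ hS (by simp) hl

/-- translation -/
theorem red_shift {N : Net} {a : ℤ → ℤ → ℝ × ℝ} (h : N.Red a) (X Y : ℤ) :
    (N.shift X Y).Red fun x y => a (x - X) (y - Y) := by
  intro c hc
  cases c with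
  | h1 x y =>
    have h1 : x + 1 - X = x - X + 1 := by ring
    simp only [Con.In, Net.shift, h1] at hc
    have := h (.h1 (x - X) (y - Y)) hc
    simpa only [Con.Holds, Con.Q, Con.slack, h1] using this
  | h3 x y =>
    have h1 : y - 1 - Y = y - Y - 1 := by ring
    simp only [Con.In, Net.shift, h1] at hc
    have := h (.h3 (x - X) (y - Y)) hc
    simpa only [Con.Holds, Con.Q, Con.slack, h1] using this
  | cp x y =>
    have h1 : x + 1 - X = x - X + 1 := by ring
    have h2 : y + 1 - Y = y - Y + 1 := by ring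
    simp only [Con.In, Net.shift, h1, h2] at hc
    have := h (.cp (x - X) (y - Y)) hc
    simpa only [Con.Holds, Con.Q, Con.slack, h1, h2] using this
  | p1 x y =>
    have h1 : x + 1 - X = x - X + 1 := by ring
    have h2 : y + 1 - Y = y - Y + 1 := by ring
    simp only [Con.In, Net.shift, h1, h2] at hc
    have := h (.p1 (x - X) (y - Y)) hc
    simpa only [Con.Holds, Con.Q, Con.slack, h1, h2] using this
  | p2 x y =>
    have h1 : x - 1 - X = x - X - 1 := by ring
    have h2 : y + 1 - Y = y - Y + 1 := by ring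
    simp only [Con.In, Net.shift, h1, h2] at hc
    have := h (.p2 (x - X) (y - Y)) hc
    simpa only [Con.Holds, Con.Q, Con.slack, h1, h2] using this
  | p3 x y =>
    have h1 : x - 1 - X = x - X - 1 := by ring
    have h2 : y - 1 - Y = y - Y - 1 := by ring
    simp only [Con.In, Net.shift, h1, h2] at hc
    have := h (.p3 (x - X) (y - Y)) hc
    simpa only [Con.Holds, Con.Q, Con.slack, h1, h2] using this

/-- a larger bound -/
theorem sol_mono {N : Net} {H H' : ℝ} {a b : ℤ → ℤ → ℝ × ℝ} (hH : H ≤ H') (h : N.Sol H a b) : N.Sol H' a b := by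
  refine ⟨fun x y hxy => ?_, fun x y hxy => ?_, h.tight, h.d1, h.d2, h.d3⟩
  · have := h.asize x y hxy
    exact ⟨this.1.trans hH, this.2.trans hH⟩
  · have := h.bsize x y hxy
    exact ⟨this.1.trans hH, this.2.trans hH⟩

/-- **Completeness of the network.** (`sol_of_red` with `h = min (H / 100) (1 / 1000)`.) -/
theorem net_complete {I : Inst} (hI : I.WF) (K : ℕ) {δ : ℝ} (hδ : 0 < δ) (hz : ∃ z, I.Sol (-δ) z) {H : ℝ} (hH : 0 < H) :
    ∃ a b, (net I K).Sol H a b := by
  have hh : 0 < min (H / 100) (1 / 1000) := lt_min (by positivity) (by norm_num)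
  obtain ⟨a, ha, hb⟩ := net0_red hI K hδ hz hh
  obtain ⟨b, hs⟩ := sol_of_red hh (min_le_right _ _)
    (red_shift ha (9 * (4 * (isize I K : ℤ))) (9 * (2 * (isize I K : ℤ))))
    (fun x y hxy => hb _ _ hxy)
  refine ⟨_, b, sol_mono ?_ hs⟩
  have := min_le_left (H / 100) (1 / 1000)
  linarith

end Pool.Agent.Lib.MP_6ff0c5_lc.N
end
end
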